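import Pool.Agent.H88.E58.Defs

/-!
# E58 Bmp: a smooth bump and its Fourier transform

`ψ` = `ContDiffBump` centred at `1/2` with `rIn = 1/4`, `rOut = 3/8` (equal to `1` on `[1/4, 3/4]`, support in `(1/8, 7/8)`), values in `[0, 1]`.
As a Schwartz function `f` (`HasCompactSupport.toSchwartzMap` or by hand) let `g = 𝓕 f` (or `𝓕⁻`, so that the signs agree:
`ψ v = ∫ g t ee(t v) dt` with `g t = ∫ ψ v ee(-(t v)) dv`): Fourier inversion for Schwartz functions.  `g` is Schwartz, so it is continuous,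
integrable, has a bounded derivative (hence is Lipschitz) and `|t|^k ‖g t‖ ≤ C_k` (`SchwartzMap.decay`).
-/

set_option autoImplicit false

namespace Pool.Agent.H88.E58

theorem bmp : ∃ (ψ : ℝ → ℝ) (g : ℝ → ℂ), Bump ψ g := by
  obtain ⟨φ, hφ⟩ : ∃ φ : ContDiffBump (1 / 2 : ℝ), φ = ⟨1 / 4, 3 / 8, by norm_num, by norm_num⟩ := ⟨_, rfl⟩
  have hin : φ.rIn = 1 / 4 := by rw [hφ]
  have hout : φ.rOut = 3 / 8 := by rw [hφ]
  have hcs : HasCompactSupport (fun v : ℝ => ((φ v : ℝ) : ℂ)) := φ.hasCompactSupport.comp_left (g := fun x : ℝ => (x : ℂ)) (by simp)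
  have hcd : ContDiff ℝ (⊤ : ℕ∞) (fun v : ℝ => ((φ v : ℝ) : ℂ)) :=
    Complex.ofRealCLM.contDiff.comp (φ.contDiff (n := (⊤ : ℕ∞)))
  obtain ⟨S, hS⟩ : ∃ S : SchwartzMap ℝ ℂ, ∀ v, S v = ((φ v : ℝ) : ℂ) := ⟨hcs.toSchwartzMap hcd, fun v => rfl⟩
  obtain ⟨G, hG⟩ : ∃ G : SchwartzMap ℝ ℂ, G = FourierTransform.fourier S := ⟨_, rfl⟩
  have hinv : FourierTransformInv.fourierInv G = S := by
    rw [hG]
    exact FourierTransform.fourierInv_fourier_eq S
  refine ⟨φ, G, ?_⟩
  refine ⟨fun v => φ.nonneg, fun v => φ.le_one, ?_, ?_, ?_, G.continuous, G.integrable, ?_, ?_, ?_⟩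
  · intro v h1 h2
    apply φ.one_of_mem_closedBall
    rw [hin, Metric.mem_closedBall, Real.dist_eq, abs_le]
    constructor <;> linarith
  · intro v hv
    have h1 : v ∈ Function.support φ := hv
    rw [φ.support_eq, hout, Metric.mem_ball, Real.dist_eq, abs_lt] at h1
    constructor <;> linarith [h1.1, h1.2]
  · obtain ⟨C, hC⟩ := ContDiff.lipschitzWith_of_hasCompactSupport φ.hasCompactSupport
      (φ.contDiff (n := 1)) one_ne_zero
    refine ⟨max C 1, le_max_right _ _, fun u v => ?_⟩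
    have h1 := hC.dist_le_mul u v
    rw [Real.dist_eq, Real.dist_eq] at h1
    exact h1.trans (mul_le_mul_of_nonneg_right (le_max_left _ _) (abs_nonneg _))
  · intro v
    have h1 : S v = (FourierTransformInv.fourierInv G : SchwartzMap ℝ ℂ) v := by rw [hinv]
    rw [← hS v, h1, SchwartzMap.fourierInv_coe, Real.fourierInv_eq']
    refine MeasureTheory.integral_congr_ae (Filter.Eventually.of_forall fun t => ?_)
    simp only [smul_eq_mul]
    rw [mul_comm]
    congr 1
    unfold Pool.Agent.H91.PK.ee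
    congr 1
    simp only [RCLike.inner_apply, conj_trivial]
    push_cast
    ring
  · obtain ⟨C, hC0, hC⟩ := G.decay 0 1
    refine ⟨max C 1, le_max_right _ _, fun s t => ?_⟩
    have h1 : ∀ x ∈ (Set.univ : Set ℝ), ‖fderiv ℝ G x‖ ≤ C := by
      intro x _
      have h2 := hC x
      rw [pow_zero, one_mul, norm_iteratedFDeriv_one] at h2
      exact h2
    have h2 := Convex.norm_image_sub_le_of_norm_fderiv_le (f := G) (fun x _ => G.differentiableAt) h1 convex_univ
      (Set.mem_univ t) (Set.mem_univ s)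
    refine h2.trans ?_
    rw [Real.norm_eq_abs]
    exact mul_le_mul_of_nonneg_right (le_max_left _ _) (abs_nonneg _)
  · intro k
    obtain ⟨C, hC0, hC⟩ := G.decay k 0
    refine ⟨max C 1, le_max_right _ _, fun t => ?_⟩
    have h2 := hC t
    rw [norm_iteratedFDeriv_zero, Real.norm_eq_abs] at h2
    rw [mul_comm]
    exact h2.trans (le_max_left _ _)

end Pool.Agent.H88.E58
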