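import Pool.Agent.H88.PSI.Lvk

/-!
# E58 Lv: measure of the large value set of one factor, `T ≤ X^(3/8-e)`

Same proof as `Pool/Agent/H88/PSI/Lvs.lean` with other numbers.  Let `N = X^ν`, `κ ≤ ν ≤ 11/24`; `k` maximal with `k ν ≤ 1/2 - e/2` (fixed range of `k`:
`1 ≤ k ≤ 1/κ`; the constants `2^k` are absorbed), `u = k ν`, so that `1/4 - e/4 < u ≤ 1/2 - e/2`.  With `V = N^(s-eδ/4)` and `e1` small (`e1 = eδ/100`), `lvk` gives
`vol ≤ X^e1 (X^(2u(1-s) + u e δ/2) + X^(3/8 - e + min (u(1-2s)) (u(4-6s)) + 3 u e δ/2))`.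
First term: `2u(1-s) + u e δ/2 + e1 ≤ (1-s) - e(1-s) + eδ/4 + e1`, and `e (1-s) ≥ e δ`: `≤ 1 - s - 3eδ/4 + e1`.  Second term: for `s ≤ 3/4` use `u(1-2s)`:
`3/8 - e + u(1-2s) - (1-s)` is increasing in `s`, for `s ≥ 3/4` use `u(4-6s)`: `3/8 - e + u(4-6s) - (1-s)` is decreasing in `s` (`u > 1/6`);
at `s = 3/4` both are `1/8 - e - u/2 ≤ -7e/8`.  (`δ ≤ 1/4`, so `3uδe/2 + e1 + eδ/2 ≤ 7e/8 - ...`.)
-/

set_option autoImplicit false

namespace Pool.Agent.H88.E58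

open Finset MeasureTheory
open Pool.Agent.H88.PSI

private theorem Lv_k {x n e κ : ℝ} {K : ℕ} (hx : 3 ≤ x) (hn : 1 ≤ n) (he : 0 < e)
    (he' : e ≤ 1 / 100) (hK : 1 ≤ κ * K) (h1 : x ^ κ ≤ n)
    (h2 : n ≤ x ^ (11 / 24 : ℝ)) : ∃ j : ℕ, j < K + 2 ∧ x ^ (1 / 4 - e / 4) ≤ n ^ (j + 1) ∧
      n ^ (j + 1) ≤ x ^ (1 / 2 - e / 2) := by
  have hx0 : 0 < x := by linarith
  have hx1 : 1 < x := by linarith
  have hn0 : 0 < n := by linarith
  have hKx : x ^ (1 / 2 - e / 2) < n ^ K := by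
    calc x ^ (1 / 2 - e / 2) < x ^ (κ * K) :=
          Real.rpow_lt_rpow_of_exponent_lt hx1 (by linarith)
      _ = (x ^ κ) ^ K := by rw [Real.rpow_mul hx0.le, Real.rpow_natCast]
      _ ≤ n ^ K := pow_le_pow_left₀ (Real.rpow_nonneg hx0.le _) h1 K
  have hex : ∃ k : ℕ, x ^ (1 / 2 - e / 2) < n ^ k := ⟨K, hKx⟩
  classical
  have hle : Nat.find hex ≤ K := Nat.find_min' hex hKx
  have hspec := Nat.find_spec hex
  have hne : 2 ≤ Nat.find hex := by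
    by_contra hcon
    have h3 : n ^ Nat.find hex ≤ n ^ 1 := pow_le_pow_right₀ hn (by omega)
    have h4 : x ^ (11 / 24 : ℝ) ≤ x ^ (1 / 2 - e / 2) :=
      Real.rpow_le_rpow_of_exponent_le hx1.le (by linarith)
    rw [pow_one] at h3
    linarith
  obtain ⟨j, hj⟩ := Nat.exists_eq_add_of_le hne
  have hj' : Nat.find hex = (j + 1) + 1 := by omega
  have h5 : ¬ x ^ (1 / 2 - e / 2) < n ^ (j + 1) := Nat.find_min hex (by omega)
  push Not at h5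
  refine ⟨j, by omega, ?_, h5⟩
  have h6 : x ^ (1 / 2 - e / 2) ≤ (n ^ (j + 1)) ^ 2 := by
    rw [← pow_mul]
    refine hspec.le.trans (pow_le_pow_right₀ hn ?_)
    omega
  have h7 : (x ^ (1 / 4 - e / 4)) ^ 2 = x ^ (1 / 2 - e / 2) := by
    rw [← Real.rpow_natCast, ← Real.rpow_mul hx0.le]
    congr 1
    push_cast
    ring
  rw [← h7] at h6
  exact (pow_le_pow_iff_left₀ (Real.rpow_nonneg hx0.le _) (by positivity) two_ne_zero).1 h6

private theorem Lv_core (e e1 κ : ℝ) (he : 0 < e) (he' : e ≤ 1 / 100) (he1 : 0 < e1)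
    (hκ : 0 < κ) : ∃ X0 : ℕ, ∀ X : ℕ, X0 ≤ X → 3 ≤ X ∧
    ∀ (N : ℕ) (g : ArithmeticFunction ℂ) (σ T : ℝ) (B : Set ℝ),
    (X : ℝ) ^ κ ≤ N → (N : ℝ) ≤ (X : ℝ) ^ (11 / 24 : ℝ) →
    (∀ n, g n ≠ 0 → n ≤ 2 * N) → (∀ n, ‖g n‖ ≤ 2 * Real.log X) →
    1 ≤ T → T ≤ (X : ℝ) ^ (3 / 8 - e) → MeasurableSet B → B ⊆ Set.Icc (-T) T →
    (∀ t ∈ B, (N : ℝ) ^ σ ≤ ‖DP g (2 * N) t‖) →
    ∃ u : ℝ, 1 / 4 - e / 4 ≤ u ∧ u ≤ 1 / 2 - e / 2 ∧ volume.real B ≤ (X : ℝ) ^ e1 *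
      ((X : ℝ) ^ (2 * u * (1 - σ)) + min ((X : ℝ) ^ (3 / 8 - e + u * (1 - 2 * σ)))
        ((X : ℝ) ^ (3 / 8 - e + u * (4 - 6 * σ)))) := by
  choose f hf using fun j : ℕ => lvk (j + 1) e1 (by omega) he1
  set K : ℕ := ⌈1 / κ⌉₊ with hK
  have hK1 : 1 ≤ κ * K := by
    have h1 : 1 / κ ≤ K := Nat.le_ceil _
    rw [div_le_iff₀ hκ] at h1
    linarith
  refine ⟨max (∑ j ∈ range (K + 2), f j) (max 3 ⌈((2 : ℝ) ^ (K + 2)) ^ (1 / e)⌉₊),
    fun X hX => ?_⟩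
  have hX1 : ∑ j ∈ range (K + 2), f j ≤ X := (le_max_left _ _).trans hX
  have hX3 : 3 ≤ X := (le_max_left _ _).trans ((le_max_right _ _).trans hX)
  have hX2 : ⌈((2 : ℝ) ^ (K + 2)) ^ (1 / e)⌉₊ ≤ X :=
    (le_max_right _ _).trans ((le_max_right _ _).trans hX)
  refine ⟨hX3, fun N g σ T B h1 h2 hg hg' hT hT' hB hBT hV => ?_⟩
  set x : ℝ := (X : ℝ) with hx
  have hx3 : 3 ≤ x := by
    rw [hx]
    exact_mod_cast hX3
  have hx0 : 0 < x := by linarith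
  have hx1 : 1 < x := by linarith
  have hN1 : (1 : ℝ) ≤ N := (Real.one_le_rpow hx1.le hκ.le).trans h1
  have hN0 : (0 : ℝ) < N := by linarith
  have hN : 1 ≤ N := by exact_mod_cast hN1
  obtain ⟨j, hj, k1, k2⟩ := Lv_k hx3 hN1 he he' hK1 h1 h2
  have hfX : f j ≤ X := (single_le_sum (fun i _ => Nat.zero_le (f i)) (mem_range.2 hj)).trans hX1
  have h2e : (2 : ℝ) ^ (K + 2) ≤ x ^ e := by
    have h3 : ((2 : ℝ) ^ (K + 2)) ^ (1 / e) ≤ x := (Nat.le_ceil _).trans (by rw [hx]; exact_mod_cast hX2)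
    have h4 : (((2 : ℝ) ^ (K + 2)) ^ (1 / e)) ^ e ≤ x ^ e :=
      Real.rpow_le_rpow (by positivity) h3 he.le
    rwa [← Real.rpow_mul (by positivity), one_div_mul_cancel he.ne', Real.rpow_one] at h4
  have hpow : (2 * N) ^ (j + 1) ≤ X := by
    have h3 : ((2 * N : ℕ) : ℝ) ^ (j + 1) ≤ x := by
      push_cast
      rw [mul_pow]
      calc (2 : ℝ) ^ (j + 1) * (N : ℝ) ^ (j + 1) ≤ 2 ^ (K + 2) * x ^ (1 / 2 - e / 2) :=
            mul_le_mul (pow_le_pow_right₀ (by norm_num) (by omega)) k2 (by positivity)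
              (by positivity)
        _ ≤ x ^ e * x ^ (1 / 2 - e / 2) := mul_le_mul_of_nonneg_right h2e (Real.rpow_nonneg hx0.le _)
        _ = x ^ (e + (1 / 2 - e / 2)) := (Real.rpow_add hx0 _ _).symm
        _ ≤ x ^ (1 : ℝ) := Real.rpow_le_rpow_of_exponent_le hx1.le (by linarith)
        _ = x := Real.rpow_one x
    rw [hx] at h3
    exact_mod_cast h3
  have hTX : T ≤ x := by
    refine hT'.trans ?_
    calc x ^ (3 / 8 - e) ≤ x ^ (1 : ℝ) := Real.rpow_le_rpow_of_exponent_le hx1.le (by linarith)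
      _ = x := Real.rpow_one x
  have hV0 : 0 < (N : ℝ) ^ σ := Real.rpow_pos_of_pos hN0 _
  have main := hf j X hfX N g ((N : ℝ) ^ σ) T B hN hpow hg hg' hV0 hT hTX hB hBT hV
  obtain ⟨u, hu⟩ : ∃ u : ℝ, x ^ u = (N : ℝ) ^ (j + 1) :=
    ⟨Real.logb x ((N : ℝ) ^ (j + 1)), Real.rpow_logb hx0 hx1.ne' (by positivity)⟩
  have u1 : 1 / 4 - e / 4 ≤ u := by
    rw [← hu] at k1
    exact (Real.rpow_le_rpow_left_iff hx1).1 k1
  have u2 : u ≤ 1 / 2 - e / 2 := by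
    rw [← hu] at k2
    exact (Real.rpow_le_rpow_left_iff hx1).1 k2
  -- the powers of `N` and `V`
  have pN : ∀ m : ℕ, (N : ℝ) ^ (m * (j + 1)) = x ^ (m * u) := by
    intro m
    rw [mul_comm m, pow_mul, ← hu, ← Real.rpow_natCast, ← Real.rpow_mul hx0.le, mul_comm u]
  have pV : ∀ m : ℕ, ((N : ℝ) ^ σ) ^ (m * (j + 1)) = x ^ (m * u * σ) := by
    intro m
    rw [← Real.rpow_natCast, ← Real.rpow_mul hN0.le, mul_comm σ, Real.rpow_mul hN0.le,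
      Real.rpow_natCast, pN, ← Real.rpow_mul hx0.le]
  have p1 : (N : ℝ) ^ (j + 1) = x ^ (1 * u) := by rw [one_mul, hu]
  refine ⟨u, u1, u2, main.trans ?_⟩
  refine mul_le_mul_of_nonneg_left (add_le_add ?_ (min_le_min ?_ ?_)) (Real.rpow_nonneg hx0.le _)
  · rw [pN, pV, ← Real.rpow_sub hx0]
    refine le_of_eq ?_
    congr 1
    push_cast
    ring
  · rw [p1, pV]
    calc T * x ^ (1 * u) / x ^ (((2 : ℕ) : ℝ) * u * σ)
        ≤ x ^ (3 / 8 - e) * x ^ (1 * u) / x ^ (((2 : ℕ) : ℝ) * u * σ) := by gcongr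
      _ = x ^ (3 / 8 - e + u * (1 - 2 * σ)) := by
        rw [← Real.rpow_add hx0, ← Real.rpow_sub hx0]
        congr 1
        push_cast
        ring
  · rw [pN, pV]
    calc T * x ^ (((4 : ℕ) : ℝ) * u) / x ^ (((6 : ℕ) : ℝ) * u * σ)
        ≤ x ^ (3 / 8 - e) * x ^ (((4 : ℕ) : ℝ) * u) / x ^ (((6 : ℕ) : ℝ) * u * σ) := by gcongr
      _ = x ^ (3 / 8 - e + u * (4 - 6 * σ)) := by
        rw [← Real.rpow_add hx0, ← Real.rpow_sub hx0]
        congr 1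
        push_cast
        ring

private theorem Lv_two {c : ℝ} (hc : 0 < c) : ∃ X0 : ℕ, ∀ X : ℕ, X0 ≤ X → 2 ≤ (X : ℝ) ^ c := by
  refine ⟨⌈(2 : ℝ) ^ (1 / c)⌉₊, fun X hX => ?_⟩
  have h3 : (2 : ℝ) ^ (1 / c) ≤ X := (Nat.le_ceil _).trans (by exact_mod_cast hX)
  have h4 : ((2 : ℝ) ^ (1 / c)) ^ c ≤ (X : ℝ) ^ c := Real.rpow_le_rpow (by positivity) h3 hc.le
  rwa [← Real.rpow_mul (by norm_num), one_div_mul_cancel hc.ne', Real.rpow_one] at h4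

theorem lv58 (e δ κ : ℝ) (he : 0 < e) (he' : e ≤ 1 / 100) (hδ : 0 < δ) (hδ' : δ ≤ 1 / 4) (hκ : 0 < κ) :
    ∃ X0 : ℕ, ∀ X : ℕ, X0 ≤ X → ∀ (N : ℕ) (g : ArithmeticFunction ℂ) (s T : ℝ) (B : Set ℝ),
    (X : ℝ) ^ κ ≤ N → (N : ℝ) ≤ (X : ℝ) ^ (11 / 24 : ℝ) →
    (∀ n, g n ≠ 0 → n ≤ 2 * N) → (∀ n, ‖g n‖ ≤ 2 * Real.log X) → 1 / 2 ≤ s → s ≤ 1 - δ →
    1 ≤ T → T ≤ (X : ℝ) ^ (3 / 8 - e) → MeasurableSet B → B ⊆ Set.Icc (-T) T →
    (∀ t ∈ B, (N : ℝ) ^ (s - e * δ / 4) ≤ ‖DP g (2 * N) t‖) →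
    volume.real B ≤ (X : ℝ) ^ (1 - s - e * δ / 2) := by
  obtain ⟨X1, h1⟩ := Lv_core e (e * δ / 8) κ he he' (by positivity) hκ
  obtain ⟨X2, h2⟩ := Lv_two (c := e * δ / 8) (by positivity)
  refine ⟨max X1 X2, fun X hX N g s T B hN hN' hg hg' hs hs' hT hT' hB hBT hV => ?_⟩
  obtain ⟨hX3, h3⟩ := h1 X ((le_max_left _ _).trans hX)
  have h4 := h2 X ((le_max_right _ _).trans hX)
  obtain ⟨u, u1, u2, hb⟩ := h3 N g (s - e * δ / 4) T B hN hN' hg hg' hT hT' hB hBT hV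
  set x : ℝ := (X : ℝ) with hx
  have hx3 : 3 ≤ x := by
    rw [hx]
    exact_mod_cast hX3
  have hx0 : 0 < x := by linarith
  have hx1 : 1 ≤ x := by linarith
  have hed : 0 < e * δ := by positivity
  have hed1 : e * δ ≤ e / 4 := by nlinarith
  have hed2 : e * δ ≤ 1 / 400 := by linarith
  set σ : ℝ := s - e * δ / 4 with hσ
  have b1 : x ^ (2 * u * (1 - σ)) ≤ x ^ (1 - s - 3 / 4 * (e * δ)) := by
    refine Real.rpow_le_rpow_of_exponent_le hx1 ?_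
    have : 0 ≤ 1 - σ := by rw [hσ]; linarith
    have a1 : u * (1 - σ) ≤ (1 / 2 - e / 2) * (1 - σ) := mul_le_mul_of_nonneg_right u2 this
    have a2 : (1 / 2 - e / 2) * (1 - σ) =
        (1 - s + e * δ / 4 - e * (1 - s) - e * (e * δ) / 4) / 2 := by
      rw [hσ]; ring
    have a3 : e * δ ≤ e * (1 - s) := mul_le_mul_of_nonneg_left (by linarith) he.le
    have a4 : 0 ≤ e * (e * δ) := by positivity
    linarith
  have b2 : min (x ^ (3 / 8 - e + u * (1 - 2 * σ))) (x ^ (3 / 8 - e + u * (4 - 6 * σ))) ≤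
      x ^ (1 - s - 3 / 4 * (e * δ)) := by
    have hgoal : 1 - σ - e * δ ≤ 1 - s - 3 / 4 * (e * δ) := by
      rw [hσ]
      linarith
    rcases le_total σ (1 / 2) with c1 | c1
    · refine (min_le_left _ _).trans (Real.rpow_le_rpow_of_exponent_le hx1 (le_trans ?_ hgoal))
      have a1 : u * (1 - 2 * σ) ≤ (1 / 2) * (1 - 2 * σ) :=
        mul_le_mul_of_nonneg_right (by linarith) (by linarith)
      linarith
    rcases le_total σ (3 / 4) with c2 | c2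
    · refine (min_le_left _ _).trans (Real.rpow_le_rpow_of_exponent_le hx1 (le_trans ?_ hgoal))
      have a1 : (1 / 4 - e / 4) * (2 * σ - 1) ≤ u * (2 * σ - 1) :=
        mul_le_mul_of_nonneg_right u1 (by linarith)
      have a2 : (1 / 2 + e / 2) * σ ≤ (1 / 2 + e / 2) * (3 / 4) :=
        mul_le_mul_of_nonneg_left c2 (by linarith)
      nlinarith
    · refine (min_le_right _ _).trans (Real.rpow_le_rpow_of_exponent_le hx1 (le_trans ?_ hgoal))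
      have a1 : (1 / 4 - e / 4) * (6 * σ - 4) ≤ u * (6 * σ - 4) :=
        mul_le_mul_of_nonneg_right u1 (by linarith)
      have a2 : (1 / 2 - 3 / 2 * e) * (3 / 4) ≤ (1 / 2 - 3 / 2 * e) * σ :=
        mul_le_mul_of_nonneg_left c2 (by linarith)
      nlinarith
  calc volume.real B ≤ x ^ (e * δ / 8) * (x ^ (1 - s - 3 / 4 * (e * δ)) +
        x ^ (1 - s - 3 / 4 * (e * δ))) := by
        refine hb.trans (mul_le_mul_of_nonneg_left (add_le_add b1 b2) (Real.rpow_nonneg hx0.le _))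
    _ = 2 * x ^ (1 - s - e * δ / 2 - e * δ / 8) := by
        rw [← two_mul, mul_left_comm, ← Real.rpow_add hx0]
        congr 2
        ring
    _ ≤ x ^ (e * δ / 8) * x ^ (1 - s - e * δ / 2 - e * δ / 8) :=
        mul_le_mul_of_nonneg_right h4 (Real.rpow_nonneg hx0.le _)
    _ = x ^ (1 - s - e * δ / 2) := by
        rw [← Real.rpow_add hx0]
        congr 1
        ring

end Pool.Agent.H88.E58
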