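import Pool.Agent.H88.PSI.BoxI
import Pool.Agent.H88.E58.Bs
import Pool.Agent.H88.E58.Tp

/-!
# E58 Bx: first moment of the Dirichlet polynomial of a box of type II

As `Pool/Agent/H88/PSI/BoxI.lean` (`box_i`), with `bs58`, `box_m`, `tp58`, `pt_b`.
-/

set_option autoImplicit false

namespace Pool.Agent.H88.E58

open Finset MeasureTheory
open Pool.Agent.H88.PSI

theorem box58 (e : ℝ) (he : 0 < e) (he' : e ≤ 1 / 100) (A : ℕ) : ∃ K' X0 : ℕ, ∀ X : ℕ, X0 ≤ X →
    ∀ (r N : ℕ) (κ : Fin r → Fin 3) (j : Fin r → ℕ), r ≤ 6 →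
    (∀ i, (2 : ℝ) ^ j i ≤ (X : ℝ) ^ (11 / 24 : ℝ)) →
    ∏ i, 2 ^ j i ≤ 3 * X → X ≤ 2 ^ r * ∏ i, 2 ^ j i → 2 ^ r * ∏ i, 2 ^ j i ≤ N →
    ∫ t in {t : ℝ | Real.log X ^ K' ≤ |t| ∧ |t| ≤ (X : ℝ) ^ (3 / 8 - e)},
      ‖DP (tw (1 : DirichletCharacter ℂ 1) (Pp κ j)) N t‖ ≤ X / Real.log X ^ A := by
  obtain ⟨η, hη, HL⟩ := tp58
  obtain ⟨K, X1, HL⟩ := HL (A + 1)
  obtain ⟨K', X2, HP⟩ := pt_b K 0
  set δ : ℝ := min (η / 13) (1 / 200) with hδdef
  have hδ : 0 < δ := lt_min (by positivity) (by norm_num)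
  have hδ1 : 13 * δ ≤ η := by have := min_le_left (η / 13) (1 / 200 : ℝ); rw [← hδdef] at this; linarith
  have hδ2 : δ ≤ 1 / 200 := min_le_right _ _
  obtain ⟨X3, HS⟩ := bs58 e δ he he' hδ (by linarith)
  obtain ⟨X4, HM⟩ := box_m e δ he he' hδ hδ2
  obtain ⟨X5, H5⟩ := Pool.Agent.H80.LV.log_pow_le (e * δ / 4) 2 (by positivity) (by norm_num) A
  obtain ⟨X6, H6⟩ := Pool.Agent.H80.LV.log_ge 2
  refine ⟨K', max (max (max X1 X2) (max X3 X4)) (max (max X5 X6) 3), ?_⟩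
  intro X hX r N κ j hr hj1 hj2 hj3 hN
  simp only [max_le_iff] at hX
  obtain ⟨⟨⟨hX1, hX2⟩, hX3, hX4⟩, ⟨hX5, hX6⟩, hX7⟩ := hX
  have hXr : (3 : ℝ) ≤ X := by exact_mod_cast hX7
  have hX0 : (0 : ℝ) < X := by linarith
  have hL := H6 X hX6
  set χ : DirichletCharacter ℂ 1 := 1 with hχ
  have hbox := BoxI_box X hX7 χ κ j hr hj1 hj2
  set T : ℝ := (X : ℝ) ^ (3 / 8 - e) with hT
  have hT1 : 1 ≤ T := Real.one_le_rpow (by linarith) (by linarith)
  have hT2 : T ≤ (X : ℝ) ^ (5 / 6 - e) :=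
    Real.rpow_le_rpow_of_exponent_le (by linarith) (by linarith)
  have hTX : T ≤ X := by
    rw [hT]; nth_rewrite 2 [← Real.rpow_one (X : ℝ)]
    exact Real.rpow_le_rpow_of_exponent_le (by linarith) (by linarith)
  set F : ℝ → ℝ := FF (fun i => 2 ^ j i) (fun i => tw χ (pc (κ i) (j i))) with hF
  have hFc : Continuous F := ff_cont _ _
  have hF0 : ∀ t, 0 ≤ F t := ff_nonneg _ _
  set S : Set ℝ := {t : ℝ | Real.log X ^ K' ≤ |t| ∧ |t| ≤ T} with hS
  set B1 : Set ℝ := {t : ℝ | |t| ≤ T ∧ F t ≤ (X : ℝ) ^ (1 - δ)} with hB1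
  set B2 : Set ℝ := {t : ℝ | (Real.log X ^ K' ≤ |t| ∧ |t| ≤ T) ∧ (X : ℝ) ^ (1 - δ) < F t} with hB2
  have mS : MeasurableSet S := by
    apply MeasurableSet.inter
    · exact measurableSet_le measurable_const continuous_abs.measurable
    · exact measurableSet_le continuous_abs.measurable measurable_const
  have mB1 : MeasurableSet B1 := by
    apply MeasurableSet.inter
    · exact measurableSet_le continuous_abs.measurable measurable_const
    · exact measurableSet_le hFc.measurable measurable_const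
  have mB2 : MeasurableSet B2 := by
    apply MeasurableSet.inter mS
    exact measurableSet_lt measurable_const hFc.measurable
  have hint : IntegrableOn (fun t => F t) (Set.Icc (-T) T) :=
    hFc.continuousOn.integrableOn_compact isCompact_Icc
  have sB1 : B1 ⊆ Set.Icc (-T) T := fun t ht => abs_le.1 ht.1
  have sB2 : B2 ⊆ Set.Icc (-T) T := fun t ht => abs_le.1 ht.1.2
  have i1 : IntegrableOn (fun t => F t) B1 := hint.mono_set sB1
  have i2 : IntegrableOn (fun t => F t) B2 := hint.mono_set sB2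
  have hSsub : S ⊆ B1 ∪ B2 := by
    intro t ht
    by_cases h : F t ≤ (X : ℝ) ^ (1 - δ)
    · exact Or.inl ⟨ht.2, h⟩
    · exact Or.inr ⟨ht, not_le.1 h⟩
  have e1 : ∫ t in S, ‖DP (tw χ (Pp κ j)) N t‖ = ∫ t in S, F t := by
    apply setIntegral_congr_fun mS
    intro t _
    show ‖DP (tw χ (Pp κ j)) N t‖ = F t
    rw [BoxI_ff N le_rfl χ κ j hN t]
  have e2 : ∫ t in S, F t ≤ ∫ t in B1 ∪ B2, F t := by
    apply setIntegral_mono_set (i1.union i2)
    · exact Filter.Eventually.of_forall fun t => hF0 t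
    · exact hSsub.eventuallyLE
  have e3 : ∫ t in B1 ∪ B2, F t ≤ (∫ t in B1, F t) + ∫ t in B2, F t := by
    have hd1 : Disjoint B1 B2 := by
      rw [Set.disjoint_left]
      intro t h1 h2
      exact absurd h1.2 (not_le.2 h2.2)
    rw [setIntegral_union hd1 mB2 i1 i2]
  have e4 : ∫ t in B1, F t ≤ (X : ℝ) ^ (1 - e * δ / 4) := HS X hX3 r _ _ T hbox hT1 le_rfl
  have e5 : ∫ t in B2, F t ≤ X / Real.log X ^ (A + 1) := by
    apply HL X hX1 r _ _ B2 hbox hj3 mB2
    · intro t ht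
      have := sB2 ht
      exact ⟨by linarith [this.1], by linarith [this.2]⟩
    · have h1 : volume.real B2 ≤ volume.real {t : ℝ | |t| ≤ T ∧ (X : ℝ) ^ (1 - δ) < F t} := by
        apply measureReal_mono
        · intro t ht
          exact ⟨ht.1.2, ht.2⟩
        · have : {t : ℝ | |t| ≤ T ∧ (X : ℝ) ^ (1 - δ) < F t} ⊆ Set.Icc (-T) T := fun t ht => abs_le.1 ht.1
          exact ne_top_of_le_ne_top (by rw [Real.volume_Icc]; exact ENNReal.ofReal_ne_top) (measure_mono this)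
      have h2 := HM X hX4 r _ _ T hbox hT1 hT2
      refine (h1.trans h2).trans ?_
      exact Real.rpow_le_rpow_of_exponent_le (by linarith) hδ1
    · intro i hi t ht
      have h3 := HP X hX2 1 χ (κ i) (j i) t le_rfl (by simp) (by push_cast at hi; exact hi) ?_ ht.1.1 ?_
      · push_cast
        exact h3
      · refine (hj1 i).trans ?_
        nth_rewrite 2 [← Real.rpow_one (X : ℝ)]
        exact Real.rpow_le_rpow_of_exponent_le (by linarith) (by norm_num)
      · exact ht.1.2.trans hTX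
  have hLp : (0 : ℝ) < Real.log X ^ A := by positivity
  have e6 : (X : ℝ) ^ (1 - e * δ / 4) ≤ (X : ℝ) / Real.log X ^ A / 2 := by
    have h1 := H5 X hX5
    have h2 : (X : ℝ) ^ (1 - e * δ / 4) * (X : ℝ) ^ (e * δ / 4) = (X : ℝ) := by
      rw [← Real.rpow_add hX0]
      rw [show (1 - e * δ / 4 + e * δ / 4 : ℝ) = 1 by ring, Real.rpow_one]
    rw [div_div, le_div_iff₀ (by positivity)]
    calc (X : ℝ) ^ (1 - e * δ / 4) * (Real.log X ^ A * 2)
        ≤ (X : ℝ) ^ (1 - e * δ / 4) * (X : ℝ) ^ (e * δ / 4) :=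
          mul_le_mul_of_nonneg_left (by linarith) (by positivity)
      _ = X := h2
  have e7 : (X : ℝ) / Real.log X ^ (A + 1) ≤ (X : ℝ) / Real.log X ^ A / 2 := by
    rw [div_div]
    apply div_le_div_of_nonneg_left (by positivity) (by positivity)
    rw [pow_succ]
    exact mul_le_mul_of_nonneg_left hL hLp.le
  rw [e1]
  linarith

end Pool.Agent.H88.E58
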