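import Pool.Agent.H88.PSI.Defs

/-!
# PROJECT EP58 (MP_e68f0a_nt): primes in every interval `(x, x + x^(5/8+e)]`

`L = log X`, `ee t = exp(2 π i t)`.

* `Bump ψ g`: `ψ` is a Lipschitz bump with support in `[0, 1]`, `g` its Fourier transform;
* `cc f` is `f` as a function to `ℂ`;
* `sw ψ f N x η = ∑_{n ≤ N} f(n) ψ((log n - log x)/η)/η`, the smooth sum over the window `(x, x e^η)`, over `η`.
-/

set_option autoImplicit false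

namespace Pool.Agent.H88.E58

open Finset MeasureTheory
open Pool.Agent.H91.PK (ee)
open Pool.Agent.H88.PSI

/-- a bump and its Fourier transform -/
structure Bump (ψ : ℝ → ℝ) (g : ℝ → ℂ) : Prop where
  nn : ∀ v, 0 ≤ ψ v
  le1 : ∀ v, ψ v ≤ 1
  one : ∀ v, 1 / 4 ≤ v → v ≤ 3 / 4 → ψ v = 1
  supp : ∀ v, ψ v ≠ 0 → 0 < v ∧ v < 1
  lip : ∃ C : ℝ, 1 ≤ C ∧ ∀ u v, |ψ u - ψ v| ≤ C * |u - v|
  gcont : Continuous g
  gint : Integrable g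
  inv : ∀ v : ℝ, ((ψ v : ℝ) : ℂ) = ∫ t : ℝ, g t * ee (t * v)
  glip : ∃ C : ℝ, 1 ≤ C ∧ ∀ s t, ‖g s - g t‖ ≤ C * |s - t|
  gdec : ∀ k : ℕ, ∃ C : ℝ, 1 ≤ C ∧ ∀ t : ℝ, ‖g t‖ * |t| ^ k ≤ C

/-- a real arithmetic function as a function to `ℂ` -/
noncomputable def cc (f : ArithmeticFunction ℝ) (n : ℕ) : ℂ := ((f n : ℝ) : ℂ)

/-- the smooth sum of `f` over the window `(x, x e^η)`, divided by `η` -/
noncomputable def sw (ψ : ℝ → ℝ) (f : ℕ → ℂ) (N : ℕ) (x η : ℝ) : ℂ :=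
  ∑ n ∈ Icc 1 N, f n * ((ψ ((Real.log n - Real.log x) / η) / η : ℝ) : ℂ)

end Pool.Agent.H88.E58
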