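import Pool.Agent.H88.E58.Defs
import Pool.Agent.H88.PSI.Dpm

/-!
# E58 Dif: Fourier formula for `sw`, and comparison of two window lengths

`inv`: `ψ(v)/η = ∫ g(η t) ee(η t v) dt` (substitution in `Bump.inv`), `v = (log n - log x)/η`, and the finite sum is exchanged with the integral
(`g (η ·)` is integrable, `|ee| = 1`).

`dif`: `g(η t) - g(η1 t)`: for `|t| ≤ T0` it is `≤ C |t| (η1 - η) ≤ C T0 η1` (`glip`), and `‖DP f N t‖ ≤ S` (`dp_norm_le`), total `≤ 2 C T0^2 η1 S`;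
for `T0 ≤ |t| ≤ T` it is `≤ 2 C` (`gdec 0`); for `|t| > T` it is `≤ 2 C_k/(η |t|)^k` (`gdec k` at `η t` and `η1 t`, `η ≤ η1`) and
`∫_{|t| > T} |t|^(-k) dt = 2 T^(1-k)/(k-1) ≤ 2 T^(1-k)`.
-/

set_option autoImplicit false

namespace Pool.Agent.H88.E58

open Finset MeasureTheory
open Pool.Agent.H91.PK (ee)
open Pool.Agent.H88.PSI

private theorem Dif_ee_add (x y : ℝ) : ee (x + y) = ee x * ee y := by
  unfold Pool.Agent.H91.PK.ee
  rw [← Complex.exp_add]
  congr 1
  push_cast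
  ring

private theorem Dif_norm_ee (x : ℝ) : ‖ee x‖ = 1 := by
  unfold Pool.Agent.H91.PK.ee
  have h1 : 2 * (Real.pi : ℂ) * (x : ℂ) * Complex.I = ((2 * Real.pi * x : ℝ) : ℂ) * Complex.I := by
    push_cast
    ring
  rw [h1, Complex.norm_exp_ofReal_mul_I]

private theorem Dif_ee_cont : Continuous ee := by
  have h : ee = fun t : ℝ => Complex.exp (2 * Real.pi * t * Complex.I) := rfl
  rw [h]
  fun_prop

private theorem Dif_sub {ψ : ℝ → ℝ} {g : ℝ → ℂ} (h : Bump ψ g) (v η : ℝ) (hη : 0 < η) :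
    ((ψ v / η : ℝ) : ℂ) = ∫ t : ℝ, g (η * t) * ee (η * t * v) := by
  have h1 := Measure.integral_comp_mul_left (fun t => g t * ee (t * v)) η
  rw [h1, ← h.inv v, abs_of_pos (by positivity), Complex.real_smul]
  push_cast
  ring

private theorem Dif_int {ψ : ℝ → ℝ} {g : ℝ → ℂ} (h : Bump ψ g) {η : ℝ} (hη : 0 < η) :
    Integrable (fun t => g (η * t)) :=
  h.gint.comp_mul_left' hη.ne'

private theorem Dif_int2 {ψ : ℝ → ℝ} {g : ℝ → ℂ} (h : Bump ψ g) {η : ℝ} (hη : 0 < η) (a b : ℝ) (z : ℂ) :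
    Integrable (fun t => g (η * t) * (z * ee (t * a)) * ee (-(t * b))) := by
  have h1 : Continuous (fun t => g (η * t)) := h.gcont.comp (continuous_const.mul continuous_id)
  have h2 : Continuous (fun t : ℝ => z * ee (t * a)) :=
    continuous_const.mul (Dif_ee_cont.comp (continuous_id.mul continuous_const))
  have h3 : Continuous (fun t : ℝ => ee (-(t * b))) :=
    Dif_ee_cont.comp (continuous_id.mul continuous_const).neg
  refine ((Dif_int h hη).norm.const_mul ‖z‖).mono' ((h1.mul h2).mul h3).aestronglyMeasurable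
    (Filter.Eventually.of_forall fun t => ?_)
  rw [norm_mul, norm_mul, norm_mul, Dif_norm_ee, Dif_norm_ee, mul_one, mul_one, mul_comm]

private theorem Dif_cauchy {T : ℝ} (hT : 0 < T) :
    Integrable (fun t : ℝ => (1 + (t / T) ^ 2)⁻¹) ∧ ∫ t : ℝ, (1 + (t / T) ^ 2)⁻¹ = T * Real.pi := by
  constructor
  · exact (integrable_inv_one_add_sq).comp_div hT.ne'
  · have h1 := Measure.integral_comp_div (fun t : ℝ => (1 + t ^ 2)⁻¹) T
    rw [h1, integral_univ_inv_one_add_sq, abs_of_pos hT, smul_eq_mul]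

private theorem Dif_pt {g : ℝ → ℂ} {C0 C1 Ck : ℝ} {k : ℕ} (hk : 2 ≤ k)
    (h0 : ∀ t : ℝ, ‖g t‖ * |t| ^ 0 ≤ C0) (h1 : ∀ s t, ‖g s - g t‖ ≤ C1 * |s - t|)
    (h2 : ∀ t : ℝ, ‖g t‖ * |t| ^ k ≤ Ck) (hC0 : 1 ≤ C0) (hC1 : 1 ≤ C1) (hCk : 1 ≤ Ck)
    {η η1 T0 T : ℝ} (hη : 0 < η) (hη1 : η ≤ η1) (hT0 : 1 ≤ T0) (hT : T0 ≤ T) (D S : ℝ) (hD : 0 ≤ D)
    (hDS : D ≤ S) (t : ℝ) :
    ‖g (η * t) - g (η1 * t)‖ * D ≤
      (Set.Icc (-T0) T0).indicator (fun _ => C1 * T0 * η1 * S) t +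
      {t : ℝ | T0 ≤ |t| ∧ |t| ≤ T}.indicator (fun _ => 2 * C0 * D) t +
      4 * Ck * S / (η * T) ^ k * (1 + (t / T) ^ 2)⁻¹ := by
  have hS : 0 ≤ S := hD.trans hDS
  have hTp : 0 < T := by linarith
  have hη1p : 0 < η1 := by linarith
  have ha : 0 ≤ (Set.Icc (-T0) T0).indicator (fun _ => C1 * T0 * η1 * S) t :=
    Set.indicator_nonneg (fun _ _ => by positivity) _
  have hb : 0 ≤ {t : ℝ | T0 ≤ |t| ∧ |t| ≤ T}.indicator (fun _ => 2 * C0 * D) t :=
    Set.indicator_nonneg (fun _ _ => by positivity) _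
  have hc : 0 ≤ 4 * Ck * S / (η * T) ^ k * (1 + (t / T) ^ 2)⁻¹ := by positivity
  rcases le_or_gt |t| T0 with ht | ht
  · have e1 : (Set.Icc (-T0) T0).indicator (fun _ => C1 * T0 * η1 * S) t = C1 * T0 * η1 * S :=
      Set.indicator_of_mem (Set.mem_Icc.2 (abs_le.1 ht)) _
    have e2 : ‖g (η * t) - g (η1 * t)‖ ≤ C1 * T0 * η1 := by
      refine (h1 _ _).trans ?_
      have e3 : |η * t - η1 * t| = |t| * (η1 - η) := by
        rw [← sub_mul, abs_mul, mul_comm, abs_sub_comm, abs_of_nonneg (sub_nonneg.2 hη1)]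
      rw [e3, mul_assoc]
      refine mul_le_mul_of_nonneg_left ?_ (by linarith)
      exact mul_le_mul ht (by linarith) (by linarith) (by linarith)
    have e4 : ‖g (η * t) - g (η1 * t)‖ * D ≤ C1 * T0 * η1 * S :=
      mul_le_mul e2 hDS hD (by positivity)
    rw [e1]
    linarith
  · rcases le_or_gt |t| T with ht2 | ht2
    · have e1 : {t : ℝ | T0 ≤ |t| ∧ |t| ≤ T}.indicator (fun _ => 2 * C0 * D) t = 2 * C0 * D :=
        Set.indicator_of_mem (show t ∈ {t : ℝ | T0 ≤ |t| ∧ |t| ≤ T} from ⟨ht.le, ht2⟩) _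
      have e2 : ‖g (η * t) - g (η1 * t)‖ ≤ 2 * C0 := by
        have e3 := h0 (η * t)
        have e4 := h0 (η1 * t)
        rw [pow_zero, mul_one] at e3 e4
        exact (norm_sub_le _ _).trans (by linarith)
      have e5 := mul_le_mul_of_nonneg_right e2 hD
      rw [e1]
      linarith
    · have htp : 0 < |t| := by linarith
      have e1 : ‖g (η * t)‖ ≤ Ck / (η * |t|) ^ k := by
        rw [le_div_iff₀ (by positivity)]
        have := h2 (η * t)
        rwa [abs_mul, abs_of_pos hη] at this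
      have e2 : ‖g (η1 * t)‖ ≤ Ck / (η * |t|) ^ k := by
        have e3 : ‖g (η1 * t)‖ ≤ Ck / (η1 * |t|) ^ k := by
          rw [le_div_iff₀ (by positivity)]
          have := h2 (η1 * t)
          rwa [abs_mul, abs_of_pos hη1p] at this
        refine e3.trans (div_le_div_of_nonneg_left (by linarith) (by positivity) ?_)
        exact pow_le_pow_left₀ (by positivity) (mul_le_mul_of_nonneg_right hη1 htp.le) k
      have e4 : ‖g (η * t) - g (η1 * t)‖ ≤ 2 * (Ck / (η * |t|) ^ k) :=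
        (norm_sub_le _ _).trans (by linarith)
      -- comparison with the Cauchy density
      have e5 : 1 / (η * |t|) ^ k ≤ 2 / (η * T) ^ k * (1 + (t / T) ^ 2)⁻¹ := by
        have f1 : 1 / (η * |t|) ^ k = 1 / (η * T) ^ k * (T / |t|) ^ k := by
          rw [mul_pow, mul_pow, div_pow]
          field_simp
        have f2 : (T / |t|) ^ k ≤ (T / |t|) ^ 2 :=
          pow_le_pow_of_le_one (by positivity) ((div_le_one htp).2 ht2.le) hk
        have f3 : (T / |t|) ^ 2 ≤ 2 * (1 + (t / T) ^ 2)⁻¹ := by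
          rw [← div_eq_mul_inv, le_div_iff₀ (by positivity), div_pow, sq_abs]
          have f4 : T ^ 2 ≤ t ^ 2 := by
            rw [← sq_abs t]
            exact pow_le_pow_left₀ hTp.le ht2.le 2
          have htt : 0 < t ^ 2 := lt_of_lt_of_le (by positivity) f4
          rw [div_mul_eq_mul_div, div_le_iff₀ htt]
          have f5 : T ^ 2 * (1 + (t / T) ^ 2) = T ^ 2 + t ^ 2 := by
            field_simp
          rw [f5]
          linarith
        rw [f1]
        calc 1 / (η * T) ^ k * (T / |t|) ^ k ≤ 1 / (η * T) ^ k * (2 * (1 + (t / T) ^ 2)⁻¹) :=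
              mul_le_mul_of_nonneg_left (f2.trans f3) (by positivity)
          _ = _ := by ring
      have e6 : ‖g (η * t) - g (η1 * t)‖ * D ≤ 2 * (Ck / (η * |t|) ^ k) * S :=
        mul_le_mul e4 hDS hD (by positivity)
      have e7 : 2 * (Ck / (η * |t|) ^ k) * S = 2 * Ck * S * (1 / (η * |t|) ^ k) := by ring
      have e8 : 2 * Ck * S * (1 / (η * |t|) ^ k) ≤
          2 * Ck * S * (2 / (η * T) ^ k * (1 + (t / T) ^ 2)⁻¹) :=
        mul_le_mul_of_nonneg_left e5 (by positivity)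
      have e9 : 2 * Ck * S * (2 / (η * T) ^ k * (1 + (t / T) ^ 2)⁻¹) =
          4 * Ck * S / (η * T) ^ k * (1 + (t / T) ^ 2)⁻¹ := by ring
      linarith

theorem inv {ψ : ℝ → ℝ} {g : ℝ → ℂ} (h : Bump ψ g) (f : ℕ → ℂ) (N : ℕ) (x η : ℝ) (hη : 0 < η) :
    sw ψ f N x η = ∫ t : ℝ, g (η * t) * DP f N t * ee (-(t * Real.log x)) := by
  have h1 : ∀ n ∈ Icc 1 N, f n * ((ψ ((Real.log n - Real.log x) / η) / η : ℝ) : ℂ) =
      ∫ t : ℝ, g (η * t) * (f n * ee (t * Real.log n)) * ee (-(t * Real.log x)) := by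
    intro n _
    rw [Dif_sub h _ η hη, ← integral_const_mul]
    refine integral_congr_ae (Filter.Eventually.of_forall fun t => ?_)
    simp only
    have h2 : η * t * ((Real.log n - Real.log x) / η) = t * Real.log n + -(t * Real.log x) := by
      field_simp
      ring
    rw [h2, Dif_ee_add]
    ring
  unfold sw
  rw [sum_congr rfl h1, ← integral_finsetSum _ (fun n _ => Dif_int2 h hη _ _ _)]
  refine integral_congr_ae (Filter.Eventually.of_forall fun t => ?_)
  simp only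
  unfold DP
  rw [mul_sum, sum_mul]

theorem dif {ψ : ℝ → ℝ} {g : ℝ → ℂ} (h : Bump ψ g) (k : ℕ) (hk : 2 ≤ k) :
    ∃ C : ℝ, 1 ≤ C ∧ ∀ (f : ℕ → ℂ) (N : ℕ) (x η η1 T0 T : ℝ), 0 < η → η ≤ η1 → 1 ≤ T0 → T0 ≤ T →
      ‖sw ψ f N x η - sw ψ f N x η1‖ ≤ C * (T0 ^ 2 * η1 * ∑ n ∈ Icc 1 N, ‖f n‖
        + (∫ t in {t : ℝ | T0 ≤ |t| ∧ |t| ≤ T}, ‖DP f N t‖)
        + (∑ n ∈ Icc 1 N, ‖f n‖) * T / (η * T) ^ k) := by
  obtain ⟨C0, hC0, h0⟩ := h.gdec 0
  obtain ⟨C1, hC1, h1⟩ := h.glip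
  obtain ⟨Ck, hCk, h2⟩ := h.gdec k
  refine ⟨2 * C1 + 2 * C0 + 16 * Ck, by linarith, fun f N x η η1 T0 T hη hη1 hT0 hT => ?_⟩
  have hη1p : 0 < η1 := by linarith
  have hTp : 0 < T := by linarith
  set S : ℝ := ∑ n ∈ Icc 1 N, ‖f n‖ with hS
  have hS0 : 0 ≤ S := sum_nonneg fun _ _ => norm_nonneg _
  have hgc : Continuous g := h.gcont
  have hDPc : Continuous (DP f N) := dp_cont f N
  have hint : ∀ η' : ℝ, 0 < η' → Integrable (fun t => g (η' * t) * DP f N t * ee (-(t * Real.log x))) := by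
    intro η' hη'
    have hc1 : Continuous (fun t => g (η' * t)) := hgc.comp (continuous_const.mul continuous_id)
    have hc3 : Continuous (fun t : ℝ => ee (-(t * Real.log x))) :=
      Dif_ee_cont.comp (continuous_id.mul continuous_const).neg
    refine ((Dif_int h hη').norm.mul_const S).mono' ((hc1.mul hDPc).mul hc3).aestronglyMeasurable
      (Filter.Eventually.of_forall fun t => ?_)
    rw [norm_mul, norm_mul, Dif_norm_ee, mul_one]
    exact mul_le_mul_of_nonneg_left (dp_norm_le f N t) (norm_nonneg _)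
  have e1 : sw ψ f N x η - sw ψ f N x η1 =
      ∫ t : ℝ, (g (η * t) - g (η1 * t)) * DP f N t * ee (-(t * Real.log x)) := by
    rw [inv h f N x η hη, inv h f N x η1 hη1p, ← integral_sub (hint η hη) (hint η1 hη1p)]
    refine integral_congr_ae (Filter.Eventually.of_forall fun t => ?_)
    simp only
    ring
  set B : Set ℝ := {t : ℝ | T0 ≤ |t| ∧ |t| ≤ T} with hB
  have hBm : MeasurableSet B := by
    have hc : Continuous (fun t : ℝ => |t|) := continuous_abs
    exact (isClosed_le continuous_const hc).measurableSet.inter (isClosed_le hc continuous_const).measurableSet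
  have hBsub : B ⊆ Set.Icc (-T) T := fun t ht => abs_le.1 ht.2
  have hBint : IntegrableOn (fun t => ‖DP f N t‖) B :=
    (hDPc.norm.continuousOn.integrableOn_Icc (a := -T) (b := T)).mono_set hBsub
  obtain ⟨hcau, hcau2⟩ := Dif_cauchy hTp
  -- the majorant
  have i1 : Integrable ((Set.Icc (-T0) T0).indicator (fun _ : ℝ => C1 * T0 * η1 * S)) := by
    refine (integrable_indicator_iff measurableSet_Icc).2 ?_
    exact continuous_const.continuousOn.integrableOn_Icc
  have i2 : Integrable (B.indicator (fun t => 2 * C0 * ‖DP f N t‖)) :=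
    (integrable_indicator_iff hBm).2 (hBint.const_mul _)
  have i3 : Integrable (fun t : ℝ => 4 * Ck * S / (η * T) ^ k * (1 + (t / T) ^ 2)⁻¹) := hcau.const_mul _
  have e2 : ‖sw ψ f N x η - sw ψ f N x η1‖ ≤ ∫ t : ℝ,
      ((Set.Icc (-T0) T0).indicator (fun _ : ℝ => C1 * T0 * η1 * S) t +
        B.indicator (fun t => 2 * C0 * ‖DP f N t‖) t +
        4 * Ck * S / (η * T) ^ k * (1 + (t / T) ^ 2)⁻¹) := by
    rw [e1]
    refine norm_integral_le_of_norm_le ((i1.add i2).add i3) (Filter.Eventually.of_forall fun t => ?_)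
    rw [norm_mul, norm_mul, Dif_norm_ee, mul_one]
    have e3 := Dif_pt hk h0 h1 h2 hC0 hC1 hCk hη hη1 hT0 hT ‖DP f N t‖ S (norm_nonneg _)
      (dp_norm_le f N t) t
    have e4 : B.indicator (fun _ => 2 * C0 * ‖DP f N t‖) t = B.indicator (fun t => 2 * C0 * ‖DP f N t‖) t := by
      by_cases ht : t ∈ B
      · rw [Set.indicator_of_mem ht, Set.indicator_of_mem ht]
      · rw [Set.indicator_of_notMem ht, Set.indicator_of_notMem ht]
    rw [e4] at e3
    exact e3
  have e5 : ∫ t : ℝ,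
      ((Set.Icc (-T0) T0).indicator (fun _ : ℝ => C1 * T0 * η1 * S) t +
        B.indicator (fun t => 2 * C0 * ‖DP f N t‖) t +
        4 * Ck * S / (η * T) ^ k * (1 + (t / T) ^ 2)⁻¹) =
      2 * T0 * (C1 * T0 * η1 * S) + 2 * C0 * (∫ t in B, ‖DP f N t‖) +
        4 * Ck * S / (η * T) ^ k * (T * Real.pi) := by
    have j1 : ∫ t : ℝ, (Set.Icc (-T0) T0).indicator (fun _ : ℝ => C1 * T0 * η1 * S) t =
        2 * T0 * (C1 * T0 * η1 * S) := by
      rw [integral_indicator measurableSet_Icc, setIntegral_const, smul_eq_mul, Real.volume_real_Icc_of_le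
        (by linarith)]
      ring
    have j2 : ∫ t : ℝ, B.indicator (fun t => 2 * C0 * ‖DP f N t‖) t = 2 * C0 * (∫ t in B, ‖DP f N t‖) := by
      rw [integral_indicator hBm, integral_const_mul]
    have i12 : Integrable (fun t : ℝ => (Set.Icc (-T0) T0).indicator (fun _ : ℝ => C1 * T0 * η1 * S) t +
        B.indicator (fun t => 2 * C0 * ‖DP f N t‖) t) := i1.add i2
    rw [integral_add i12 i3, integral_add i1 i2, j1, j2, integral_const_mul, hcau2]
  rw [e5] at e2
  refine e2.trans ?_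
  have hI : 0 ≤ ∫ t in B, ‖DP f N t‖ := integral_nonneg fun _ => norm_nonneg _
  have hpi : Real.pi ≤ 4 := Real.pi_le_four
  have q1 : 4 * Ck * S / (η * T) ^ k * (T * Real.pi) ≤ 16 * Ck * (S * T / (η * T) ^ k) := by
    have q2 : 4 * Ck * S / (η * T) ^ k * (T * Real.pi) = 4 * Real.pi * Ck * (S * T / (η * T) ^ k) := by ring
    rw [q2]
    have q3 : 0 ≤ Ck * (S * T / (η * T) ^ k) := by positivity
    nlinarith
  have q4 : 0 ≤ T0 ^ 2 * η1 * S := by positivity
  have q5 : 0 ≤ S * T / (η * T) ^ k := by positivity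
  have q6 : 2 * T0 * (C1 * T0 * η1 * S) = 2 * C1 * (T0 ^ 2 * η1 * S) := by ring
  rw [q6]
  nlinarith [mul_nonneg (show (0 : ℝ) ≤ C1 by linarith) hI, mul_nonneg (show (0 : ℝ) ≤ C1 by linarith) q5,
    mul_nonneg (show (0 : ℝ) ≤ C0 by linarith) q4, mul_nonneg (show (0 : ℝ) ≤ C0 by linarith) q5,
    mul_nonneg (show (0 : ℝ) ≤ Ck by linarith) q4, mul_nonneg (show (0 : ℝ) ≤ Ck by linarith) hI]

end Pool.Agent.H88.E58
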