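import Pool.Agent.H88.E58.Defs
import Pool.Agent.H91.EHA.SwK1

/-!
# E58 Lg: the long smooth average of `Λ`

`η1 = 1/L^A1`.  `sw` is real and `≥ (1/η1) ∑_{x e^(η1/4) ≤ n ≤ x e^(3η1/4)} Λ(n)` (`nn`, `one`; `x e^(η1) ≤ 200 X`).
`Pool.Agent.H91.EHA.psi_ap 0 (A1 + 2)` with `c = 1`: `|psi(y) - y| ≤ 6X/log^(A1+2)` for `y ≤ 6X`; `x (e^(3η1/4) - e^(η1/4)) ≥ x η1/2`.
-/

set_option autoImplicit false

namespace Pool.Agent.H88.E58

open Finset MeasureTheory
open Pool.Agent.H88.PSI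

private theorem Lg_psiA (y : ℕ) :
    Pool.Agent.H91.EHA.psiA y 1 1 = ∑ n ∈ Icc 1 y, La n := by
  unfold Pool.Agent.H91.EHA.psiA
  rw [filter_true_of_mem (fun n _ => Nat.modEq_one)]
  rfl

private theorem Lg_La_nonneg (n : ℕ) : 0 ≤ La n := ArithmeticFunction.vonMangoldt_nonneg

private theorem Lg_ev (A1 x0 : ℕ) : ∃ X0 : ℕ, ∀ X : ℕ, X0 ≤ X →
    x0 ≤ X ∧ 10 ≤ Real.log X ∧ 8 * Real.log X ^ A1 ≤ X := by
  have h1 := (isLittleO_log_rpow_rpow_atTop (A1 : ℝ) (show (0 : ℝ) < 1 by norm_num)).bound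
    (c := 1 / 8) (by positivity)
  have h2 := (h1.and (Filter.eventually_ge_atTop (1 : ℝ))).and
    (Real.tendsto_log_atTop.eventually_ge_atTop 10)
  have h3 := tendsto_natCast_atTop_atTop (R := ℝ) |>.eventually h2
  obtain ⟨X0, hX0⟩ := Filter.eventually_atTop.1 (h3.and (Filter.eventually_ge_atTop x0))
  refine ⟨X0, fun X hX => ?_⟩
  obtain ⟨⟨⟨h4, h5⟩, h6⟩, h7⟩ := hX0 X hX
  refine ⟨h7, h6, ?_⟩
  rw [Real.rpow_natCast, Real.rpow_one, Real.norm_eq_abs, Real.norm_eq_abs,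
    abs_of_nonneg (by positivity), abs_of_nonneg (by positivity)] at h4
  linarith

private theorem Lg_exp {a b : ℝ} (ha : 0 ≤ a) (hab : a ≤ b) :
    b - a ≤ Real.exp b - Real.exp a := by
  have h1 : Real.exp b = Real.exp a * Real.exp (b - a) := by
    rw [← Real.exp_add]
    congr 1
    ring
  have h2 := Real.add_one_le_exp (b - a)
  have h3 : 1 ≤ Real.exp a := Real.one_le_exp ha
  rw [h1]
  nlinarith

theorem lg58 {ψ : ℝ → ℝ} {g : ℝ → ℂ} (h : Bump ψ g) (A1 : ℕ) (hA1 : 1 ≤ A1) :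
    ∃ X0 : ℕ, ∀ X : ℕ, X0 ≤ X → ∀ x : ℝ, (X : ℝ) ≤ x → x ≤ 2 * X →
      (X : ℝ) / 4 ≤ (sw ψ (cc La) (200 * X) x (1 / Real.log X ^ A1)).re := by
  obtain ⟨x0, hap⟩ := Pool.Agent.H91.EHA.psi_ap 0 (A1 + 2)
  obtain ⟨X0, hX0⟩ := Lg_ev A1 x0
  refine ⟨X0, fun X hX x hx1 hx2 => ?_⟩
  obtain ⟨g1, g2, g3⟩ := hX0 X hX
  obtain ⟨L, hL⟩ : ∃ L, L = Real.log X := ⟨_, rfl⟩
  rw [← hL] at g2 g3 ⊢
  have hL0 : 0 < L := by linarith
  have hLA : 1 ≤ L ^ A1 := one_le_pow₀ (by linarith)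
  have hLA0 : 0 < L ^ A1 := by positivity
  have hXr : (8 : ℝ) ≤ X := by linarith
  have hX1 : 1 ≤ X := by
    have : (1 : ℝ) ≤ X := by linarith
    exact_mod_cast this
  obtain ⟨η, hη⟩ : ∃ η, η = 1 / L ^ A1 := ⟨_, rfl⟩
  rw [← hη]
  have hη0 : 0 < η := by rw [hη]; positivity
  have hη1 : η ≤ 1 := by
    rw [hη, div_le_one hLA0]
    exact hLA
  have hηL : η * L ^ A1 = 1 := by
    rw [hη]
    field_simp
  have hx0 : 0 < x := by linarith
  -- the end points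
  obtain ⟨y1, hy1⟩ : ∃ y1, y1 = ⌊x * Real.exp (η / 4)⌋₊ := ⟨_, rfl⟩
  obtain ⟨y2, hy2⟩ : ∃ y2, y2 = ⌊x * Real.exp (3 * η / 4)⌋₊ := ⟨_, rfl⟩
  have hpos1 : 0 ≤ x * Real.exp (η / 4) := by positivity
  have hpos2 : 0 ≤ x * Real.exp (3 * η / 4) := by positivity
  have f1 : (y1 : ℝ) ≤ x * Real.exp (η / 4) := by rw [hy1]; exact Nat.floor_le hpos1
  have f1' : x * Real.exp (η / 4) < y1 + 1 := by rw [hy1]; exact Nat.lt_floor_add_one _
  have f2 : (y2 : ℝ) ≤ x * Real.exp (3 * η / 4) := by rw [hy2]; exact Nat.floor_le hpos2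
  have f2' : x * Real.exp (3 * η / 4) < y2 + 1 := by rw [hy2]; exact Nat.lt_floor_add_one _
  have hle : y1 ≤ y2 := by
    rw [hy1, hy2]
    apply Nat.floor_le_floor
    apply mul_le_mul_of_nonneg_left _ hx0.le
    apply Real.exp_le_exp.2
    linarith
  have hy26 : y2 ≤ 6 * X := by
    have h1 : Real.exp (3 * η / 4) ≤ 3 := by
      calc Real.exp (3 * η / 4) ≤ Real.exp 1 := Real.exp_le_exp.2 (by linarith)
        _ ≤ 3 := Real.exp_one_lt_d9.le.trans (by norm_num)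
    have h2 : (y2 : ℝ) ≤ 6 * X := by
      calc (y2 : ℝ) ≤ x * Real.exp (3 * η / 4) := f2
        _ ≤ (2 * X) * 3 := mul_le_mul hx2 h1 (Real.exp_pos _).le (by positivity)
        _ = 6 * X := by ring
    exact_mod_cast h2
  -- the real part
  have hre : (sw ψ (cc La) (200 * X) x η).re =
      ∑ n ∈ Icc 1 (200 * X), La n * (ψ ((Real.log n - Real.log x) / η) / η) := by
    unfold sw cc
    rw [Complex.re_sum]
    refine sum_congr rfl fun n _ => ?_
    rw [← Complex.ofReal_mul, Complex.ofReal_re]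
  have hlow : ∑ n ∈ Ioc y1 y2, La n * (1 / η) ≤
      ∑ n ∈ Icc 1 (200 * X), La n * (ψ ((Real.log n - Real.log x) / η) / η) := by
    have hstep : ∑ n ∈ Ioc y1 y2, La n * (1 / η) =
        ∑ n ∈ Ioc y1 y2, La n * (ψ ((Real.log n - Real.log x) / η) / η) := by
      refine sum_congr rfl fun n hn => ?_
      obtain ⟨hn1, hn2⟩ := mem_Ioc.1 hn
      have hn0 : (0 : ℝ) < n := by
        have : 0 < n := by omega
        exact_mod_cast this
      have h1 : x * Real.exp (η / 4) ≤ n := by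
        have : (y1 : ℝ) + 1 ≤ n := by exact_mod_cast hn1
        linarith
      have h2 : (n : ℝ) ≤ x * Real.exp (3 * η / 4) := by
        have : (n : ℝ) ≤ y2 := by exact_mod_cast hn2
        linarith
      have h3 := Real.log_le_log (by positivity) h1
      have h4 := Real.log_le_log hn0 h2
      rw [Real.log_mul hx0.ne' (Real.exp_ne_zero _), Real.log_exp] at h3 h4
      rw [h.one _ (by rw [le_div_iff₀ hη0]; linarith) (by rw [div_le_iff₀ hη0]; linarith)]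
    rw [hstep]
    refine sum_le_sum_of_subset_of_nonneg ?_ ?_
    · intro n hn
      obtain ⟨hn1, hn2⟩ := mem_Ioc.1 hn
      exact mem_Icc.2 ⟨by omega, by omega⟩
    · intro n _ _
      exact mul_nonneg (Lg_La_nonneg n) (div_nonneg (h.nn _) hη0.le)
  -- the prime number theorem
  have hpsi : ∀ y : ℕ, y ≤ 6 * X → |∑ n ∈ Icc 1 y, La n - y| ≤ 6 * X / L ^ (A1 + 2) := by
    intro y hy
    have h1 := hap (6 * X) (by omega) y hy 1 le_rfl (by simp) 1 (Nat.coprime_one_right 1)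
    rw [Lg_psiA, Nat.totient_one, Nat.cast_one, div_one] at h1
    refine h1.trans ?_
    push_cast
    apply div_le_div_of_nonneg_left (by positivity) (by positivity)
    apply pow_le_pow_left₀ hL0.le
    rw [hL]
    apply Real.log_le_log (by linarith)
    linarith
  have hdiff : ∑ n ∈ Ioc y1 y2, La n = ∑ n ∈ Icc 1 y2, La n - ∑ n ∈ Icc 1 y1, La n := by
    have h1 : Icc 1 y2 = Icc 1 y1 ∪ Ioc y1 y2 := by
      ext n
      simp only [mem_union, mem_Icc, mem_Ioc]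
      omega
    have h2 : Disjoint (Icc 1 y1) (Ioc y1 y2) := by
      rw [disjoint_left]
      intro n hn hn'
      rw [mem_Icc] at hn
      rw [mem_Ioc] at hn'
      omega
    rw [h1, sum_union h2]
    ring
  have p1 := abs_le.1 (hpsi y1 (hle.trans hy26))
  have p2 := abs_le.1 (hpsi y2 hy26)
  have hgap : x * Real.exp (η / 4) + X * η / 2 ≤ x * Real.exp (3 * η / 4) := by
    have h1 := Lg_exp (show 0 ≤ η / 4 by linarith) (show η / 4 ≤ 3 * η / 4 by linarith)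
    have h2 : X * (η / 2) ≤ x * (Real.exp (3 * η / 4) - Real.exp (η / 4)) :=
      mul_le_mul hx1 (by linarith) (by positivity) hx0.le
    linarith
  have hsum : X * η / 2 - 1 - 2 * (6 * X / L ^ (A1 + 2)) ≤ ∑ n ∈ Ioc y1 y2, La n := by
    rw [hdiff]
    linarith [p1.2, p2.1]
  rw [hre]
  refine le_trans ?_ hlow
  rw [← sum_mul, mul_one_div, le_div_iff₀ hη0]
  refine le_trans ?_ hsum
  have h1 : 1 ≤ X * η / 8 := by
    have h2 : 8 * L ^ A1 * η ≤ X * η := mul_le_mul_of_nonneg_right g3 hη0.le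
    linarith
  have h2 : 2 * (6 * X / L ^ (A1 + 2)) ≤ X * η / 8 := by
    have h3 : 2 * (6 * X / L ^ (A1 + 2)) = X * η * (12 / L ^ 2) := by
      rw [hη, pow_add]
      field_simp
      norm_num
    rw [h3]
    have h4 : 12 / L ^ 2 ≤ 1 / 8 := by
      rw [div_le_div_iff₀ (by positivity) (by norm_num)]
      nlinarith
    have h5 : 0 ≤ X * η := by positivity
    nlinarith
  linarith

end Pool.Agent.H88.E58
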