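import Pool.Agent.H88.E58.Defs
import Pool.Agent.H88.PSI.Pw

/-!
# E58 Ty: terms of type I

`F = 1` (`k = 0`) or `log` (`k = 1`); `f = hi k Y * a`; `η1 = 1/L^A1`; write `sw` as a double sum over `m k' ≤ 200 X`, `k' ≥ Y` (the terms with `m k' ≥ x e^η` vanish).
(a) `m ≤ x/Y`: all `k'` of the window `(x/m, x e^η/m)` are `≥ Y`.  `S_m = (1/η) ∑_{k'} F(k') ψ((log k' + log m - log x)/η)` is compared with
`I_m = (1/η) ∫ F(u) ψ((log u + log m - log x)/η) du = (x/m) ∫_0^1 F((x/m) e^(ηv)) ψ(v) e^(ηv) dv`.  The integrand is Lipschitz in `u ≥ x/(2m)` with constant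
`≤ C log(3X) m/(η^2 x)` and the window has length `≤ 2 η x/m`, `η x/m ≥ 1`: `|S_m - I_m| ≤ C log(3X)/η` (sum over the unit intervals meeting the window).
Total over `m`: `≤ C log(3X)/η ∑_{m ≤ x/Y} |a m| ≤ X^(3/8 + 13/24 + 1/100)`, for both `η` and `η1` (if `η1` is shorter than wanted nothing changes).
(b) `|I_m(η) - I_m(η1)| ≤ C (x/m) L η1`; total `≤ C x L η1 ∑ |a m|/m ≤ X L^(C' - A1)` (`tau_momd`).
(c) `x/Y < m < x e^η/Y`: for `η` all is bounded by `X^(1/100) (1/η) (2ηx/Y + 1)(2ηY + 1) ≤ X^(4/5)`; for `η1`: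
`∑ |a m| ≤ (2 η1 x/Y + 1)^(1/2) (∑_{m ≤ 3x/Y} |a m|^2)^(1/2) ≤ η1^(1/2) (X/Y) L^C` (Cauchy, `tau_mom`), times `(1/η1) log(3X) (2 η1 Y + 1)`.
-/

set_option autoImplicit false

namespace Pool.Agent.H88.E58

open Finset MeasureTheory
open Pool.Agent.H88.PSI

/-- Riemann sums of a Lipschitz bump -/
private theorem Ty_riemann {ψ : ℝ → ℝ} {C : ℝ} (hC : 1 ≤ C)
    (hlip : ∀ u v, |ψ u - ψ v| ≤ C * |u - v|)
    (hsupp : ∀ v, ψ v ≠ 0 → 0 < v ∧ v < 1) (v : ℕ → ℝ) (j0 j1 : ℕ) (hj : j0 ≤ j1) (δ : ℝ)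
    (hmono : ∀ j ∈ Ico j0 j1, v j ≤ v (j + 1)) (hgap : ∀ j ∈ Ico j0 j1, v (j + 1) - v j ≤ δ)
    (h0 : v j0 ≤ 0) (h1 : 1 ≤ v j1) :
    |∑ j ∈ Ico j0 j1, ψ (v j) * (v (j + 1) - v j) - ∫ t : ℝ, ψ t| ≤ C * δ * (v j1 - v j0) := by
  have hcont : Continuous ψ := by
    have : LipschitzWith C.toNNReal ψ := by
      apply LipschitzWith.of_dist_le_mul
      intro x y
      rw [Real.dist_eq, Real.dist_eq, Real.coe_toNNReal _ (by linarith)]
      exact hlip x y
    exact this.continuous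
  have hint : ∀ a b : ℝ, IntervalIntegrable ψ volume a b := fun a b => hcont.intervalIntegrable a b
  have e1 : ∫ t : ℝ, ψ t = ∫ t in (v j0)..(v j1), ψ t := by
    symm
    apply intervalIntegral.integral_eq_integral_of_support_subset
    intro t ht
    have := hsupp t ht
    exact ⟨by linarith, by linarith⟩
  have e2 : ∫ t in (v j0)..(v j1), ψ t = ∑ j ∈ Ico j0 j1, ∫ t in (v j)..(v (j + 1)), ψ t := by
    rw [intervalIntegral.sum_integral_adjacent_intervals_Ico hj]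
    intro k _
    exact hint _ _
  have e3 : v j1 - v j0 = ∑ j ∈ Ico j0 j1, (v (j + 1) - v j) := by
    rw [Finset.sum_Ico_sub _ hj]
  rw [e1, e2, e3, ← Finset.sum_sub_distrib, Finset.mul_sum]
  refine (Finset.abs_sum_le_sum_abs _ _).trans (Finset.sum_le_sum fun j hjm => ?_)
  have hm := hmono j hjm
  have hg := hgap j hjm
  have e4 : ψ (v j) * (v (j + 1) - v j) - ∫ t in (v j)..(v (j + 1)), ψ t =
      ∫ t in (v j)..(v (j + 1)), (ψ (v j) - ψ t) := by
    rw [intervalIntegral.integral_sub (by simp) (hint _ _)]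
    simp [mul_comm]
  rw [e4]
  have h5 : ‖∫ t in (v j)..(v (j + 1)), (ψ (v j) - ψ t)‖ ≤ C * δ * |v (j + 1) - v j| := by
    apply intervalIntegral.norm_integral_le_of_norm_le_const
    intro t ht
    rw [Set.uIoc_of_le hm] at ht
    rw [Real.norm_eq_abs]
    refine (hlip _ _).trans ?_
    have : |v j - t| ≤ δ := by
      rw [abs_le]
      constructor <;> linarith [ht.1, ht.2]
    exact mul_le_mul_of_nonneg_left this (by linarith)
  rw [Real.norm_eq_abs, abs_of_nonneg (sub_nonneg.2 hm)] at h5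
  exact h5

/-- `F = 1` or `F = log` -/
private noncomputable def Ty_F (k : Fin 3) (u : ℝ) : ℝ := if k = 0 then 1 else Real.log u

private theorem Ty_F_mono {k : Fin 3} {u w : ℝ} (hu : 0 < u) (h : u ≤ w) : Ty_F k u ≤ Ty_F k w := by
  unfold Ty_F
  split_ifs
  · exact le_rfl
  · exact Real.log_le_log hu h

private theorem Ty_F_nonneg {k : Fin 3} {u : ℝ} (hu : 1 ≤ u) : 0 ≤ Ty_F k u := by
  unfold Ty_F
  split_ifs
  · exact zero_le_one
  · exact Real.log_nonneg hu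

private theorem Ty_F_le {k : Fin 3} {u : ℝ} (hu : 1 ≤ u) : Ty_F k u ≤ 1 + Real.log u := by
  unfold Ty_F
  split_ifs
  · linarith [Real.log_nonneg hu]
  · linarith

private theorem Ty_F_add {k : Fin 3} {b u η : ℝ} (hη : 0 ≤ η)
    (h : Real.log u ≤ Real.log b + η) : Ty_F k u ≤ Ty_F k b + η := by
  unfold Ty_F
  split_ifs
  · linarith
  · exact h

private theorem Ty_exp_le {η : ℝ} (h0 : 0 ≤ η) (h1 : η ≤ 1) : Real.exp η ≤ 1 + 2 * η := by
  have h2 := Real.abs_exp_sub_one_le (x := η) (by rw [abs_of_nonneg h0]; exact h1)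
  rw [abs_of_nonneg h0, abs_le] at h2
  linarith [h2.2]

/-- bounds for `log (j + 1) - log j` -/
private theorem Ty_log_succ {j : ℝ} (hj : 0 < j) :
    1 / (j + 1) ≤ Real.log (j + 1) - Real.log j ∧ Real.log (j + 1) - Real.log j ≤ 1 / j := by
  have hj1 : 0 < j + 1 := by linarith
  constructor
  · have h := Real.log_le_sub_one_of_pos (x := j / (j + 1)) (by positivity)
    rw [Real.log_div hj.ne' hj1.ne'] at h
    have e : j / (j + 1) - 1 = -(1 / (j + 1)) := by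
      field_simp
      ring
    linarith
  · have h := Real.log_le_sub_one_of_pos (x := (j + 1) / j) (by positivity)
    rw [Real.log_div hj1.ne' hj.ne'] at h
    have e : (j + 1) / j - 1 = 1 / j := by
      field_simp
      ring
    linarith

/-- the sum over all integers -/
private theorem Ty_full {ψ : ℝ → ℝ} {C : ℝ} (hC : 1 ≤ C)
    (hlip : ∀ u v, |ψ u - ψ v| ≤ C * |u - v|) (hnn : ∀ v, 0 ≤ ψ v) (hle : ∀ v, ψ v ≤ 1)
    (hsupp : ∀ v, ψ v ≠ 0 → 0 < v ∧ v < 1) (k : Fin 3) {b η : ℝ} (hb : 1 ≤ b) (hη0 : 0 < η)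
    (hη1 : η ≤ 1) (hbη : 2 ≤ b * η) {N : ℕ} (hN : b * Real.exp η ≤ N) :
    |∑ j ∈ Icc 1 N, Ty_F k j * (ψ ((Real.log j - Real.log b) / η) / η) -
      (∫ t : ℝ, ψ t) * (b * Ty_F k b)| ≤ (18 + 6 * C) * (1 + Real.log b) * (η * b + 1 / η) := by
  have hb0 : 0 < b := by linarith
  have hlb : 0 ≤ Real.log b := Real.log_nonneg hb
  set v : ℕ → ℝ := fun j => (Real.log j - Real.log b) / η with hv
  set j0 : ℕ := ⌊b⌋₊ with hj0
  set j1 : ℕ := ⌈b * Real.exp η⌉₊ with hj1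
  have hj0pos : 1 ≤ j0 := by
    rw [hj0, Nat.one_le_floor_iff]
    exact hb
  have hj0r : (1 : ℝ) ≤ j0 := by exact_mod_cast hj0pos
  have hj0le : (j0 : ℝ) ≤ b := Nat.floor_le hb0.le
  have hj0lt : b < (j0 : ℝ) + 1 := Nat.lt_floor_add_one b
  have hj0half : b / 2 ≤ j0 := by linarith
  have hexp1 : 1 ≤ Real.exp η := Real.one_le_exp hη0.le
  have hbe : b ≤ b * Real.exp η := by nlinarith
  have hj1le : b * Real.exp η ≤ j1 := Nat.le_ceil _
  have hj1lt : (j1 : ℝ) < b * Real.exp η + 1 := Nat.ceil_lt_add_one (by positivity)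
  have hj01 : j0 ≤ j1 := by
    have : (j0 : ℝ) ≤ j1 := by linarith
    exact_mod_cast this
  have hbe0 : 0 < b * Real.exp η := by positivity
  have hlogbe : Real.log (b * Real.exp η) = Real.log b + η := by
    rw [Real.log_mul hb0.ne' (Real.exp_pos _).ne', Real.log_exp]
  set δ : ℝ := 2 / (b * η) with hδ
  have hbη0 : 0 < b * η := by positivity
  have hδ0 : 0 < δ := by positivity
  have hδ1 : δ ≤ 1 := by
    rw [hδ, div_le_one hbη0]
    exact hbη
  have hgapv : ∀ j : ℕ, v (j + 1) - v j = (Real.log ((j : ℝ) + 1) - Real.log j) / η := by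
    intro j
    simp only [hv]
    push_cast
    ring
  have hjpos : ∀ j ∈ Ico j0 j1, (0 : ℝ) < j ∧ b / 2 ≤ j := by
    intro j hj
    have h1 : (j0 : ℝ) ≤ j := by exact_mod_cast (mem_Ico.1 hj).1
    exact ⟨by linarith, by linarith⟩
  have hsm : ∀ j : ℝ, 0 < j → b / 2 ≤ j → (1 / j) / η ≤ δ := by
    intro j hj hj2
    rw [hδ, div_div, div_le_div_iff₀ (by positivity) hbη0]
    nlinarith
  have hmono : ∀ j ∈ Ico j0 j1, v j ≤ v (j + 1) := by
    intro j hj
    have h1 := hgapv j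
    have h2 := (Ty_log_succ (hjpos j hj).1).1
    have h3 : 0 ≤ (Real.log ((j : ℝ) + 1) - Real.log j) / η := by
      apply div_nonneg _ hη0.le
      have : 0 < 1 / ((j : ℝ) + 1) := by
        have := (hjpos j hj).1
        positivity
      linarith
    linarith
  have hgap : ∀ j ∈ Ico j0 j1, v (j + 1) - v j ≤ δ := by
    intro j hj
    rw [hgapv j]
    obtain ⟨hp, hq⟩ := hjpos j hj
    exact (div_le_div_of_nonneg_right (Ty_log_succ hp).2 hη0.le).trans (hsm j hp hq)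
  have h0 : v j0 ≤ 0 := by
    simp only [hv]
    apply div_nonpos_of_nonpos_of_nonneg _ hη0.le
    have := Real.log_le_log (by linarith) hj0le
    linarith
  have h0' : -δ ≤ v j0 := by
    simp only [hv]
    have h1 : Real.log b ≤ Real.log ((j0 : ℝ) + 1) := Real.log_le_log hb0 hj0lt.le
    have h2 := (Ty_log_succ (j := (j0 : ℝ)) (by linarith)).2
    have h3 := hsm j0 (by linarith) hj0half
    have h4 : -((1 / (j0 : ℝ)) / η) ≤ (Real.log j0 - Real.log b) / η := by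
      rw [← neg_div]
      exact div_le_div_of_nonneg_right (by linarith) hη0.le
    linarith
  have h1 : 1 ≤ v j1 := by
    simp only [hv]
    rw [le_div_iff₀ hη0]
    have := Real.log_le_log hbe0 hj1le
    rw [hlogbe] at this
    linarith
  have h1' : v j1 ≤ 1 + δ := by
    simp only [hv]
    have hj1pos : (0 : ℝ) < j1 := by linarith
    have g1 : Real.log j1 ≤ Real.log (b * Real.exp η + 1) := Real.log_le_log hj1pos hj1lt.le
    have g2 := (Ty_log_succ hbe0).2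
    rw [hlogbe] at g2
    have g3 : 1 / (b * Real.exp η) ≤ 1 / b := one_div_le_one_div_of_le hb0 hbe
    have g4 := hsm b hb0 (by linarith)
    have g5 : (Real.log j1 - Real.log b) / η ≤ (η + 1 / b) / η :=
      div_le_div_of_nonneg_right (by linarith) hη0.le
    have g6 : (η + 1 / b) / η = 1 + (1 / b) / η := by
      rw [add_div, div_self hη0.ne']
    linarith
  have hlen : v j1 - v j0 ≤ 3 := by linarith
  have hlen0 : 0 ≤ v j1 - v j0 := by linarith
  have hR := Ty_riemann hC hlip hsupp v j0 j1 hj01 δ hmono hgap h0 h1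
  set R : ℝ := ∑ j ∈ Ico j0 j1, ψ (v j) * (v (j + 1) - v j) with hRdef
  -- the support
  have hsup : ∀ j : ℕ, 1 ≤ j → ψ (v j) ≠ 0 → b < j ∧ (j : ℝ) < b * Real.exp η := by
    intro j hj hne
    obtain ⟨p, q⟩ := hsupp _ hne
    have hjr : (0 : ℝ) < j := by exact_mod_cast hj
    simp only [hv] at p q
    rw [lt_div_iff₀ hη0, zero_mul] at p
    rw [div_lt_iff₀ hη0, one_mul] at q
    constructor
    · exact (Real.log_lt_log_iff hb0 hjr).1 (by linarith)
    · rw [← Real.log_lt_log_iff hjr hbe0, hlogbe]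
      linarith
  have hsum : ∑ j ∈ Icc 1 N, Ty_F k j * (ψ ((Real.log j - Real.log b) / η) / η) =
      ∑ j ∈ Ico j0 j1, Ty_F k j * (ψ (v j) / η) := by
    have a1 : ∑ j ∈ Icc 1 N ∩ Ico j0 j1, Ty_F k j * (ψ (v j) / η) =
        ∑ j ∈ Icc 1 N, Ty_F k j * (ψ (v j) / η) := by
      apply Finset.sum_subset Finset.inter_subset_left
      intro j hj hj'
      by_contra hne
      have hψ : ψ (v j) ≠ 0 := by
        intro h
        apply hne
        rw [h, zero_div, mul_zero]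
      have hj1' := (mem_Icc.1 hj).1
      obtain ⟨p, q⟩ := hsup j hj1' hψ
      apply hj'
      rw [mem_inter, mem_Ico]
      refine ⟨hj, ?_, ?_⟩
      · have : (j0 : ℝ) ≤ j := by linarith
        exact_mod_cast this
      · have : (j : ℝ) < j1 := by linarith
        exact_mod_cast this
    have a2 : ∑ j ∈ Icc 1 N ∩ Ico j0 j1, Ty_F k j * (ψ (v j) / η) =
        ∑ j ∈ Ico j0 j1, Ty_F k j * (ψ (v j) / η) := by
      apply Finset.sum_subset Finset.inter_subset_right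
      intro j hj hj'
      by_contra hne
      have hψ : ψ (v j) ≠ 0 := by
        intro h
        apply hne
        rw [h, zero_div, mul_zero]
      have hj1' : 1 ≤ j := hj0pos.trans (mem_Ico.1 hj).1
      obtain ⟨p, q⟩ := hsup j hj1' hψ
      apply hj'
      rw [mem_inter, mem_Icc]
      refine ⟨⟨hj1', ?_⟩, hj⟩
      have : (j : ℝ) ≤ N := by linarith
      exact_mod_cast this
    rw [← a2, a1]
  have hFb : Ty_F k b ≤ 1 + Real.log b := Ty_F_le hb
  have hFb0 : 0 ≤ Ty_F k b := Ty_F_nonneg hb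
  set E : ℝ := 6 * (η * b + 1) * (1 + Real.log b) with hE
  have hE0 : 0 ≤ E := by positivity
  -- comparison with the main term
  have hcomp : |∑ j ∈ Ico j0 j1, Ty_F k j * (ψ (v j) / η) - b * Ty_F k b * R| ≤
      E * (v j1 - v j0) := by
    rw [hRdef, Finset.mul_sum, ← Finset.sum_sub_distrib, ← Finset.sum_Ico_sub _ hj01,
      Finset.mul_sum]
    refine (Finset.abs_sum_le_sum_abs _ _).trans (Finset.sum_le_sum fun j hj => ?_)
    obtain ⟨hp, hq⟩ := hjpos j hj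
    have hm : 0 ≤ v (j + 1) - v j := sub_nonneg.2 (hmono j hj)
    by_cases hψ : ψ (v j) = 0
    · rw [hψ]
      simp only [zero_div, mul_zero, zero_mul, sub_zero, abs_zero]
      exact mul_nonneg hE0 hm
    · have hj1' : 1 ≤ j := hj0pos.trans (mem_Ico.1 hj).1
      obtain ⟨p, q⟩ := hsup j hj1' hψ
      obtain ⟨l1, l2⟩ := Ty_log_succ hp
      set ℓ : ℝ := Real.log ((j : ℝ) + 1) - Real.log j with hℓ
      have hℓ0 : 0 < ℓ := lt_of_lt_of_le (by positivity) l1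
      have e1 : Ty_F k j * (ψ (v j) / η) - b * Ty_F k b * (ψ (v j) * (v (j + 1) - v j)) =
          (Ty_F k j / ℓ - b * Ty_F k b) * (ψ (v j) * (v (j + 1) - v j)) := by
        rw [hgapv j, ← hℓ]
        field_simp
      rw [e1, abs_mul, abs_of_nonneg (mul_nonneg (hnn _) hm)]
      have hj1r : (1 : ℝ) ≤ j := by exact_mod_cast hj1'
      have hFj0 : 0 ≤ Ty_F k j := Ty_F_nonneg hj1r
      have g1 : b * Ty_F k b ≤ Ty_F k j / ℓ := by
        rw [le_div_iff₀ hℓ0]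
        have i1 : Ty_F k b ≤ Ty_F k j := Ty_F_mono hb0 p.le
        have i2 : b * ℓ ≤ 1 := by
          calc b * ℓ ≤ j * (1 / j) := mul_le_mul p.le l2 hℓ0.le hp.le
            _ = 1 := by field_simp
        calc b * Ty_F k b * ℓ = (b * ℓ) * Ty_F k b := by ring
          _ ≤ 1 * Ty_F k b := mul_le_mul_of_nonneg_right i2 hFb0
          _ ≤ Ty_F k j := by linarith
      have g2 : Ty_F k j / ℓ ≤ (j + 1) * Ty_F k j := by
        rw [div_le_iff₀ hℓ0]
        have i1 : 1 ≤ ((j : ℝ) + 1) * ℓ := by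
          have := mul_le_mul_of_nonneg_left l1 (show (0 : ℝ) ≤ (j : ℝ) + 1 by linarith)
          rwa [mul_one_div_cancel (by linarith)] at this
        nlinarith
      have g3 : Ty_F k j ≤ Ty_F k b + η := by
        apply Ty_F_add hη0.le
        rw [← hlogbe]
        exact Real.log_le_log hp q.le
      have g4 : (j : ℝ) ≤ b * (1 + 2 * η) :=
        q.le.trans (mul_le_mul_of_nonneg_left (Ty_exp_le hη0.le hη1) hb0.le)
      have g5 : ((j : ℝ) + 1) * Ty_F k j ≤ (b * (1 + 2 * η) + 1) * (Ty_F k b + η) :=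
        mul_le_mul (by linarith) g3 hFj0 (by positivity)
      have g6 : (b * (1 + 2 * η) + 1) * (Ty_F k b + η) - b * Ty_F k b ≤ E := by
        have i1 : (b * (1 + 2 * η) + 1) * (Ty_F k b + η) - b * Ty_F k b =
            (2 * (η * b) + 1) * Ty_F k b + η * (b + 2 * (η * b) + 1) := by ring
        have i2 : (2 * (η * b) + 1) * Ty_F k b ≤ (2 * (η * b) + 1) * (1 + Real.log b) :=
          mul_le_mul_of_nonneg_left hFb (by positivity)
        have i3 : η * (b + 2 * (η * b) + 1) ≤ η * (4 * b) := by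
          apply mul_le_mul_of_nonneg_left _ hη0.le
          nlinarith
        have i4 : η * (4 * b) ≤ 4 * (η * b) * (1 + Real.log b) := by
          have : 0 ≤ (η * b) * Real.log b := by positivity
          nlinarith
        rw [i1, hE]
        nlinarith [mul_nonneg (show (0 : ℝ) ≤ η * b by positivity) hlb]
      have g7 : |Ty_F k j / ℓ - b * Ty_F k b| ≤ E := by
        rw [abs_of_nonneg (by linarith)]
        linarith
      calc |Ty_F k j / ℓ - b * Ty_F k b| * (ψ (v j) * (v (j + 1) - v j))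
          ≤ E * (1 * (v (j + 1) - v j)) :=
            mul_le_mul g7 (mul_le_mul_of_nonneg_right (hle _) hm)
              (mul_nonneg (hnn _) hm) hE0
        _ = E * (v (j + 1) - v j) := by ring
  have hlast : |b * Ty_F k b * R - (∫ t : ℝ, ψ t) * (b * Ty_F k b)| ≤
      b * (1 + Real.log b) * (C * δ * 3) := by
    have e1 : b * Ty_F k b * R - (∫ t : ℝ, ψ t) * (b * Ty_F k b) =
        b * Ty_F k b * (R - ∫ t : ℝ, ψ t) := by ring
    rw [e1, abs_mul, abs_of_nonneg (mul_nonneg hb0.le hFb0)]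
    have hCδ : 0 ≤ C * δ := mul_nonneg (by linarith) hδ0.le
    exact mul_le_mul (mul_le_mul_of_nonneg_left hFb hb0.le)
      (hR.trans (mul_le_mul_of_nonneg_left hlen hCδ)) (abs_nonneg _) (by positivity)
  rw [hsum]
  have htri := abs_sub_le (∑ j ∈ Ico j0 j1, Ty_F k j * (ψ (v j) / η)) (b * Ty_F k b * R)
    ((∫ t : ℝ, ψ t) * (b * Ty_F k b))
  have hfin1 : E * (v j1 - v j0) ≤ E * 3 := mul_le_mul_of_nonneg_left hlen hE0
  have hfin2 : b * (1 + Real.log b) * (C * δ * 3) = (1 + Real.log b) * (6 * C * (1 / η)) := by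
    rw [hδ]
    field_simp
    ring
  have hη' : 1 ≤ 1 / η := by
    rw [le_div_iff₀ hη0]
    linarith
  have hfin3 : E * 3 + (1 + Real.log b) * (6 * C * (1 / η)) ≤
      (18 + 6 * C) * (1 + Real.log b) * (η * b + 1 / η) := by
    have e1 : E * 3 + (1 + Real.log b) * (6 * C * (1 / η)) =
        (1 + Real.log b) * (18 * (η * b) + 18 + 6 * C * (1 / η)) := by
      rw [hE]
      ring
    have e2 : (18 + 6 * C) * (1 + Real.log b) * (η * b + 1 / η) =
        (1 + Real.log b) * ((18 + 6 * C) * (η * b + 1 / η)) := by ring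
    rw [e1, e2]
    apply mul_le_mul_of_nonneg_left _ (by linarith)
    have : 0 ≤ C * (η * b) := by positivity
    nlinarith
  linarith

/-- sums of a convolution -/
private theorem Ty_conv (f g : ArithmeticFunction ℝ) (w : ℕ → ℝ) (N : ℕ)
    (hw : ∀ n, N < n → w n = 0) :
    ∑ n ∈ Icc 1 N, (f * g) n * w n =
      ∑ m ∈ Icc 1 N, g m * ∑ p ∈ Icc 1 N, f p * w (p * m) := by
  classical
  set T : ℕ × ℕ → ℝ := fun x => f x.1 * g x.2 * w (x.1 * x.2) with hT
  have h1 : ∑ m ∈ Icc 1 N, g m * ∑ p ∈ Icc 1 N, f p * w (p * m) =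
      ∑ x ∈ Icc 1 N ×ˢ Icc 1 N, T x := by
    rw [sum_product_right]
    refine sum_congr rfl fun m _ => ?_
    rw [mul_sum]
    refine sum_congr rfl fun p _ => ?_
    simp only [hT]
    ring
  have h2 : ∑ x ∈ Icc 1 N ×ˢ Icc 1 N, T x =
      ∑ x ∈ (Icc 1 N ×ˢ Icc 1 N).filter (fun x => x.1 * x.2 ∈ Icc 1 N), T x := by
    rw [sum_filter_of_ne]
    intro x hx hne
    rw [mem_product, mem_Icc, mem_Icc] at hx
    rw [mem_Icc]
    refine ⟨Nat.mul_pos hx.1.1 hx.2.1, ?_⟩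
    by_contra hlt
    apply hne
    simp only [hT]
    rw [hw _ (by omega), mul_zero]
  rw [h1, h2, ← sum_fiberwise_of_maps_to (t := Icc 1 N) (g := fun x : ℕ × ℕ => x.1 * x.2)
    (fun x hx => (mem_filter.1 hx).2)]
  refine sum_congr rfl fun n hn => ?_
  have hn' := mem_Icc.1 hn
  have e1 : ((Icc 1 N ×ˢ Icc 1 N).filter (fun x : ℕ × ℕ => x.1 * x.2 ∈ Icc 1 N)).filter
      (fun x => x.1 * x.2 = n) = n.divisorsAntidiagonal := by
    ext x
    rw [mem_filter, mem_filter, mem_product, mem_Icc, mem_Icc, Nat.mem_divisorsAntidiagonal]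
    constructor
    · rintro ⟨_, h⟩
      exact ⟨h, by omega⟩
    · rintro ⟨h, _⟩
      have hp1 : 1 ≤ x.1 := Nat.one_le_iff_ne_zero.2 (by rintro h0; rw [h0, zero_mul] at h; omega)
      have hp2 : 1 ≤ x.2 := Nat.one_le_iff_ne_zero.2 (by rintro h0; rw [h0, mul_zero] at h; omega)
      have h3 : x.1 ≤ n := h ▸ Nat.le_mul_of_pos_right _ hp2
      have h4 : x.2 ≤ n := h ▸ Nat.le_mul_of_pos_left _ hp1
      exact ⟨⟨⟨⟨hp1, by omega⟩, ⟨hp2, by omega⟩⟩, h ▸ hn⟩, h⟩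
  rw [e1, ArithmeticFunction.mul_apply, sum_mul]
  refine sum_congr rfl fun x hx => ?_
  simp only [hT]
  rw [(Nat.mem_divisorsAntidiagonal.1 hx).1]

/-- the weight -/
private noncomputable def Ty_w (ψ : ℝ → ℝ) (x η : ℝ) (n : ℕ) : ℝ := ψ ((Real.log n - Real.log x) / η) / η

private theorem Ty_w_supp {ψ : ℝ → ℝ} (hsupp : ∀ v, ψ v ≠ 0 → 0 < v ∧ v < 1) {x η : ℝ} (hx : 0 < x)
    (hη : 0 < η) {n : ℕ} (hn : 1 ≤ n) (h : Ty_w ψ x η n ≠ 0) : x < n ∧ (n : ℝ) < x * Real.exp η := by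
  unfold Ty_w at h
  have hψ : ψ ((Real.log n - Real.log x) / η) ≠ 0 := by
    intro h0
    apply h
    rw [h0, zero_div]
  obtain ⟨p, q⟩ := hsupp _ hψ
  have hnr : (0 : ℝ) < n := by exact_mod_cast hn
  rw [lt_div_iff₀ hη, zero_mul] at p
  rw [div_lt_iff₀ hη, one_mul] at q
  constructor
  · exact (Real.log_lt_log_iff hx hnr).1 (by linarith)
  · rw [← Real.log_lt_log_iff hnr (by positivity), Real.log_mul hx.ne' (Real.exp_pos _).ne',
      Real.log_exp]
    linarith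

private theorem Ty_hi {k : Fin 3} (hk : k ≠ 2) (Y p : ℕ) (hp : 1 ≤ p) :
    hi k Y p = if Y ≤ p then Ty_F k p else 0 := by
  show (if p ≠ 0 ∧ Y ≤ p then kf k p else 0) = _
  have hp0 : p ≠ 0 := by omega
  simp only [hp0, ne_eq, not_false_eq_true, true_and]
  split_ifs
  · unfold kf Ty_F
    fin_cases k
    · simp
    · simp
    · exact absurd rfl hk
  · rfl

/-- the sum over the smooth variable -/
private noncomputable def Ty_S (ψ : ℝ → ℝ) (k : Fin 3) (Y N : ℕ) (x η : ℝ) (m : ℕ) : ℝ :=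
  ∑ p ∈ Icc 1 N, hi k Y p * Ty_w ψ x η (p * m)

private theorem Ty_S_zero {ψ : ℝ → ℝ} (hsupp : ∀ v, ψ v ≠ 0 → 0 < v ∧ v < 1) {k : Fin 3} (hk : k ≠ 2)
    {Y N : ℕ} (hY : 1 ≤ Y) {x η : ℝ} (hx : 0 < x) (hη : 0 < η) {m : ℕ} (hm : 1 ≤ m)
    (h : x * Real.exp η / Y < m) : Ty_S ψ k Y N x η m = 0 := by
  unfold Ty_S
  refine sum_eq_zero fun p hp => ?_
  have hp1 := (mem_Icc.1 hp).1
  rw [Ty_hi hk Y p hp1]
  split_ifs with hYp
  · have hw : Ty_w ψ x η (p * m) = 0 := by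
      by_contra hne
      have h1 := (Ty_w_supp hsupp hx hη (Nat.mul_pos hp1 hm) hne).2
      push_cast at h1
      have hYr : (0 : ℝ) < Y := by exact_mod_cast hY
      rw [div_lt_iff₀ hYr] at h
      have hYp' : (Y : ℝ) ≤ p := by exact_mod_cast hYp
      have hmr : (0 : ℝ) < m := by exact_mod_cast hm
      nlinarith
    rw [hw, mul_zero]
  · rw [zero_mul]

private theorem Ty_S_small {ψ : ℝ → ℝ} {C : ℝ} (hC : 1 ≤ C)
    (hlip : ∀ u v, |ψ u - ψ v| ≤ C * |u - v|) (hnn : ∀ v, 0 ≤ ψ v) (hle : ∀ v, ψ v ≤ 1)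
    (hsupp : ∀ v, ψ v ≠ 0 → 0 < v ∧ v < 1) {k : Fin 3} (hk : k ≠ 2) {Y N : ℕ} (hY : 1 ≤ Y)
    {x η : ℝ} (hx : 0 < x) (hη0 : 0 < η) (hη1 : η ≤ 1) (hYη : 2 ≤ Y * η) {m : ℕ} (hm : 1 ≤ m)
    (hmY : (m : ℝ) * Y ≤ x) (hN : x * Real.exp η ≤ N) :
    |Ty_S ψ k Y N x η m - (∫ t : ℝ, ψ t) * ((x / m) * Ty_F k (x / m))| ≤
      (18 + 6 * C) * (1 + Real.log (x / m)) * (η * (x / m) + 1 / η) := by
  have hmr : (1 : ℝ) ≤ m := by exact_mod_cast hm
  have hm0 : (0 : ℝ) < m := by linarith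
  have hYr : (1 : ℝ) ≤ Y := by exact_mod_cast hY
  have hb : (Y : ℝ) ≤ x / m := by
    rw [le_div_iff₀ hm0]
    linarith
  have hbη : 2 ≤ x / m * η := hYη.trans (mul_le_mul_of_nonneg_right hb hη0.le)
  have hN' : x / m * Real.exp η ≤ N := by
    refine le_trans (mul_le_mul_of_nonneg_right (div_le_self hx.le hmr) (Real.exp_pos _).le) hN
  have h := Ty_full hC hlip hnn hle hsupp k (hYr.trans hb) hη0 hη1 hbη hN'
  have e : Ty_S ψ k Y N x η m =
      ∑ j ∈ Icc 1 N, Ty_F k j * (ψ ((Real.log j - Real.log (x / m)) / η) / η) := by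
    unfold Ty_S
    refine sum_congr rfl fun p hp => ?_
    have hp1 := (mem_Icc.1 hp).1
    have hpr : (0 : ℝ) < p := by exact_mod_cast hp1
    have earg : (Real.log p - Real.log (x / m)) / η =
        (Real.log ((p * m : ℕ) : ℝ) - Real.log x) / η := by
      push_cast
      rw [Real.log_mul hpr.ne' hm0.ne', Real.log_div hx.ne' hm0.ne']
      ring
    rw [Ty_hi hk Y p hp1, earg]
    split_ifs with hYp
    · rfl
    · have hw : Ty_w ψ x η (p * m) = 0 := by
        by_contra hne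
        have h1 := (Ty_w_supp hsupp hx hη0 (Nat.mul_pos hp1 hm) hne).1
        push_cast at h1
        have hYp' : (p : ℝ) ≤ Y := by exact_mod_cast (not_le.1 hYp).le
        nlinarith
      have hw' : ψ ((Real.log ((p * m : ℕ) : ℝ) - Real.log x) / η) / η = 0 := hw
      rw [hw', mul_zero, zero_mul]
  rw [e]
  exact h

private theorem Ty_S_mid {ψ : ℝ → ℝ} (hnn : ∀ v, 0 ≤ ψ v) (hle : ∀ v, ψ v ≤ 1)
    (hsupp : ∀ v, ψ v ≠ 0 → 0 < v ∧ v < 1) {k : Fin 3} (hk : k ≠ 2) {Y N : ℕ} (hY : 1 ≤ Y)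
    {x η : ℝ} (hx : 0 < x) (hη0 : 0 < η) (hη1 : η ≤ 1) {m : ℕ} (hm : 1 ≤ m)
    (hmY : x < (m : ℝ) * Y) :
    |Ty_S ψ k Y N x η m| ≤ (2 * η * Y + 1) * ((1 + Real.log N) / η) := by
  set Z : ℕ := ⌈(Y : ℝ) * Real.exp η⌉₊ with hZ
  have hYr : (1 : ℝ) ≤ Y := by exact_mod_cast hY
  have hm0 : (0 : ℝ) < m := by exact_mod_cast hm
  rcases Nat.eq_zero_or_pos N with hN0 | hN0
  · subst hN0
    unfold Ty_S
    simp only [Nat.lt_one_iff, Finset.Icc_eq_empty_of_lt, Nat.zero_lt_one, sum_empty, abs_zero,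
      Nat.cast_zero, Real.log_zero]
    positivity
  have hNr : (1 : ℝ) ≤ N := by exact_mod_cast hN0
  have hlN : 0 ≤ Real.log N := Real.log_nonneg hNr
  have hB : 0 ≤ (1 + Real.log N) / η := by positivity
  have h1 : |Ty_S ψ k Y N x η m| ≤
      ∑ p ∈ Icc 1 N, if p ∈ Ico Y Z then (1 + Real.log N) / η else 0 := by
    unfold Ty_S
    refine (abs_sum_le_sum_abs _ _).trans (sum_le_sum fun p hp => ?_)
    have hp1 := (mem_Icc.1 hp).1
    have hpN := (mem_Icc.1 hp).2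
    have hpr : (1 : ℝ) ≤ p := by exact_mod_cast hp1
    rw [Ty_hi hk Y p hp1]
    by_cases hYp : Y ≤ p
    · rw [if_pos hYp]
      by_cases hw : Ty_w ψ x η (p * m) = 0
      · rw [hw, mul_zero, abs_zero]
        split_ifs
        · exact hB
        · exact le_rfl
      · have h2 := (Ty_w_supp hsupp hx hη0 (Nat.mul_pos hp1 hm) hw).2
        push_cast at h2
        have h3 : (p : ℝ) < Y * Real.exp η := by
          have : (p : ℝ) * m < (Y * Real.exp η) * m := by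
            refine h2.trans ?_
            have := mul_lt_mul_of_pos_right hmY (Real.exp_pos η)
            linarith
          exact lt_of_mul_lt_mul_right this hm0.le
        have h4 : p < Z := by
          have : (p : ℝ) < Z := h3.trans_le (Nat.le_ceil _)
          exact_mod_cast this
        rw [if_pos (mem_Ico.2 ⟨hYp, h4⟩), abs_mul]
        have h5 : |Ty_F k p| ≤ 1 + Real.log N := by
          rw [abs_of_nonneg (Ty_F_nonneg hpr)]
          refine (Ty_F_le hpr).trans ?_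
          have : Real.log p ≤ Real.log N := Real.log_le_log (by linarith) (by exact_mod_cast hpN)
          linarith
        have h6 : |Ty_w ψ x η (p * m)| ≤ 1 / η := by
          unfold Ty_w
          rw [abs_of_nonneg (div_nonneg (hnn _) hη0.le)]
          exact div_le_div_of_nonneg_right (hle _) hη0.le
        calc |Ty_F k p| * |Ty_w ψ x η (p * m)| ≤ (1 + Real.log N) * (1 / η) :=
              mul_le_mul h5 h6 (abs_nonneg _) (by linarith)
          _ = (1 + Real.log N) / η := by ring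
    · rw [if_neg hYp, zero_mul, abs_zero]
      split_ifs
      · exact hB
      · exact le_rfl
  refine h1.trans ?_
  rw [← sum_filter, sum_const, nsmul_eq_mul]
  apply mul_le_mul_of_nonneg_right _ hB
  have h7 : ((Icc 1 N).filter (fun p => p ∈ Ico Y Z)).card ≤ Z - Y := by
    rw [← Nat.card_Ico]
    exact card_le_card fun p hp => (mem_filter.1 hp).2
  have h8 : (Z : ℝ) < Y * Real.exp η + 1 := Nat.ceil_lt_add_one (by positivity)
  have h9 : Y * Real.exp η ≤ Y * (1 + 2 * η) :=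
    mul_le_mul_of_nonneg_left (Ty_exp_le hη0.le hη1) (by linarith)
  have hYZ : Y ≤ Z := by
    have : (Y : ℝ) ≤ Z := by
      have := Nat.le_ceil ((Y : ℝ) * Real.exp η)
      have h10 : (Y : ℝ) ≤ Y * Real.exp η := by
        have := Real.one_le_exp hη0.le
        nlinarith
      linarith
    exact_mod_cast this
  have h11 : (((Icc 1 N).filter (fun p => p ∈ Ico Y Z)).card : ℝ) ≤ (Z : ℝ) - Y := by
    rw [← Nat.cast_sub hYZ]
    exact_mod_cast h7
  linarith

/-- the arithmetic of the middle range -/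
private theorem Ty_arith {P L Q η s t : ℝ} (hL : 0 ≤ L) (hLP : L ≤ P) (hQ0 : 0 < Q) (hη0 : 0 ≤ η)
    (ht0 : 0 ≤ t) (hQt : 1 / Q ≤ t ^ 2) (hs : s ^ 2 = η) (hs0 : 0 ≤ s) :
    (2 * η * Q + 1) * (400 * L ^ 2 * (3 * Q * P ^ 1024)) ≤ (70 * P ^ 513 * Q * (s + t)) ^ 2 := by
  have hP : 0 ≤ P := hL.trans hLP
  have e1 : 2 * η * Q + 1 = Q * (2 * η + 1 / Q) := by
    field_simp
  have e2 : 2 * η + 1 / Q ≤ 4 * (s + t) ^ 2 := by
    nlinarith [mul_nonneg hs0 ht0, sq_nonneg t]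
  have e3 : L ^ 2 ≤ P ^ 2 := pow_le_pow_left₀ hL hLP 2
  have hP1 : 0 ≤ P ^ 1024 := pow_nonneg hP _
  have e4 : 400 * L ^ 2 * (3 * Q * P ^ 1024) ≤ 400 * P ^ 2 * (3 * Q * P ^ 1024) := by
    apply mul_le_mul_of_nonneg_right _ (by positivity)
    linarith
  calc (2 * η * Q + 1) * (400 * L ^ 2 * (3 * Q * P ^ 1024))
      ≤ (Q * (4 * (s + t) ^ 2)) * (400 * P ^ 2 * (3 * Q * P ^ 1024)) := by
        rw [e1]
        exact mul_le_mul (mul_le_mul_of_nonneg_left e2 hQ0.le) e4 (by positivity) (by positivity)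
    _ = 4800 * (P ^ 1026 * Q ^ 2 * (s + t) ^ 2) := by ring
    _ ≤ 4900 * (P ^ 1026 * Q ^ 2 * (s + t) ^ 2) :=
        mul_le_mul_of_nonneg_right (by norm_num)
          (mul_nonneg (mul_nonneg (pow_nonneg hP 1026) (sq_nonneg Q)) (sq_nonneg _))
    _ = (70 * P ^ 513 * Q * (s + t)) ^ 2 := by ring

/-- the sum over the middle range -/
private theorem Ty_cauchy {X : ℕ} {a : ArithmeticFunction ℝ} (ha : ∀ m, |a m| ≤ 20 * Real.log X * tau m ^ 5)
    (hX : 1 ≤ X) {P : ℝ} (hP : P = 1 + Real.log X) {Q E η s t : ℝ} (hη0 : 0 ≤ η) (hη1 : η ≤ 1)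
    (hs : s ^ 2 = η) (hs0 : 0 ≤ s) (hQ : 1 ≤ Q) (ht0 : 0 ≤ t)
    (hQt : 1 / Q ≤ t ^ 2) (hE : Q * E ≤ X) (hE1 : 1 ≤ E) (hE2 : E ≤ 1 + 2 * η) :
    ∑ m ∈ Ioc ⌊Q⌋₊ ⌊Q * E⌋₊, |a m| ≤ 70 * P ^ 513 * Q * (s + t) := by
  set M := ⌊Q⌋₊ with hM
  set M' := ⌊Q * E⌋₊ with hM'
  have hQ0 : 0 < Q := by linarith
  have hXr : (1 : ℝ) ≤ X := by exact_mod_cast hX
  have hL : 0 ≤ Real.log X := Real.log_nonneg hXr
  obtain ⟨L, hLdef⟩ : ∃ L, L = Real.log X := ⟨_, rfl⟩
  rw [← hLdef] at hL hP ha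
  have hP0 : 0 ≤ P := by linarith
  have hMM' : M ≤ M' := Nat.floor_mono (by nlinarith)
  have hM'1 : 1 ≤ M' := by
    rw [hM', Nat.one_le_floor_iff]
    nlinarith
  have hM'le : (M' : ℝ) ≤ Q * E := Nat.floor_le (by positivity)
  have hM'X : (M' : ℝ) ≤ X := hM'le.trans hE
  have hMgt : Q - 1 < M := by
    have := Nat.lt_floor_add_one Q
    linarith
  have hM'r : (1 : ℝ) ≤ M' := by exact_mod_cast hM'1
  have hlogM' : Real.log M' ≤ L := by
    rw [hLdef]
    exact Real.log_le_log (by linarith) hM'X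
  have hlogM'0 : 0 ≤ Real.log M' := Real.log_nonneg hM'r
  have h1 : (∑ m ∈ Ioc M M', |a m|) ^ 2 ≤ (Ioc M M').card * ∑ m ∈ Ioc M M', |a m| ^ 2 :=
    sq_sum_le_card_mul_sum_sq
  have h2 : ((Ioc M M').card : ℝ) ≤ 2 * η * Q + 1 := by
    rw [Nat.card_Ioc, Nat.cast_sub hMM']
    have : Q * E ≤ Q * (1 + 2 * η) := mul_le_mul_of_nonneg_left hE2 hQ0.le
    linarith
  have h3 : ∑ m ∈ Ioc M M', |a m| ^ 2 ≤ 400 * L ^ 2 * (M' * (1 + Real.log M') ^ (2 ^ 10)) := by
    have i1 : ∑ m ∈ Ioc M M', |a m| ^ 2 ≤ ∑ m ∈ Icc 1 M', 400 * L ^ 2 * tau m ^ 10 := by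
      refine (sum_le_sum (g := fun m => 400 * L ^ 2 * tau m ^ 10) fun m _ => ?_).trans
        (sum_le_sum_of_subset_of_nonneg (f := fun m => 400 * L ^ 2 * tau m ^ 10) ?_ ?_)
      · have := ha m
        calc |a m| ^ 2 ≤ (20 * L * tau m ^ 5) ^ 2 := pow_le_pow_left₀ (abs_nonneg _) this 2
          _ = 400 * L ^ 2 * tau m ^ 10 := by ring
      · intro m hm
        rw [mem_Ioc] at hm
        rw [mem_Icc]
        omega
      · intro m _ _
        unfold tau
        positivity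
    rw [← mul_sum] at i1
    exact i1.trans (mul_le_mul_of_nonneg_left (tau_mom 10 M') (by positivity))
  have h4 : (M' : ℝ) * (1 + Real.log M') ^ (2 ^ 10) ≤ 3 * Q * P ^ (2 ^ 10) := by
    have i1 : (1 + Real.log M') ^ (2 ^ 10) ≤ P ^ (2 ^ 10) :=
      pow_le_pow_left₀ (by linarith) (by linarith) _
    have i2 : (M' : ℝ) ≤ 3 * Q := by
      have : Q * E ≤ Q * 3 := mul_le_mul_of_nonneg_left (by linarith) hQ0.le
      linarith
    exact mul_le_mul i2 i1 (pow_nonneg (by linarith) _) (by linarith)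
  have h5 : (∑ m ∈ Ioc M M', |a m|) ^ 2 ≤
      (2 * η * Q + 1) * (400 * L ^ 2 * (3 * Q * P ^ (2 ^ 10))) := by
    refine h1.trans (mul_le_mul h2 (h3.trans ?_) (sum_nonneg fun _ _ => by positivity)
      (by positivity))
    exact mul_le_mul_of_nonneg_left h4 (by positivity)
  have h6 := Ty_arith (P := P) hL (by linarith) hQ0 hη0 ht0 hQt hs hs0
  have h7 : (2 : ℕ) ^ 10 = 1024 := by norm_num
  rw [h7] at h5
  have hpos : 0 ≤ 70 * P ^ 513 * Q * (s + t) := by
    have := pow_nonneg hP0 513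
    positivity
  exact (sq_le_sq₀ (sum_nonneg fun _ _ => abs_nonneg _) hpos).1 (h5.trans h6)

/-- the sum over the low range -/
private theorem Ty_low {X : ℕ} {a : ArithmeticFunction ℝ} (ha : ∀ m, |a m| ≤ 20 * Real.log X * tau m ^ 5)
    (hX : 1 ≤ X) {P : ℝ} (hP : P = 1 + Real.log X) {M : ℕ} (hMX : M ≤ X) {u w : ℝ} (hu : 0 ≤ u)
    (hw : 0 ≤ w) :
    ∑ m ∈ Icc 1 M, |a m| * (u / m + w) ≤ 20 * P ^ 33 * (u + w * M) := by
  have hXr : (1 : ℝ) ≤ X := by exact_mod_cast hX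
  have hL : 0 ≤ Real.log X := Real.log_nonneg hXr
  have hlogM : Real.log M ≤ Real.log X := by
    rcases Nat.eq_zero_or_pos M with h0 | h0
    · subst h0
      simpa using hL
    · exact Real.log_le_log (by exact_mod_cast h0) (by exact_mod_cast hMX)
  obtain ⟨L, hLdef⟩ : ∃ L, L = Real.log X := ⟨_, rfl⟩
  rw [← hLdef] at hL hP ha hlogM
  have hP0 : 0 ≤ P := by linarith
  have hlogM0 : 0 ≤ Real.log M := Real.log_natCast_nonneg M
  have h1 : ∑ m ∈ Icc 1 M, |a m| * (u / m + w) ≤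
      20 * L * (u * ∑ m ∈ Icc 1 M, tau m ^ 5 / m + w * ∑ m ∈ Icc 1 M, tau m ^ 5) := by
    rw [mul_sum, mul_sum, ← sum_add_distrib, mul_sum]
    refine sum_le_sum fun m hm => ?_
    have hm0 : (0 : ℝ) < m := by exact_mod_cast (mem_Icc.1 hm).1
    calc |a m| * (u / m + w) ≤ (20 * L * tau m ^ 5) * (u / m + w) :=
          mul_le_mul_of_nonneg_right (ha m) (by positivity)
      _ = 20 * L * (u * (tau m ^ 5 / m) + w * tau m ^ 5) := by ring
  have h2 := tau_momd 5 M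
  have h3 := tau_mom 5 M
  have h7 : (2 : ℕ) ^ 5 = 32 := by norm_num
  rw [h7] at h2 h3
  have h4 : (1 + Real.log M) ^ 32 ≤ P ^ 32 := pow_le_pow_left₀ (by linarith) (by linarith) _
  refine h1.trans ?_
  have h5 : u * ∑ m ∈ Icc 1 M, tau m ^ 5 / m + w * ∑ m ∈ Icc 1 M, tau m ^ 5 ≤
      P ^ 32 * (u + w * M) := by
    have i1 : u * ∑ m ∈ Icc 1 M, tau m ^ 5 / m ≤ u * P ^ 32 :=
      mul_le_mul_of_nonneg_left (h2.trans h4) hu
    have i2 : w * ∑ m ∈ Icc 1 M, tau m ^ 5 ≤ w * (M * P ^ 32) :=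
      mul_le_mul_of_nonneg_left (h3.trans (mul_le_mul_of_nonneg_left h4 (Nat.cast_nonneg _))) hw
    calc _ ≤ u * P ^ 32 + w * (M * P ^ 32) := add_le_add i1 i2
      _ = P ^ 32 * (u + w * M) := by ring
  have h6 : 20 * L ≤ 20 * P := by linarith
  calc 20 * L * (u * ∑ m ∈ Icc 1 M, tau m ^ 5 / m + w * ∑ m ∈ Icc 1 M, tau m ^ 5)
      ≤ 20 * L * (P ^ 32 * (u + w * M)) := mul_le_mul_of_nonneg_left h5 (by positivity)
    _ ≤ 20 * P * (P ^ 32 * (u + w * M)) :=
        mul_le_mul_of_nonneg_right h6 (by positivity)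
    _ = 20 * P ^ 33 * (u + w * M) := by ring

private theorem Ty_log200 : Real.log 200 ≤ 6 := by
  have h1 : (200 : ℝ) ≤ Real.exp 6 := by
    have h2 := Real.exp_one_gt_d9
    have h3 : Real.exp 6 = Real.exp 1 ^ 6 := by
      rw [← Real.exp_nat_mul]
      norm_num
    rw [h3]
    have h4 : (2.7 : ℝ) ^ 6 ≤ Real.exp 1 ^ 6 := pow_le_pow_left₀ (by norm_num) (by linarith) 6
    have h5 : (200 : ℝ) ≤ 2.7 ^ 6 := by norm_num
    linarith
  rw [Real.log_le_iff_le_exp (by norm_num)]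
  exact h1

/-- the comparison with the main term -/
private theorem Ty_main {ψ : ℝ → ℝ} {C : ℝ} (hC : 1 ≤ C)
    (hlip : ∀ u v, |ψ u - ψ v| ≤ C * |u - v|) (hnn : ∀ v, 0 ≤ ψ v) (hle : ∀ v, ψ v ≤ 1)
    (hsupp : ∀ v, ψ v ≠ 0 → 0 < v ∧ v < 1) {X Y : ℕ} {k : Fin 3} (hk : k ≠ 2)
    {a : ArithmeticFunction ℝ} {x η s t P : ℝ} (hX : 1 ≤ X)
    (ha : ∀ m, |a m| ≤ 20 * Real.log X * tau m ^ 5) (hXx : (X : ℝ) ≤ x) (hx2 : x ≤ 2 * X)
    (hη0 : 0 < η) (hη1 : η ≤ 1) (hs : s ^ 2 = η) (hs0 : 0 ≤ s) (ht0 : 0 ≤ t) (ht1 : t ≤ 1)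
    (hY6 : 6 ≤ Y) (hYX : (Y : ℝ) ≤ X * t ^ 2) (hYη : 2 ≤ Y * η)
    (hXY : X / (Y * η) ≤ 2 * (X * t)) (hP : P = 1 + Real.log X) :
    |∑ m ∈ Icc 1 (200 * X), a m * Ty_S ψ k Y (200 * X) x η m -
      ∑ m ∈ Icc 1 ⌊x / Y⌋₊, a m * ((∫ v : ℝ, ψ v) * ((x / m) * Ty_F k (x / m)))| ≤
      (160 * (18 + 6 * C) + 3920) * P ^ 514 * X * (s + t) := by
  have hXr : (1 : ℝ) ≤ X := by exact_mod_cast hX
  have hx0 : 0 < x := by linarith
  have hL : 0 ≤ Real.log X := Real.log_nonneg hXr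
  have hP1 : 1 ≤ P := by linarith
  have hP0 : 0 ≤ P := by linarith
  have hY1 : 1 ≤ Y := by omega
  have hYr : (6 : ℝ) ≤ Y := by exact_mod_cast hY6
  have hY0 : (0 : ℝ) < Y := by linarith
  have hη3 : Real.exp η ≤ 1 + 2 * η := Ty_exp_le hη0.le hη1
  have hη4 : 1 ≤ Real.exp η := Real.one_le_exp hη0.le
  obtain ⟨Q, hQ⟩ : ∃ Q : ℝ, Q = x / Y := ⟨_, rfl⟩
  have hQY : Q * Y = x := by
    rw [hQ]
    field_simp
  have hYX' : (Y : ℝ) ≤ X := by
    refine hYX.trans ?_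
    have : t ^ 2 ≤ 1 := by nlinarith
    nlinarith
  have hQ1 : 1 ≤ Q := by
    rw [hQ, le_div_iff₀ hY0]
    linarith
  have hQ0 : 0 < Q := by linarith
  have hE : Q * Real.exp η ≤ X := by
    have h1 : Q * Real.exp η ≤ Q * 3 := mul_le_mul_of_nonneg_left (by linarith) hQ0.le
    have h2 : Q * 6 ≤ Q * Y := mul_le_mul_of_nonneg_left hYr hQ0.le
    linarith
  have hQt : 1 / Q ≤ t ^ 2 := by
    rw [div_le_iff₀ hQ0, hQ, ← mul_div_assoc, le_div_iff₀ hY0, one_mul]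
    refine hYX.trans ?_
    nlinarith [sq_nonneg t]
  have hcau := Ty_cauchy ha hX hP hη0.le hη1 hs hs0 hQ1 ht0 hQt hE hη4 hη3
  set N : ℕ := 200 * X with hNdef
  have hNr : (N : ℝ) = 200 * X := by
    rw [hNdef]
    push_cast
    ring
  have hxN : x * Real.exp η ≤ N := by
    rw [hNr]
    have : x * Real.exp η ≤ x * 3 := mul_le_mul_of_nonneg_left (by linarith) hx0.le
    linarith
  have hlogN : 1 + Real.log N ≤ 7 * P := by
    rw [hNr, Real.log_mul (by norm_num) (by linarith), hP]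
    have := Ty_log200
    linarith
  have hlogN0 : 0 ≤ 1 + Real.log N := by
    have := Real.log_natCast_nonneg N
    linarith
  set M : ℕ := ⌊Q⌋₊ with hM
  set M' : ℕ := ⌊Q * Real.exp η⌋₊ with hM'
  have hMM' : M ≤ M' := Nat.floor_mono (by nlinarith)
  have hM'X : M' ≤ X := by
    have : (M' : ℝ) ≤ X := (Nat.floor_le (by positivity)).trans hE
    exact_mod_cast this
  have hM'N : M' ≤ N := by omega
  have hMle : (M : ℝ) ≤ Q := Nat.floor_le hQ0.le
  -- splitting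
  have hsplit : ∑ m ∈ Icc 1 N, a m * Ty_S ψ k Y N x η m =
      ∑ m ∈ Icc 1 M, a m * Ty_S ψ k Y N x η m + ∑ m ∈ Ioc M M', a m * Ty_S ψ k Y N x η m := by
    have e1 : ∑ m ∈ Icc 1 M', a m * Ty_S ψ k Y N x η m =
        ∑ m ∈ Icc 1 N, a m * Ty_S ψ k Y N x η m := by
      apply sum_subset (Icc_subset_Icc_right hM'N)
      intro m hm hm'
      rw [mem_Icc] at hm hm'
      have h1 : M' < m := by omega
      have h2 : x * Real.exp η / Y < m := by
        have h3 : Q * Real.exp η < m := by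
          rw [hM', Nat.floor_lt (by positivity)] at h1
          exact h1
        have h4 : x * Real.exp η / Y = Q * Real.exp η := by
          rw [hQ]
          ring
        rw [h4]
        exact h3
      rw [Ty_S_zero hsupp hk hY1 hx0 hη0 hm.1 h2, mul_zero]
    rw [← e1]
    have e2 : Icc 1 M' = Icc 1 M ∪ Ioc M M' := by
      ext m
      simp only [mem_union, mem_Icc, mem_Ioc]
      omega
    rw [e2, sum_union]
    rw [disjoint_left]
    intro m h1 h2
    rw [mem_Icc] at h1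
    rw [mem_Ioc] at h2
    omega
  have hA : |∑ m ∈ Icc 1 M, a m * Ty_S ψ k Y N x η m -
      ∑ m ∈ Icc 1 M, a m * ((∫ v : ℝ, ψ v) * ((x / m) * Ty_F k (x / m)))| ≤
      160 * (18 + 6 * C) * P ^ 514 * X * (s + t) := by
    rw [← sum_sub_distrib]
    have h1 : |∑ m ∈ Icc 1 M, (a m * Ty_S ψ k Y N x η m -
        a m * ((∫ v : ℝ, ψ v) * ((x / m) * Ty_F k (x / m))))| ≤
        ∑ m ∈ Icc 1 M, (18 + 6 * C) * (2 * P) * (|a m| * (η * x / m + 1 / η)) := by
      refine (abs_sum_le_sum_abs _ _).trans (sum_le_sum fun m hm => ?_)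
      have hm1 := (mem_Icc.1 hm).1
      have hmM := (mem_Icc.1 hm).2
      have hmr : (1 : ℝ) ≤ m := by exact_mod_cast hm1
      have hmY : (m : ℝ) * Y ≤ x := by
        have : (m : ℝ) ≤ Q := le_trans (by exact_mod_cast hmM) hMle
        calc (m : ℝ) * Y ≤ Q * Y := mul_le_mul_of_nonneg_right this hY0.le
          _ = x := hQY
      have h2 := Ty_S_small hC hlip hnn hle hsupp hk hY1 hx0 hη0 hη1 hYη hm1 hmY hxN
      rw [← mul_sub, abs_mul]
      have h3 : 1 + Real.log (x / m) ≤ 2 * P := by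
        have i1 : Real.log (x / m) ≤ Real.log (2 * X) := by
          apply Real.log_le_log (by positivity)
          exact (div_le_self hx0.le hmr).trans hx2
        rw [Real.log_mul (by norm_num) (by linarith)] at i1
        have i2 := Real.log_two_lt_d9
        rw [hP]
        linarith
      have hpos : 0 ≤ η * (x / m) + 1 / η := by positivity
      calc |a m| * |Ty_S ψ k Y N x η m - (∫ v : ℝ, ψ v) * ((x / m) * Ty_F k (x / m))|
          ≤ |a m| * ((18 + 6 * C) * (1 + Real.log (x / m)) * (η * (x / m) + 1 / η)) :=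
            mul_le_mul_of_nonneg_left h2 (abs_nonneg _)
        _ ≤ |a m| * ((18 + 6 * C) * (2 * P) * (η * (x / m) + 1 / η)) := by
            apply mul_le_mul_of_nonneg_left _ (abs_nonneg _)
            apply mul_le_mul_of_nonneg_right _ hpos
            exact mul_le_mul_of_nonneg_left h3 (by linarith)
        _ = (18 + 6 * C) * (2 * P) * (|a m| * (η * x / m + 1 / η)) := by ring
    refine h1.trans ?_
    rw [← mul_sum]
    have h4 := Ty_low ha hX hP (hMM'.trans hM'X) (u := η * x) (w := 1 / η) (by positivity)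
      (by positivity)
    have h5 : η * x + 1 / η * M ≤ 4 * (X * (s + t)) := by
      have i1 : η * x ≤ 2 * (X * s) := by
        have j1 : η ≤ s := by
          rw [← hs]
          have : s ≤ 1 := by
            by_contra hcon
            push Not at hcon
            nlinarith
          nlinarith
        calc η * x ≤ s * (2 * X) := mul_le_mul j1 hx2 hx0.le hs0
          _ = 2 * (X * s) := by ring
      have i2 : 1 / η * M ≤ 4 * (X * t) := by
        calc 1 / η * M ≤ 1 / η * Q := mul_le_mul_of_nonneg_left hMle (by positivity)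
          _ = x / (Y * η) := by
            rw [hQ]
            field_simp
          _ ≤ (2 * X) / (Y * η) := div_le_div_of_nonneg_right hx2 (by positivity)
          _ = 2 * (X / (Y * η)) := by ring
          _ ≤ 4 * (X * t) := by linarith
      have i3 : 0 ≤ X * s := by positivity
      linarith
    have hC' : 0 ≤ 18 + 6 * C := by linarith
    have hP33 : P ^ 34 ≤ P ^ 514 := pow_le_pow_right₀ hP1 (by norm_num)
    have hXst : 0 ≤ X * (s + t) := by positivity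
    calc (18 + 6 * C) * (2 * P) * ∑ m ∈ Icc 1 M, |a m| * (η * x / m + 1 / η)
        ≤ (18 + 6 * C) * (2 * P) * (20 * P ^ 33 * (η * x + 1 / η * M)) :=
          mul_le_mul_of_nonneg_left h4 (mul_nonneg hC' (by linarith))
      _ ≤ (18 + 6 * C) * (2 * P) * (20 * P ^ 33 * (4 * (X * (s + t)))) := by
          apply mul_le_mul_of_nonneg_left _ (mul_nonneg hC' (by linarith))
          exact mul_le_mul_of_nonneg_left h5 (mul_nonneg (by norm_num) (pow_nonneg hP0 _))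
      _ = P ^ 34 * (160 * (18 + 6 * C) * (X * (s + t))) := by ring
      _ ≤ P ^ 514 * (160 * (18 + 6 * C) * (X * (s + t))) :=
          mul_le_mul_of_nonneg_right hP33 (by positivity)
      _ = 160 * (18 + 6 * C) * P ^ 514 * X * (s + t) := by ring
  have hB : |∑ m ∈ Ioc M M', a m * Ty_S ψ k Y N x η m| ≤ 3920 * P ^ 514 * X * (s + t) := by
    have h1 : |∑ m ∈ Ioc M M', a m * Ty_S ψ k Y N x η m| ≤
        ∑ m ∈ Ioc M M', |a m| * ((2 * η * Y + 1) * ((1 + Real.log N) / η)) := by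
      refine (abs_sum_le_sum_abs _ _).trans (sum_le_sum fun m hm => ?_)
      rw [mem_Ioc] at hm
      have hm1 : 1 ≤ m := by omega
      rw [abs_mul]
      apply mul_le_mul_of_nonneg_left _ (abs_nonneg _)
      apply Ty_S_mid hnn hle hsupp hk hY1 hx0 hη0 hη1 hm1
      have h2 : Q < m := by
        have := hm.1
        rw [hM, Nat.floor_lt hQ0.le] at this
        exact this
      calc x = Q * Y := hQY.symm
        _ < m * Y := mul_lt_mul_of_pos_right h2 hY0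
    refine h1.trans ?_
    rw [← sum_mul]
    have h2 : (2 * η * Y + 1) * ((1 + Real.log N) / η) ≤ 28 * P * Y := by
      have i1 : (2 * η * Y + 1) * ((1 + Real.log N) / η) = (1 + Real.log N) * (2 * Y + 1 / η) := by
        field_simp
      have i2 : 1 / η ≤ Y := by
        rw [div_le_iff₀ hη0]
        linarith
      rw [i1]
      calc (1 + Real.log N) * (2 * Y + 1 / η) ≤ (7 * P) * (4 * Y) :=
            mul_le_mul hlogN (by linarith) (by positivity) (by linarith)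
        _ = 28 * P * Y := by ring
    have hpos : 0 ≤ (2 * η * Y + 1) * ((1 + Real.log N) / η) := by positivity
    have hst : 0 ≤ s + t := by linarith
    calc (∑ m ∈ Ioc M M', |a m|) * ((2 * η * Y + 1) * ((1 + Real.log N) / η))
        ≤ (70 * P ^ 513 * Q * (s + t)) * (28 * P * Y) :=
          mul_le_mul hcau h2 hpos (mul_nonneg (mul_nonneg (mul_nonneg (by norm_num)
            (pow_nonneg hP0 _)) hQ0.le) hst)
      _ = P ^ 514 * (1960 * (Q * Y) * (s + t)) := by ring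
      _ ≤ P ^ 514 * (3920 * X * (s + t)) := by
          apply mul_le_mul_of_nonneg_left _ (pow_nonneg hP0 _)
          apply mul_le_mul_of_nonneg_right _ hst
          rw [hQY]
          linarith
      _ = 3920 * P ^ 514 * X * (s + t) := by ring
  rw [hsplit, ← hQ, ← hM]
  have e : ∀ u v w : ℝ, u + v - w = (u - w) + v := fun u v w => by ring
  rw [e]
  refine (abs_add_le _ _).trans ((add_le_add hA hB).trans (le_of_eq ?_))
  ring

/-- powers of the logarithm against powers -/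
private theorem Ty_log_pow (K : ℝ) (n : ℕ) {e : ℝ} (he : 0 < e) :
    ∃ X0 : ℕ, ∀ X : ℕ, X0 ≤ X → K * Real.log X ^ n ≤ (X : ℝ) ^ e := by
  have h := isLittleO_log_rpow_rpow_atTop (n : ℝ) he
  have hc : (0 : ℝ) < 1 / (|K| + 1) := by positivity
  have h1 := h.def hc
  have h2 := (tendsto_natCast_atTop_atTop (R := ℝ)).eventually
    (h1.and (Filter.eventually_ge_atTop (1 : ℝ)))
  obtain ⟨X0, hX0⟩ := Filter.eventually_atTop.1 h2
  refine ⟨X0, fun X hX => ?_⟩
  obtain ⟨h3, h4⟩ := hX0 X hX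
  have hL : 0 ≤ Real.log (X : ℝ) := Real.log_nonneg h4
  have hXe : 0 ≤ (X : ℝ) ^ e := by positivity
  have hK1 : 0 < |K| + 1 := by positivity
  rw [Real.rpow_natCast, Real.norm_eq_abs, Real.norm_eq_abs,
    abs_of_nonneg (pow_nonneg hL n), abs_of_nonneg hXe] at h3
  have h5 : (|K| + 1) * Real.log (X : ℝ) ^ n ≤ (X : ℝ) ^ e := by
    have := mul_le_mul_of_nonneg_left h3 hK1.le
    rwa [← mul_assoc, mul_one_div_cancel hK1.ne', one_mul] at this
  refine le_trans ?_ h5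
  apply mul_le_mul_of_nonneg_right _ (by positivity)
  linarith [le_abs_self K]

private theorem Ty_sw {ψ : ℝ → ℝ} (hsupp : ∀ v, ψ v ≠ 0 → 0 < v ∧ v < 1) (k : Fin 3) (Y X : ℕ)
    (a : ArithmeticFunction ℝ) {x η : ℝ} (hx : 0 < x) (hη : 0 < η)
    (hxN : x * Real.exp η ≤ (200 * X : ℕ)) :
    sw ψ (cc (hi k Y * a)) (200 * X) x η =
      ((∑ m ∈ Icc 1 (200 * X), a m * Ty_S ψ k Y (200 * X) x η m : ℝ) : ℂ) := by
  have h1 := Ty_conv (hi k Y) a (Ty_w ψ x η) (200 * X) (by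
    intro n hn
    by_contra hne
    have h2 := (Ty_w_supp hsupp hx hη (by omega) hne).2
    have h3 : ((200 * X : ℕ) : ℝ) < n := by exact_mod_cast hn
    linarith)
  have h2 : ∑ m ∈ Icc 1 (200 * X), a m * Ty_S ψ k Y (200 * X) x η m =
      ∑ n ∈ Icc 1 (200 * X), (hi k Y * a) n * Ty_w ψ x η n := h1.symm
  rw [h2]
  unfold sw cc Ty_w
  push_cast
  rfl

theorem ty58 {ψ : ℝ → ℝ} {g : ℝ → ℂ} (h : Bump ψ g) (A : ℕ) :
    ∃ A0 : ℕ, ∀ A1 : ℕ, A0 ≤ A1 → ∃ X0 : ℕ, ∀ X : ℕ, X0 ≤ X →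
    ∀ (Y : ℕ) (k : Fin 3) (a : ArithmeticFunction ℝ) (x η : ℝ), k ≠ 2 →
    (X : ℝ) ^ (11 / 24 : ℝ) ≤ 2 * Y → (Y : ℝ) ≤ (X : ℝ) ^ (11 / 24 : ℝ) →
    (∀ m, |a m| ≤ 20 * Real.log X * tau m ^ 5) → (X : ℝ) ≤ x → x ≤ 2 * X →
    (X : ℝ) ^ (-(3 / 8) : ℝ) ≤ η → η ≤ (X : ℝ) ^ (-(1 / 4) : ℝ) →
    ‖sw ψ (cc (hi k Y * a)) (200 * X) x η - sw ψ (cc (hi k Y * a)) (200 * X) x (1 / Real.log X ^ A1)‖
      ≤ X / Real.log X ^ A := by
  obtain ⟨C, hC, hlip⟩ := h.lip
  obtain ⟨K, hK⟩ : ∃ K : ℝ, K = 160 * (18 + 6 * C) + 3920 := ⟨_, rfl⟩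
  have hK0 : 0 ≤ K := by rw [hK]; linarith
  obtain ⟨D, hD0, hD⟩ : ∃ D : ℝ, 0 ≤ D ∧ ∀ u : ℝ, (2 * u) ^ 514 = D * u ^ 514 :=
    ⟨(2 : ℝ) ^ 514, pow_nonneg zero_le_two 514, fun u => mul_pow 2 u 514⟩
  refine ⟨2 * (A + 515), fun A1 hA1 => ?_⟩
  obtain ⟨X1, hX1⟩ := Ty_log_pow (6 * K * D) (514 + A) (e := 1 / 12) (by norm_num)
  obtain ⟨X2, hX2⟩ := Ty_log_pow 1 A1 (e := 3 / 8) (by norm_num)
  obtain ⟨X3, hX3⟩ := Filter.eventually_atTop.1
    ((tendsto_natCast_atTop_atTop (R := ℝ)).eventually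
      (Real.tendsto_log_atTop.eventually_ge_atTop (2 * K * D + 1)))
  refine ⟨X1 + X2 + X3 + 16777216, fun X hX Y k a x η hk hXY hYX ha hXx hx2 hηl hηu => ?_⟩
  have g1 := hX1 X (by omega)
  have g2 := hX2 X (by omega)
  have g3 := hX3 X (by omega)
  have hX4 : 16777216 ≤ X := (Nat.le_add_left _ _).trans hX
  have hXr : ((4 : ℝ)) ^ 12 ≤ X := by
    have h1 : (16777216 : ℝ) ≤ X := by exact_mod_cast hX4
    have h2 : (4 : ℝ) ^ 12 = 16777216 := by norm_num
    rw [h2]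
    exact h1
  have hXr1 : (1 : ℝ) ≤ X := by
    have : (1 : ℝ) ≤ 4 ^ 12 := by norm_num
    linarith
  have hX0 : (0 : ℝ) < X := by linarith
  have hXn : 1 ≤ X := by exact_mod_cast hXr1
  -- the powers of `X`
  obtain ⟨t, ht⟩ : ∃ t : ℝ, t = (X : ℝ) ^ (-(1 / 12) : ℝ) := ⟨_, rfl⟩
  obtain ⟨r, hr⟩ : ∃ r : ℝ, r = (X : ℝ) ^ (1 / 12 : ℝ) := ⟨_, rfl⟩
  have hrt : r * t = 1 := by
    rw [hr, ht, ← Real.rpow_add hX0]
    norm_num
  have hr4 : 4 ≤ r := by
    rw [hr]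
    have h1 : ((4 : ℝ) ^ 12) ^ (1 / 12 : ℝ) ≤ (X : ℝ) ^ (1 / 12 : ℝ) :=
      Real.rpow_le_rpow (by norm_num) hXr (by norm_num)
    have h2 : ((4 : ℝ) ^ 12) ^ (1 / 12 : ℝ) = 4 := by
      rw [← Real.rpow_natCast, ← Real.rpow_mul (by norm_num)]
      norm_num
    linarith
  have hr0 : 0 < r := by linarith
  have ht0 : 0 < t := by
    rw [ht]
    positivity
  have ht1 : t ≤ 1 := by nlinarith
  have hp1124 : (X : ℝ) ^ (11 / 24 : ℝ) * (X : ℝ) ^ (-(3 / 8) : ℝ) = r := by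
    rw [hr, ← Real.rpow_add hX0]
    norm_num
  have hp38 : 0 < (X : ℝ) ^ (-(3 / 8) : ℝ) := by positivity
  have hY0 : 0 ≤ (Y : ℝ) := Nat.cast_nonneg Y
  have hbig : 12 ≤ (X : ℝ) ^ (11 / 24 : ℝ) := by
    have h1 : (X : ℝ) ^ (5 / 12 : ℝ) ≤ (X : ℝ) ^ (11 / 24 : ℝ) :=
      Real.rpow_le_rpow_of_exponent_le hXr1 (by norm_num)
    have h2 : (X : ℝ) ^ (5 / 12 : ℝ) = r ^ 5 := by
      rw [hr, ← Real.rpow_natCast, ← Real.rpow_mul hX0.le]
      norm_num
    have h3 : (4 : ℝ) ^ 5 ≤ r ^ 5 := pow_le_pow_left₀ (by norm_num) hr4 5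
    have h4 : (12 : ℝ) ≤ 4 ^ 5 := by norm_num
    linarith
  have hY6r : (6 : ℝ) ≤ Y := by linarith
  have hY6 : 6 ≤ Y := by exact_mod_cast hY6r
  have hYt : (Y : ℝ) ≤ X * t ^ 2 := by
    have h1 : X * t ^ 2 = (X : ℝ) ^ (5 / 6 : ℝ) := by
      have h2 : t ^ 2 = (X : ℝ) ^ (-(1 / 6) : ℝ) := by
        rw [ht, ← Real.rpow_natCast, ← Real.rpow_mul hX0.le]
        norm_num
      rw [h2]
      nth_rewrite 1 [← Real.rpow_one (X : ℝ)]
      rw [← Real.rpow_add hX0]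
      norm_num
    rw [h1]
    exact hYX.trans (Real.rpow_le_rpow_of_exponent_le hXr1 (by norm_num))
  -- general facts for all windows
  have hgen : ∀ η' : ℝ, (X : ℝ) ^ (-(3 / 8) : ℝ) ≤ η' → 2 ≤ Y * η' ∧ X / (Y * η') ≤ 2 * (X * t) := by
    intro η' hη'
    have h1 : r ≤ 2 * (Y * η') := by
      rw [← hp1124]
      calc (X : ℝ) ^ (11 / 24 : ℝ) * (X : ℝ) ^ (-(3 / 8) : ℝ) ≤ (2 * Y) * η' :=
            mul_le_mul hXY hη' hp38.le (by positivity)
        _ = 2 * (Y * η') := by ring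
    have h2 : 0 < Y * η' := by linarith
    refine ⟨by linarith, ?_⟩
    rw [div_le_iff₀ h2]
    have h3 : 1 ≤ 2 * t * (Y * η') := by
      calc (1 : ℝ) = r * t := hrt.symm
        _ ≤ (2 * (Y * η')) * t := mul_le_mul_of_nonneg_right h1 ht0.le
        _ = 2 * t * (Y * η') := by ring
    calc (X : ℝ) = X * 1 := by ring
      _ ≤ X * (2 * t * (Y * η')) := mul_le_mul_of_nonneg_left h3 hX0.le
      _ = 2 * (X * t) * (Y * η') := by ring
  obtain ⟨P, hP⟩ : ∃ P : ℝ, P = 1 + Real.log X := ⟨_, rfl⟩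
  have hx0 : 0 < x := by linarith
  have hmain : ∀ η' s : ℝ, (X : ℝ) ^ (-(3 / 8) : ℝ) ≤ η' → η' ≤ 1 → s ^ 2 = η' → 0 ≤ s →
      ‖sw ψ (cc (hi k Y * a)) (200 * X) x η' -
        ((∑ m ∈ Icc 1 ⌊x / Y⌋₊, a m * ((∫ v : ℝ, ψ v) * ((x / m) * Ty_F k (x / m))) : ℝ) : ℂ)‖ ≤
      K * P ^ 514 * X * (s + t) := by
    intro η' s h1 h2 h3 h4
    have hη0 : 0 < η' := hp38.trans_le h1
    have hxN : x * Real.exp η' ≤ (200 * X : ℕ) := by
      push_cast
      have h5 : Real.exp η' ≤ 1 + 2 * η' := Ty_exp_le hη0.le h2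
      have : x * Real.exp η' ≤ x * 3 := mul_le_mul_of_nonneg_left (by linarith) hx0.le
      linarith
    obtain ⟨h6, h7⟩ := hgen η' h1
    rw [Ty_sw h.supp k Y X a hx0 hη0 hxN, ← Complex.ofReal_sub, Complex.norm_real,
      Real.norm_eq_abs, hK]
    exact Ty_main hC hlip h.nn h.le1 h.supp hk hXn ha hXx hx2 hη0 h2 h3 h4 ht0.le ht1 hY6 hYt h6
      h7 hP
  obtain ⟨L, hL⟩ : ∃ L : ℝ, L = Real.log X := ⟨_, rfl⟩
  rw [← hL] at g1 g2 g3 hP ⊢
  have hK514 : 0 ≤ 2 * K * D := by positivity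
  have hL1 : 1 ≤ L := by linarith
  have hL0 : 0 < L := by linarith
  have hη1 : η ≤ 1 := by
    refine hηu.trans ?_
    exact Real.rpow_le_one_of_one_le_of_nonpos hXr1 (by norm_num)
  have hη0 : 0 < η := hp38.trans_le hηl
  have hη1' : (X : ℝ) ^ (-(3 / 8) : ℝ) ≤ 1 / L ^ A1 := by
    rw [Real.rpow_neg hX0.le, ← one_div]
    exact one_div_le_one_div_of_le (by positivity) (by linarith)
  have hη1'' : 1 / L ^ A1 ≤ 1 := by
    rw [div_le_one (by positivity)]
    exact one_le_pow₀ hL1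
  have m1 := hmain η (√η) hηl hη1 (Real.sq_sqrt hη0.le) (Real.sqrt_nonneg _)
  have m2 := hmain (1 / L ^ A1) (√(1 / L ^ A1)) hη1' hη1'' (Real.sq_sqrt (by positivity))
    (Real.sqrt_nonneg _)
  -- sizes
  have s1 : √η ≤ t := by
    rw [Real.sqrt_le_left ht0.le]
    refine hηu.trans ?_
    have h2 : t ^ 2 = (X : ℝ) ^ (-(1 / 6) : ℝ) := by
      rw [ht, ← Real.rpow_natCast, ← Real.rpow_mul hX0.le]
      norm_num
    rw [h2]
    exact Real.rpow_le_rpow_of_exponent_le hXr1 (by norm_num)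
  have s2 : √(1 / L ^ A1) ≤ 1 / L ^ (A + 515) := by
    rw [Real.sqrt_le_left (by positivity), div_pow, one_pow, ← pow_mul]
    apply one_div_le_one_div_of_le (by positivity)
    apply pow_le_pow_right₀ hL1
    rw [mul_comm]
    exact hA1
  have hP2 : P ^ 514 ≤ D * L ^ 514 := by
    rw [← hD]
    exact pow_le_pow_left₀ (by linarith) (by linarith) _
  have hP0 : 0 ≤ P ^ 514 := pow_nonneg (by linarith) _
  have f1 : K * P ^ 514 * (3 * t) ≤ 1 / 2 / L ^ A := by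
    rw [le_div_iff₀ (by positivity)]
    have j1 : K * P ^ 514 * (3 * t) * L ^ A ≤ K * (D * L ^ 514) * (3 * t) * L ^ A := by
      apply mul_le_mul_of_nonneg_right _ (pow_nonneg hL0.le _)
      apply mul_le_mul_of_nonneg_right _ (by linarith)
      exact mul_le_mul_of_nonneg_left hP2 hK0
    have j2 : K * (D * L ^ 514) * (3 * t) * L ^ A =
        (6 * K * D * L ^ (514 + A)) * t / 2 := by
      rw [pow_add]
      ring
    have j3 : (6 * K * D * L ^ (514 + A)) * t ≤ 1 := by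
      rw [← hrt]
      apply mul_le_mul_of_nonneg_right _ ht0.le
      rw [hr]
      exact g1
    linarith
  have f2 : K * P ^ 514 * (1 / L ^ (A + 515)) ≤ 1 / 2 / L ^ A := by
    rw [le_div_iff₀ (by positivity)]
    have j1 : K * P ^ 514 * (1 / L ^ (A + 515)) * L ^ A ≤
        K * (D * L ^ 514) * (1 / L ^ (A + 515)) * L ^ A := by
      apply mul_le_mul_of_nonneg_right _ (pow_nonneg hL0.le _)
      apply mul_le_mul_of_nonneg_right _ (by positivity)
      exact mul_le_mul_of_nonneg_left hP2 hK0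
    have j2 : K * (D * L ^ 514) * (1 / L ^ (A + 515)) * L ^ A = K * D / L := by
      have : L ^ (A + 515) = L ^ A * L ^ 514 * L := by
        rw [pow_add, pow_succ L 514]
        ring
      rw [this]
      have l1 : L ^ A ≠ 0 := (pow_pos hL0 _).ne'
      have l2 : L ^ 514 ≠ 0 := (pow_pos hL0 _).ne'
      generalize L ^ A = u at l1 ⊢
      generalize L ^ 514 = w at l2 ⊢
      field_simp
    have j3 : K * D / L ≤ 1 / 2 := by
      rw [div_le_iff₀ hL0]
      linarith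
    linarith
  have tri : ∀ u v w : ℂ, ‖u - v‖ ≤ ‖u - w‖ + ‖v - w‖ := by
    intro u v w
    have : u - v = (u - w) - (v - w) := by ring
    rw [this]
    exact norm_sub_le _ _
  refine (tri _ _ _).trans ((add_le_add m1 m2).trans ?_)
  have hKP : 0 ≤ K * P ^ 514 := mul_nonneg hK0 hP0
  calc K * P ^ 514 * X * (√η + t) + K * P ^ 514 * X * (√(1 / L ^ A1) + t)
      = X * (K * P ^ 514 * (√η + t + t + √(1 / L ^ A1))) := by ring
    _ ≤ X * (K * P ^ 514 * (3 * t + 1 / L ^ (A + 515))) := by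
        apply mul_le_mul_of_nonneg_left _ hX0.le
        apply mul_le_mul_of_nonneg_left _ hKP
        linarith
    _ = X * (K * P ^ 514 * (3 * t) + K * P ^ 514 * (1 / L ^ (A + 515))) := by ring
    _ ≤ X * (1 / 2 / L ^ A + 1 / 2 / L ^ A) :=
        mul_le_mul_of_nonneg_left (add_le_add f1 f2) hX0.le
    _ = X / L ^ A := by ring

end Pool.Agent.H88.E58
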