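import Pool.Agent.H88.E58.Pc
import Pool.Agent.H88.E58.Ty
import Pool.Agent.H88.PSI.HB
import Pool.Agent.H88.PSI.Dy

/-!
# E58 Sm: short smooth average of `Λ` minus long smooth average

`y` maximal with `2^y ≤ X^(11/24)`, `w` with `8 X^(1/3) ≤ 2^w ≤ 16 X^(1/3)`; `hb` for `X < n ≤ 3X`; `ty58` for `cA` (`k = 1`) and `cB` (`k = 0`), `tp_dy` and `pc58` for `k4`, `k6`.
-/

set_option autoImplicit false

namespace Pool.Agent.H88.E58

open Finset MeasureTheory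
open Pool.Agent.H88.PSI

private theorem Sm_log {z : ℝ} (hz : 1 ≤ z) : ∃ y : ℕ, (2 : ℝ) ^ y ≤ z ∧ z < 2 * (2 : ℝ) ^ y := by
  have h0 : ⌊z⌋₊ ≠ 0 := by
    have : 1 ≤ ⌊z⌋₊ := Nat.le_floor (by exact_mod_cast hz)
    omega
  refine ⟨Nat.log 2 ⌊z⌋₊, ?_, ?_⟩
  · have h1 : 2 ^ Nat.log 2 ⌊z⌋₊ ≤ ⌊z⌋₊ := Nat.pow_log_le_self 2 h0
    have h2 : ((2 ^ Nat.log 2 ⌊z⌋₊ : ℕ) : ℝ) ≤ (⌊z⌋₊ : ℝ) := by exact_mod_cast h1
    have h3 : (⌊z⌋₊ : ℝ) ≤ z := Nat.floor_le (by linarith)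
    push_cast at h2
    linarith
  · have h1 : ⌊z⌋₊ < 2 ^ (Nat.log 2 ⌊z⌋₊ + 1) := Nat.lt_pow_succ_log_self (by norm_num) _
    have h2 := (Nat.floor_lt (by linarith)).1 h1
    push_cast at h2
    rw [pow_succ] at h2
    linarith

private theorem Sm_lin (ψ : ℝ → ℝ) (a b c d : ℕ → ℂ) (N : ℕ) (x η : ℝ) :
    sw ψ (fun n => a n + b n - 3 * c n + d n) N x η =
      sw ψ a N x η + sw ψ b N x η - 3 * sw ψ c N x η + sw ψ d N x η := by
  unfold sw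
  rw [mul_sum, ← sum_add_distrib, ← sum_sub_distrib, ← sum_add_distrib]
  refine sum_congr rfl fun n _ => ?_
  ring

private theorem Sm_sum (ψ : ℝ → ℝ) {ι : Type*} (s : Finset ι) (f : ι → ArithmeticFunction ℝ) (N : ℕ)
    (x η : ℝ) : sw ψ (cc (∑ j ∈ s, f j)) N x η = ∑ j ∈ s, sw ψ (cc (f j)) N x η := by
  unfold sw
  rw [sum_comm]
  refine sum_congr rfl fun n _ => ?_
  rw [← sum_mul]
  congr 1
  unfold cc
  have h1 : (∑ j ∈ s, f j) n = ∑ j ∈ s, f j n := by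
    classical
    induction s using Finset.induction_on with
    | empty => simp
    | insert a t ha ih => rw [sum_insert ha, sum_insert ha, ArithmeticFunction.add_apply, ih]
  rw [h1, Complex.ofReal_sum]

private theorem Sm_tp {ψ : ℝ → ℝ} {g : ℝ → ℂ} (h : Bump ψ g) (e : ℝ) (he : 0 < e) (he' : e ≤ 1 / 100)
    (A : ℕ) :
    ∃ A0 : ℕ, ∀ A1 : ℕ, A0 ≤ A1 → ∃ X0 : ℕ, ∀ X : ℕ, X0 ≤ X →
    ∀ (r : ℕ) (κ : Fin r → Fin 3) (y w : ℕ) (x η : ℝ), r ≤ 6 →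
    (2 : ℝ) ^ y ≤ (X : ℝ) ^ (11 / 24 : ℝ) → (2 : ℝ) ^ w ≤ (X : ℝ) ^ (11 / 24 : ℝ) →
    (X : ℝ) ≤ x → x ≤ 2 * X →
    (X : ℝ) ^ (-(3 / 8) + e) / 4 ≤ η → η ≤ 1 / Real.log X ^ A1 →
    ‖sw ψ (cc (Tp κ y w)) (200 * X) x η - sw ψ (cc (Tp κ y w)) (200 * X) x (1 / Real.log X ^ A1)‖
      ≤ X / Real.log X ^ A := by
  obtain ⟨A0, hA⟩ := pc58 h e he he' (A + 6)
  refine ⟨A0, fun A1 hA1 => ?_⟩
  obtain ⟨X1, H1⟩ := hA A1 hA1
  obtain ⟨X2, H2⟩ := Pool.Agent.H80.LV.log_ge 1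
  refine ⟨max (max X1 X2) 3, fun X hX r κ y w x η hr hy hw hx1 hx2 hη1 hη2 => ?_⟩
  simp only [max_le_iff] at hX
  obtain ⟨⟨hX1, hX2⟩, hX3⟩ := hX
  have hXr : (3 : ℝ) ≤ X := by exact_mod_cast hX3
  have hX0 : (0 : ℝ) < X := by linarith
  have hL1 := H2 X hX2
  set L := Real.log X with hLd
  have hbd : ∀ v : ℕ, (2 : ℝ) ^ v ≤ (X : ℝ) ^ (11 / 24 : ℝ) → (v : ℝ) ≤ L := by
    intro v hv
    have e1 : Real.log ((2 : ℝ) ^ v) ≤ Real.log ((X : ℝ) ^ (11 / 24 : ℝ)) :=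
      Real.log_le_log (by positivity) hv
    rw [Real.log_pow, Real.log_rpow hX0] at e1
    have e2 := Real.log_two_gt_d9
    have e3 : (0 : ℝ) ≤ v := Nat.cast_nonneg v
    nlinarith
  rw [tp_dy, Sm_sum, Sm_sum, ← sum_sub_distrib]
  refine (norm_sum_le _ _).trans ?_
  have hb : ∀ j ∈ Fintype.piFinset (fun i => range (top (κ i) y w)),
      ‖sw ψ (cc (Pp κ j)) (200 * X) x η - sw ψ (cc (Pp κ j)) (200 * X) x (1 / L ^ A1)‖
        ≤ X / L ^ (A + 6) := by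
    intro j hj
    apply H1 X hX1 r κ j x η hr _ hx1 hx2 hη1 hη2
    intro i
    have h1 := mem_range.1 (Fintype.mem_piFinset.1 hj i)
    have h2 : (2 : ℝ) ^ j i ≤ (2 : ℝ) ^ top (κ i) y w := pow_le_pow_right₀ (by norm_num) h1.le
    refine h2.trans ?_
    unfold top
    split_ifs
    · exact hw
    · exact hy
  refine (sum_le_sum hb).trans ?_
  rw [sum_const, nsmul_eq_mul]
  have hcard : ((Fintype.piFinset (fun i => range (top (κ i) y w))).card : ℝ) ≤ L ^ 6 := by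
    rw [Fintype.card_piFinset]
    push_cast
    calc ∏ i, (((range (top (κ i) y w)).card : ℕ) : ℝ) ≤ ∏ _i : Fin r, L := by
          apply prod_le_prod
          · intro i _; positivity
          · intro i _
            rw [card_range]
            unfold top
            split_ifs
            · exact hbd w hw
            · exact hbd y hy
      _ = L ^ r := by rw [prod_const, card_univ, Fintype.card_fin]
      _ ≤ L ^ 6 := pow_le_pow_right₀ hL1 hr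
  calc ((Fintype.piFinset (fun i => range (top (κ i) y w))).card : ℝ) * (X / L ^ (A + 6))
      ≤ L ^ 6 * (X / L ^ (A + 6)) := mul_le_mul_of_nonneg_right hcard (by positivity)
    _ = X / L ^ A := by
        rw [pow_add]
        field_simp

theorem sm58 {ψ : ℝ → ℝ} {g : ℝ → ℂ} (h : Bump ψ g) (e : ℝ) (he : 0 < e) (he' : e ≤ 1 / 100) (A : ℕ) :
    ∃ A0 : ℕ, ∀ A1 : ℕ, A0 ≤ A1 → ∃ X0 : ℕ, ∀ X : ℕ, X0 ≤ X → ∀ x η : ℝ, (X : ℝ) ≤ x → x ≤ 2 * X →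
    (X : ℝ) ^ (-(3 / 8) + e) / 4 ≤ η → η ≤ (X : ℝ) ^ (-(1 / 4) : ℝ) →
    ‖sw ψ (cc La) (200 * X) x η - sw ψ (cc La) (200 * X) x (1 / Real.log X ^ A1)‖
      ≤ X / Real.log X ^ A := by
  obtain ⟨a1, h1⟩ := ty58 h (A + 1)
  obtain ⟨a2, h2⟩ := Sm_tp h e he he' (A + 1)
  refine ⟨max (max a1 a2) 1, fun A1 hA1 => ?_⟩
  simp only [max_le_iff] at hA1
  obtain ⟨⟨hA1, hA2⟩, hA3⟩ := hA1
  obtain ⟨X1, h3⟩ := h1 A1 hA1
  obtain ⟨X2, h4⟩ := h2 A1 hA2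
  obtain ⟨X3, h5⟩ := Pool.Agent.H80.LV.log_ge 48
  obtain ⟨X4, h6⟩ := Pool.Agent.H80.LV.pow_ge (1 / 8) 4 (by norm_num)
  obtain ⟨X5, h7⟩ := Pool.Agent.H80.LV.log_pow_le (1 / 4) 1 (by norm_num) (by norm_num) A1
  obtain ⟨X6, h8⟩ := Pool.Agent.H80.LV.pow_ge e 4 he
  refine ⟨max (max (max X1 X2) (max X3 X4)) (max (max X5 X6) 1), fun X hX x η hx1 hx2 hη1 hη2 => ?_⟩
  simp only [max_le_iff] at hX
  obtain ⟨⟨⟨hX1', hX2'⟩, hX3', hX4'⟩, ⟨hX5', hX6'⟩, hXN⟩ := hX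
  have hL := h5 X hX3'
  have hX8 := h6 X hX4'
  have hX7 := h7 X hX5'
  have hX9 := h8 X hX6'
  have hX1 : (1 : ℝ) ≤ X := by exact_mod_cast hXN
  have hX0 : (0 : ℝ) < X := by linarith
  have hx0 : 0 < x := by linarith
  obtain ⟨y, hy1, hy2⟩ := Sm_log (z := (X : ℝ) ^ (11 / 24 : ℝ))
    (Real.one_le_rpow hX1 (by norm_num))
  obtain ⟨w, hw1, hw2⟩ := Sm_log (z := (X : ℝ) ^ (1 / 3 : ℝ))
    (Real.one_le_rpow hX1 (by norm_num))
  -- sizes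
  have hww : (2 : ℝ) ^ (w + 2) ≤ (X : ℝ) ^ (11 / 24 : ℝ) := by
    rw [pow_add]
    have e1 : (X : ℝ) ^ (11 / 24 : ℝ) = (X : ℝ) ^ (1 / 3 : ℝ) * (X : ℝ) ^ (1 / 8 : ℝ) := by
      rw [← Real.rpow_add hX0]
      norm_num
    rw [e1]
    have e2 : (0 : ℝ) ≤ (X : ℝ) ^ (1 / 3 : ℝ) := by positivity
    have e3 : (0 : ℝ) < 2 ^ w := by positivity
    nlinarith
  have hcube : (8 : ℝ) * X ≤ ((2 : ℝ) ^ (w + 2)) ^ 3 := by
    have e1 : ((X : ℝ) ^ (1 / 3 : ℝ)) ^ 3 = X := by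
      rw [← Real.rpow_natCast, ← Real.rpow_mul hX0.le]
      norm_num
    have e2 : 2 * (X : ℝ) ^ (1 / 3 : ℝ) ≤ (2 : ℝ) ^ (w + 2) := by
      rw [pow_add]
      linarith
    calc (8 : ℝ) * X = (2 * (X : ℝ) ^ (1 / 3 : ℝ)) ^ 3 := by rw [mul_pow, e1]; norm_num
      _ ≤ _ := pow_le_pow_left₀ (by positivity) e2 3
  have hyw : (2 : ℝ) ^ y * (2 : ℝ) ^ (w + 2) ≤ X := by
    have e1 : (2 : ℝ) ^ (w + 2) ≤ 4 * (X : ℝ) ^ (1 / 3 : ℝ) := by
      rw [pow_add]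
      linarith
    have e2 : (X : ℝ) ^ (11 / 24 : ℝ) * (4 * (X : ℝ) ^ (1 / 3 : ℝ)) ≤ X := by
      have e3 : (X : ℝ) ^ (1 / 12 : ℝ) * ((X : ℝ) ^ (11 / 24 : ℝ) * ((X : ℝ) ^ (1 / 8 : ℝ) *
          (X : ℝ) ^ (1 / 3 : ℝ))) = X := by
        rw [← Real.rpow_add hX0, ← Real.rpow_add hX0, ← Real.rpow_add hX0]
        norm_num
      have e4 : (1 : ℝ) ≤ (X : ℝ) ^ (1 / 12 : ℝ) := Real.one_le_rpow hX1 (by norm_num)
      have e5 : (X : ℝ) ^ (11 / 24 : ℝ) * (4 * (X : ℝ) ^ (1 / 3 : ℝ)) ≤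
          (X : ℝ) ^ (11 / 24 : ℝ) * ((X : ℝ) ^ (1 / 8 : ℝ) * (X : ℝ) ^ (1 / 3 : ℝ)) :=
        mul_le_mul_of_nonneg_left (mul_le_mul_of_nonneg_right hX8 (by positivity)) (by positivity)
      have e6 : 1 * ((X : ℝ) ^ (11 / 24 : ℝ) * ((X : ℝ) ^ (1 / 8 : ℝ) * (X : ℝ) ^ (1 / 3 : ℝ))) ≤
          (X : ℝ) ^ (1 / 12 : ℝ) * ((X : ℝ) ^ (11 / 24 : ℝ) * ((X : ℝ) ^ (1 / 8 : ℝ) *
          (X : ℝ) ^ (1 / 3 : ℝ))) := mul_le_mul_of_nonneg_right e4 (by positivity)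
      rw [e3, one_mul] at e6
      exact e5.trans e6
    exact (mul_le_mul hy1 e1 (by positivity) (by positivity)).trans e2
  have hyL : ((y : ℝ) + 1) ≤ 4 * Real.log X := by
    have e1 : Real.log ((2 : ℝ) ^ y) ≤ Real.log ((X : ℝ) ^ (11 / 24 : ℝ)) :=
      Real.log_le_log (by positivity) hy1
    rw [Real.log_pow, Real.log_rpow hX0] at e1
    have e2 := Real.log_two_gt_d9
    have e3 : (0 : ℝ) ≤ y := Nat.cast_nonneg y
    nlinarith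
  set L := Real.log X with hLd
  have hL0 : 0 < L := by linarith
  set η1 : ℝ := 1 / L ^ A1 with hη1d
  have hη1p : 0 < η1 := by positivity
  have hη0 : 0 < η := lt_of_lt_of_le (by positivity) hη1
  have hηη1 : η ≤ η1 := by
    refine hη2.trans ?_
    rw [hη1d, Real.rpow_neg hX0.le, ← one_div]
    apply one_div_le_one_div_of_le (by positivity)
    linarith
  have hη8 : (X : ℝ) ^ (-(3 / 8) : ℝ) ≤ η := by
    refine le_trans ?_ hη1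
    rw [le_div_iff₀ (by norm_num), Real.rpow_add hX0]
    exact mul_le_mul_of_nonneg_left hX9 (by positivity)
  -- the window
  have hη1s : η1 ≤ 1 / 10 := by
    rw [hη1d]
    apply one_div_le_one_div_of_le (by norm_num)
    have : L ^ 1 ≤ L ^ A1 := pow_le_pow_right₀ (by linarith) hA3
    linarith
  have hexp : Real.exp (1 / 10) ≤ 3 / 2 := by
    have h1 := Real.exp_bound' (x := 1 / 10) (by norm_num) (by norm_num) (n := 2) (by norm_num)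
    refine h1.trans ?_
    norm_num [Finset.sum_range_succ, Nat.factorial]
  have hwin : ∀ η' : ℝ, η' ≤ η1 → x * Real.exp η' ≤ 3 * X := by
    intro η' hη'
    have h1 : Real.exp η' ≤ 3 / 2 := (Real.exp_le_exp.2 (hη'.trans hη1s)).trans hexp
    have h2 : x * Real.exp η' ≤ (2 * X) * (3 / 2) := mul_le_mul hx2 h1 (Real.exp_pos _).le (by positivity)
    linarith
  -- the four terms
  have t1 := h3 X hX1' (2 ^ y) 1 (cA (w + 2)) x η (by decide) (by push_cast; linarith)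
    (by push_cast; exact hy1) (fun m => by
      refine (cA_bd (w + 2) m).trans ?_
      have e1 : 0 ≤ tau m ^ 5 := by unfold tau; positivity
      nlinarith) hx1 hx2 hη8 hη2
  have t2 := h3 X hX1' (2 ^ y) 0 (cB y (w + 2)) x η (by decide) (by push_cast; linarith)
    (by push_cast; exact hy1) (fun m => by
      refine (cB_bd y (w + 2) m).trans ?_
      have e1 : 0 ≤ tau m ^ 5 := by unfold tau; positivity
      nlinarith) hx1 hx2 hη8 hη2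
  have t3 := h4 X hX2' 4 k4 y (w + 2) x η (by norm_num) hy1 hww hx1 hx2 hη1 hηη1
  have t4 := h4 X hX2' 6 k6 y (w + 2) x η (by norm_num) hy1 hww hx1 hx2 hη1 hηη1
  set f1 : ℕ → ℂ := cc (hi 1 (2 ^ y) * cA (w + 2)) with hf1
  set f2 : ℕ → ℂ := cc (hi 0 (2 ^ y) * cB y (w + 2)) with hf2
  set f3 : ℕ → ℂ := cc (Tp k4 y (w + 2)) with hf3
  set f4 : ℕ → ℂ := cc (Tp k6 y (w + 2)) with hf4
  have hid : ∀ η' : ℝ, η' ≤ η1 → ∀ n : ℕ, x < n → (n : ℝ) < x * Real.exp η' →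
      cc La n = f1 n + f2 n - 3 * f3 n + f4 n := by
    intro η' hη' n hn1 hn2
    have hn3 : (n : ℝ) < 3 * X := lt_of_lt_of_le hn2 (hwin η' hη')
    have e1 : n < (2 ^ (w + 2)) ^ 3 := by
      have e2 : (n : ℝ) < ((2 : ℝ) ^ (w + 2)) ^ 3 := by linarith
      exact_mod_cast e2
    have e2 : 2 ^ y * 2 ^ (w + 2) ≤ n := by
      have e3 : ((2 : ℝ) ^ y * (2 : ℝ) ^ (w + 2)) ≤ n := by linarith
      exact_mod_cast e3
    have e3 := hb y (w + 2) n e1 e2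
    simp only [hf1, hf2, hf3, hf4, cc]
    rw [e3]
    push_cast
    ring
  rw [sw_congr h (cc La) (fun n => f1 n + f2 n - 3 * f3 n + f4 n) (200 * X) x η hx0 hη0 (hid η hηη1),
    sw_congr h (cc La) (fun n => f1 n + f2 n - 3 * f3 n + f4 n) (200 * X) x η1 hx0 hη1p
      (hid η1 le_rfl), Sm_lin, Sm_lin]
  have e0 : ∀ a b c d a' b' c' d' : ℂ, a + b - 3 * c + d - (a' + b' - 3 * c' + d') =
      (a - a') + (b - b') - 3 * (c - c') + (d - d') := by intros; ring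
  rw [e0]
  have hnn : ∀ a b c d : ℂ, ‖a + b - 3 * c + d‖ ≤ ‖a‖ + ‖b‖ + 3 * ‖c‖ + ‖d‖ := by
    intro a b c d
    have h2 := norm_add_le (a + b - 3 * c) d
    have h3 := norm_sub_le (a + b) (3 * c)
    have h4 := norm_add_le a b
    have h5 : ‖3 * c‖ = 3 * ‖c‖ := by rw [norm_mul]; norm_num
    linarith
  refine (hnn _ _ _ _).trans ?_
  have h9 : (X : ℝ) / L ^ A = L * (X / L ^ (A + 1)) := by
    rw [pow_succ]
    field_simp
  have h10 : 0 ≤ (X : ℝ) / L ^ (A + 1) := by positivity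
  rw [h9]
  have h11 : 6 * ((X : ℝ) / L ^ (A + 1)) ≤ L * (X / L ^ (A + 1)) :=
    mul_le_mul_of_nonneg_right (by linarith) h10
  linarith

end Pool.Agent.H88.E58
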