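import Pool.Agent.H88.E58.Bmp
import Pool.Agent.H88.E58.Sm
import Pool.Agent.H88.E58.Lg
import Pool.Agent.H97.EP.Defs

/-!
# E58 Fn: primes in every interval `(x, x + x^(5/8+e)]`
-/

set_option autoImplicit false

namespace Pool.Agent.H88.E58

open Finset MeasureTheory
open Pool.Agent.H88.PSI

/-- the number of primes in `(a, b]` -/
private noncomputable def Fn_P (a b : ℕ) : ℝ := (((Ioc a b).filter Nat.Prime).card : ℝ)

private theorem Fn_P_add {a b c : ℕ} (h1 : a ≤ b) (h2 : b ≤ c) : Fn_P a b + Fn_P b c = Fn_P a c := by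
  unfold Fn_P
  rw [← Ioc_union_Ioc_eq_Ioc h1 h2, filter_union, card_union_of_disjoint]
  · push_cast
    ring
  · apply disjoint_filter_filter
    rw [disjoint_left]
    intro n hn hn'
    rw [mem_Ioc] at hn hn'
    omega

private theorem Fn_P_mono {a b c : ℕ} (h2 : b ≤ c) : Fn_P a b ≤ Fn_P a c := by
  unfold Fn_P
  exact_mod_cast card_le_card (filter_subset_filter _ (Ioc_subset_Ioc le_rfl h2))

private theorem Fn_La (x z : ℝ) (hx : 1 ≤ x) (hz : x ≤ z) :
    ∑ n ∈ Ioc ⌊x⌋₊ ⌊z⌋₊, La n ≤ Fn_P ⌊x⌋₊ ⌊z⌋₊ * Real.log z + 2 * Real.sqrt z * Real.log z := by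
  have hf : ⌊x⌋₊ ≤ ⌊z⌋₊ := Nat.floor_le_floor hz
  have h1 : ∑ n ∈ Ioc ⌊x⌋₊ ⌊z⌋₊, La n = Chebyshev.psi z - Chebyshev.psi x := by
    unfold Chebyshev.psi
    rw [← sum_Ioc_consecutive _ (Nat.zero_le _) hf, add_sub_cancel_left]
    rfl
  have h2 := Chebyshev.psi_sub_theta_le (x := z) (by linarith)
  have h3 := Chebyshev.theta_le_psi x
  have h4 : Chebyshev.theta z - Chebyshev.theta x = ∑ p ∈ (Ioc ⌊x⌋₊ ⌊z⌋₊).filter Nat.Prime, Real.log p := by
    unfold Chebyshev.theta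
    rw [sum_filter, sum_filter, sum_filter, ← sum_Ioc_consecutive _ (Nat.zero_le _) hf,
      add_sub_cancel_left]
  have h5 : ∑ p ∈ (Ioc ⌊x⌋₊ ⌊z⌋₊).filter Nat.Prime, Real.log p ≤ Fn_P ⌊x⌋₊ ⌊z⌋₊ * Real.log z := by
    unfold Fn_P
    rw [← nsmul_eq_mul]
    apply sum_le_card_nsmul
    intro p hp
    have h6 := mem_Ioc.1 (mem_filter.1 hp).1
    have h7 : (p : ℝ) ≤ z := (Nat.le_floor_iff (by linarith)).1 h6.2
    apply Real.log_le_log _ h7
    exact_mod_cast (mem_filter.1 hp).2.pos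
  linarith

theorem win58 (e : ℝ) (he : 0 < e) (he' : e ≤ 1 / 100) : ∃ X0 : ℕ, ∀ X : ℕ, X0 ≤ X → ∀ x : ℝ,
    (X : ℝ) ≤ x → x ≤ 2 * X →
    (X : ℝ) ^ (5 / 8 + e) / (1000 * Real.log X) ≤
      (((Ioc ⌊x⌋₊ ⌊x + (X : ℝ) ^ (5 / 8 + e)⌋₊).filter Nat.Prime).card : ℝ) := by
  obtain ⟨ψ, g, hψ⟩ := bmp
  obtain ⟨A0, hA⟩ := sm58 hψ e he he' 1
  obtain ⟨X1, h1⟩ := hA (max A0 1) (le_max_left _ _)
  obtain ⟨X2, h2⟩ := lg58 hψ (max A0 1) (le_max_right _ _)
  obtain ⟨X3, h3⟩ := Pool.Agent.H80.LV.log_ge 8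
  obtain ⟨X4, h4⟩ := Pool.Agent.H80.LV.log_pow_le (1 / 8) 512 (by norm_num) (by norm_num) 1
  refine ⟨max (max X1 X2) (max (max X3 X4) 3), fun X hX x hx1 hx2 => ?_⟩
  simp only [max_le_iff] at hX
  obtain ⟨⟨hX1, hX2⟩, ⟨hX3, hX4⟩, hX5⟩ := hX
  have hL := h3 X hX3
  have hXr : (3 : ℝ) ≤ X := by exact_mod_cast hX5
  have hX0 : (0 : ℝ) < X := by linarith
  have hx0 : 0 < x := by linarith
  have hlg := h2 X hX2 x hx1 hx2
  have h8 := h4 X hX4
  rw [pow_one] at h8
  set L := Real.log X with hLd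
  set H : ℝ := (X : ℝ) ^ (5 / 8 + e) with hH
  have hH0 : 0 < H := by positivity
  set η : ℝ := (X : ℝ) ^ (-(3 / 8) + e) / 4 with hη
  have hη0 : 0 < η := by positivity
  have hηH : 4 * X * η = H := by
    have e1 : (X : ℝ) ^ (1 : ℝ) * (X : ℝ) ^ (-(3 / 8) + e) = H := by
      rw [← Real.rpow_add hX0, hH]
      congr 1
      ring
    rw [Real.rpow_one] at e1
    rw [← e1, hη]
    ring
  have hη4 : η ≤ (X : ℝ) ^ (-(1 / 4) : ℝ) := by
    have e1 : (X : ℝ) ^ (-(3 / 8) + e) ≤ (X : ℝ) ^ (-(1 / 4) : ℝ) :=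
      Real.rpow_le_rpow_of_exponent_le (by linarith) (by linarith)
    have e2 : (0 : ℝ) < (X : ℝ) ^ (-(3 / 8) + e) := by positivity
    rw [hη]
    linarith
  have hη1 : η ≤ 1 / 4 := by
    have e1 : (X : ℝ) ^ (-(3 / 8) + e) ≤ (X : ℝ) ^ (0 : ℝ) :=
      Real.rpow_le_rpow_of_exponent_le (by linarith) (by linarith)
    rw [Real.rpow_zero] at e1
    rw [hη]
    linarith
  have hsm := h1 X hX1 x η hx1 hx2 le_rfl hη4
  -- the short average is large
  have hre : (X : ℝ) / 8 ≤ (sw ψ (cc La) (200 * X) x η).re := by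
    have e1 := (Complex.abs_re_le_norm _).trans hsm
    rw [Complex.sub_re] at e1
    have e2 := (abs_le.1 e1).1
    have e3 : (X : ℝ) / L ^ 1 ≤ X / 8 := by
      rw [pow_one]
      exact div_le_div_of_nonneg_left hX0.le (by norm_num) hL
    linarith
  have hexp : x * Real.exp η ≤ x + H := by
    have e1 : Real.exp η ≤ 1 + 2 * η := by
      have e2 := Real.exp_bound' (x := η) hη0.le (by linarith) (n := 2) (by norm_num)
      norm_num [Finset.sum_range_succ, Nat.factorial] at e2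
      nlinarith
    calc x * Real.exp η ≤ x * (1 + 2 * η) := mul_le_mul_of_nonneg_left e1 hx0.le
      _ = x + 2 * x * η := by ring
      _ ≤ x + 4 * X * η := by nlinarith
      _ = x + H := by rw [hηH]
  have hLa0 : ∀ n, 0 ≤ La n := fun n => ArithmeticFunction.vonMangoldt_nonneg
  have hsum : (sw ψ (cc La) (200 * X) x η).re ≤ (1 / η) * ∑ n ∈ Ioc ⌊x⌋₊ ⌊x + H⌋₊, La n := by
    have e1 : (sw ψ (cc La) (200 * X) x η).re =
        ∑ n ∈ Icc 1 (200 * X), La n * (ψ ((Real.log n - Real.log x) / η) / η) := by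
      unfold sw
      rw [Complex.re_sum]
      refine sum_congr rfl fun n _ => ?_
      unfold cc
      rw [← Complex.ofReal_mul, Complex.ofReal_re]
    rw [e1]
    calc ∑ n ∈ Icc 1 (200 * X), La n * (ψ ((Real.log n - Real.log x) / η) / η)
        = ∑ n ∈ (Icc 1 (200 * X)).filter (fun n => n ∈ Ioc ⌊x⌋₊ ⌊x + H⌋₊),
            La n * (ψ ((Real.log n - Real.log x) / η) / η) := by
          symm
          apply sum_subset (filter_subset _ _)
          intro n hn hn'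
          by_cases e2 : ψ ((Real.log n - Real.log x) / η) = 0
          · rw [e2]; simp
          · exfalso
            apply hn'
            rw [mem_filter]
            refine ⟨hn, ?_⟩
            obtain ⟨e3, e4⟩ := hψ.supp _ e2
            have hn0 : (0 : ℝ) < n := by exact_mod_cast (mem_Icc.1 hn).1
            rw [lt_div_iff₀ hη0, zero_mul] at e3
            rw [div_lt_iff₀ hη0, one_mul] at e4
            have e5 : x < n := (Real.log_lt_log_iff hx0 hn0).1 (by linarith)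
            have e6 : (n : ℝ) < x * Real.exp η := by
              rw [← Real.log_lt_log_iff hn0 (by positivity), Real.log_mul hx0.ne' (Real.exp_pos _).ne',
                Real.log_exp]
              linarith
            rw [mem_Ioc]
            exact ⟨(Nat.floor_lt hx0.le).2 e5, Nat.le_floor (by linarith)⟩
      _ ≤ ∑ n ∈ (Icc 1 (200 * X)).filter (fun n => n ∈ Ioc ⌊x⌋₊ ⌊x + H⌋₊), (1 / η) * La n := by
          apply sum_le_sum
          intro n _
          have e2 := hψ.le1 ((Real.log n - Real.log x) / η)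
          have e3 : ψ ((Real.log n - Real.log x) / η) / η ≤ 1 / η :=
            div_le_div_of_nonneg_right e2 hη0.le
          calc La n * (ψ ((Real.log n - Real.log x) / η) / η) ≤ La n * (1 / η) :=
                mul_le_mul_of_nonneg_left e3 (hLa0 n)
            _ = 1 / η * La n := mul_comm _ _
      _ ≤ ∑ n ∈ Ioc ⌊x⌋₊ ⌊x + H⌋₊, (1 / η) * La n := by
          apply sum_le_sum_of_subset_of_nonneg
          · intro n hn
            exact (mem_filter.1 hn).2
          · intro n _ _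
            exact mul_nonneg (by positivity) (hLa0 n)
      _ = _ := by rw [mul_sum]
  have hHX : H ≤ X := by
    rw [hH]
    nth_rewrite 2 [← Real.rpow_one (X : ℝ)]
    exact Real.rpow_le_rpow_of_exponent_le (by linarith) (by linarith)
  have hz : x + H ≤ 3 * X := by linarith
  have hmain := Fn_La x (x + H) (by linarith) (by linarith)
  have hlog : Real.log (x + H) ≤ 2 * L := by
    have e1 : Real.log (x + H) ≤ Real.log ((X : ℝ) ^ 2) := by
      apply Real.log_le_log (by linarith)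
      nlinarith
    rw [Real.log_pow] at e1
    push_cast at e1
    linarith
  have hsq : Real.sqrt (x + H) ≤ 2 * (X : ℝ) ^ (1 / 2 : ℝ) := by
    rw [← Real.sqrt_eq_rpow]
    calc Real.sqrt (x + H) ≤ Real.sqrt (2 ^ 2 * X) := Real.sqrt_le_sqrt (by linarith)
      _ = 2 * Real.sqrt X := by rw [Real.sqrt_mul (by norm_num), Real.sqrt_sq (by norm_num)]
  have hH8 : 512 * L * (X : ℝ) ^ (1 / 2 : ℝ) ≤ H := by
    calc 512 * L * (X : ℝ) ^ (1 / 2 : ℝ) ≤ (X : ℝ) ^ (1 / 8 : ℝ) * (X : ℝ) ^ (1 / 2 : ℝ) :=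
          mul_le_mul_of_nonneg_right h8 (by positivity)
      _ = (X : ℝ) ^ (5 / 8 : ℝ) := by rw [← Real.rpow_add hX0]; norm_num
      _ ≤ H := Real.rpow_le_rpow_of_exponent_le (by linarith) (by linarith)
  have hL0 : 0 < L := by linarith
  have hlow : H / 32 ≤ ∑ n ∈ Ioc ⌊x⌋₊ ⌊x + H⌋₊, La n := by
    have e1 := hre.trans hsum
    rw [one_div, inv_mul_eq_div, le_div_iff₀ hη0] at e1
    linarith
  have hP0 : 0 ≤ Fn_P ⌊x⌋₊ ⌊x + H⌋₊ := by unfold Fn_P; positivity
  have hlog0 : 0 ≤ Real.log (x + H) := Real.log_nonneg (by linarith)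
  have e5 : Fn_P ⌊x⌋₊ ⌊x + H⌋₊ * Real.log (x + H) ≤ Fn_P ⌊x⌋₊ ⌊x + H⌋₊ * (2 * L) :=
    mul_le_mul_of_nonneg_left hlog hP0
  have e6 : 2 * Real.sqrt (x + H) * Real.log (x + H) ≤ 2 * (2 * (X : ℝ) ^ (1 / 2 : ℝ)) * (2 * L) :=
    mul_le_mul (by linarith) hlog hlog0 (by positivity)
  show H / (1000 * L) ≤ Fn_P ⌊x⌋₊ ⌊x + H⌋₊
  rw [div_le_iff₀ (by positivity)]
  nlinarith

theorem primesIn_58 (θ : ℝ) (h : 5 / 8 < θ) : Pool.Agent.H97.EP.PrimesIn θ := by
  set e : ℝ := min ((θ - 5 / 8) / 2) (1 / 100) with hed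
  have he : 0 < e := lt_min (by linarith) (by norm_num)
  have he' : e ≤ 1 / 100 := min_le_right _ _
  have heθ : 5 / 8 + e ≤ θ := by
    have := min_le_left ((θ - 5 / 8) / 2) (1 / 100 : ℝ)
    rw [← hed] at this
    linarith
  obtain ⟨X0, hw⟩ := win58 e he he'
  refine ⟨1 / 2000, max (X0 : ℝ) 16 + 1, by norm_num, fun x hx y hy1 hy2 => ?_⟩
  obtain ⟨X, hXd⟩ : ∃ X : ℕ, X = ⌊x⌋₊ := ⟨_, rfl⟩
  have hxa : (X0 : ℝ) + 1 ≤ x := by have := le_max_left (X0 : ℝ) 16; linarith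
  have hxb : (16 : ℝ) + 1 ≤ x := by have := le_max_right (X0 : ℝ) 16; linarith
  have hXx : (X : ℝ) ≤ x := by rw [hXd]; exact Nat.floor_le (by linarith)
  have hxX : x < X + 1 := by rw [hXd]; exact Nat.lt_floor_add_one x
  have hX0 : X0 ≤ X := by
    rw [hXd]
    exact Nat.le_floor (by linarith)
  have hX16 : (16 : ℝ) ≤ X := by linarith
  have hXp : (0 : ℝ) < X := by linarith
  set H : ℝ := (X : ℝ) ^ (5 / 8 + e) with hH
  have hH4 : 4 ≤ H := by
    calc (4 : ℝ) = (16 : ℝ) ^ (1 / 2 : ℝ) := by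
          rw [show (16 : ℝ) = 4 ^ (2 : ℝ) by norm_num, ← Real.rpow_mul (by norm_num)]
          norm_num
      _ ≤ (X : ℝ) ^ (1 / 2 : ℝ) := Real.rpow_le_rpow (by norm_num) hX16 (by norm_num)
      _ ≤ H := Real.rpow_le_rpow_of_exponent_le (by linarith) (by linarith)
  have hH0 : 0 < H := by linarith
  have hy0 : 0 ≤ y := le_trans (by positivity) hy1
  have hHy : H ≤ y := by
    refine le_trans ?_ hy1
    calc H ≤ (X : ℝ) ^ θ := Real.rpow_le_rpow_of_exponent_le (by linarith) heθ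
      _ ≤ x ^ θ := Real.rpow_le_rpow hXp.le hXx (by linarith)
  obtain ⟨m, hm⟩ : ∃ m : ℕ, m = ⌊y / H⌋₊ := ⟨_, rfl⟩
  have hmy : (m : ℝ) * H ≤ y := by
    have : (m : ℝ) ≤ y / H := by rw [hm]; exact Nat.floor_le (div_nonneg hy0 hH0.le)
    rwa [le_div_iff₀ hH0] at this
  have hmy2 : y ≤ 2 * (m * H) := by
    have h1 : y / H < m + 1 := by rw [hm]; exact Nat.lt_floor_add_one _
    rw [div_lt_iff₀ hH0] at h1
    have h2 : (1 : ℝ) ≤ m := by
      have : 1 ≤ m := by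
        rw [hm]
        apply Nat.le_floor
        rw [le_div_iff₀ hH0]
        simpa using hHy
      exact_mod_cast this
    nlinarith
  have hlogX : 0 < Real.log X := Real.log_pos (by linarith)
  have hind : ∀ i : ℕ, i ≤ m → (i : ℝ) * (H / (1000 * Real.log X)) ≤ Fn_P ⌊x⌋₊ ⌊x + i * H⌋₊ := by
    intro i
    induction i with
    | zero =>
      intro _
      simp [Fn_P]
    | succ i ih =>
      intro hi
      have h1 := ih (by omega)
      have h2 : ((i : ℝ) + 1) * H ≤ y := by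
        refine le_trans ?_ hmy
        apply mul_le_mul_of_nonneg_right _ hH0.le
        exact_mod_cast hi
      have h3 : x + i * H ≤ 2 * X := by nlinarith
      have h4 := hw X hX0 (x + i * H) (by nlinarith [Nat.cast_nonneg (α := ℝ) i]) h3
      have h5 : x + (i : ℝ) * H + H = x + ((i + 1 : ℕ) : ℝ) * H := by push_cast; ring
      rw [← hH, h5] at h4
      have h6 : Fn_P ⌊x⌋₊ ⌊x + i * H⌋₊ + Fn_P ⌊x + i * H⌋₊ ⌊x + ((i + 1 : ℕ) : ℝ) * H⌋₊ =
          Fn_P ⌊x⌋₊ ⌊x + ((i + 1 : ℕ) : ℝ) * H⌋₊ := by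
        apply Fn_P_add
        · exact Nat.floor_le_floor (by nlinarith [Nat.cast_nonneg (α := ℝ) i])
        · apply Nat.floor_le_floor
          push_cast
          nlinarith
      rw [← h6]
      have h7 : H / (1000 * Real.log X) ≤
          Fn_P ⌊x + i * H⌋₊ ⌊x + ((i + 1 : ℕ) : ℝ) * H⌋₊ := h4
      push_cast at h1 h7 ⊢
      linarith
  have hfin := hind m le_rfl
  have hmono : Fn_P ⌊x⌋₊ ⌊x + m * H⌋₊ ≤ Fn_P ⌊x⌋₊ ⌊x + y⌋₊ :=
    Fn_P_mono (Nat.floor_le_floor (by linarith))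
  show 1 / 2000 * (y / Real.log x) ≤ Fn_P ⌊x⌋₊ ⌊x + y⌋₊
  refine le_trans ?_ (hfin.trans hmono)
  have h1 : y / Real.log x ≤ y / Real.log X := by
    apply div_le_div_of_nonneg_left (by linarith) hlogX
    exact Real.log_le_log hXp hXx
  calc 1 / 2000 * (y / Real.log x) ≤ 1 / 2000 * (y / Real.log X) := by linarith
    _ ≤ 1 / 2000 * (2 * (m * H) / Real.log X) := by
        apply mul_le_mul_of_nonneg_left _ (by norm_num)
        exact div_le_div_of_nonneg_right hmy2 hlogX.le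
    _ = m * (H / (1000 * Real.log X)) := by
        field_simp
        ring

end Pool.Agent.H88.E58
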