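import Pool.Agent.H88.E58.Bx
import Pool.Agent.H88.E58.Dif

/-!
# E58 Pc: one dyadic piece of type II

If `∏ 2^(j i) > 3X` or `2^r ∏ 2^(j i) < X` then both sums vanish.  Else `box58` with `e/2` and `A + 1`, `dif` with `T0 = L^K'`, `T = X^(3/8-e/2)`,
`k = ⌈1/e⌉ + 2`; `∑ ‖f‖ ≤ 200 X (2L)^6 (1 + log 200X)^64` (`prod_bd`, `tau_mom`).
-/

set_option autoImplicit false

namespace Pool.Agent.H88.E58

open Finset MeasureTheory
open Pool.Agent.H88.PSI

/-- only the values on the window matter -/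
theorem sw_congr {ψ : ℝ → ℝ} {g : ℝ → ℂ} (h : Bump ψ g) (f f' : ℕ → ℂ) (N : ℕ) (x η : ℝ) (hx : 0 < x)
    (hη : 0 < η) (hf : ∀ n : ℕ, x < n → (n : ℝ) < x * Real.exp η → f n = f' n) :
    sw ψ f N x η = sw ψ f' N x η := by
  unfold sw
  refine sum_congr rfl fun n hn => ?_
  by_cases h0 : ψ ((Real.log n - Real.log x) / η) = 0
  · rw [h0]; simp
  · obtain ⟨h1, h2⟩ := h.supp _ h0
    have hn0 : (0 : ℝ) < n := by exact_mod_cast (mem_Icc.1 hn).1
    rw [lt_div_iff₀ hη, zero_mul] at h1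
    rw [div_lt_iff₀ hη, one_mul] at h2
    rw [hf n ?_ ?_]
    · exact (Real.log_lt_log_iff hx hn0).1 (by linarith)
    · rw [← Real.log_lt_log_iff hn0 (by positivity), Real.log_mul hx.ne' (Real.exp_pos _).ne',
        Real.log_exp]
      linarith

theorem sw_zero {ψ : ℝ → ℝ} {g : ℝ → ℂ} (h : Bump ψ g) (f : ℕ → ℂ) (N : ℕ) (x η : ℝ) (hx : 0 < x)
    (hη : 0 < η) (hf : ∀ n : ℕ, x < n → (n : ℝ) < x * Real.exp η → f n = 0) :
    sw ψ f N x η = 0 := by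
  rw [sw_congr h f (fun _ => 0) N x η hx hη hf]
  unfold sw
  simp

theorem cc_tw (f : ArithmeticFunction ℝ) : cc f = ⇑(tw (1 : DirichletCharacter ℂ 1) f) := by
  funext n
  show ((f n : ℝ) : ℂ) = ((f n : ℝ) : ℂ) * (1 : DirichletCharacter ℂ 1) (n : ZMod 1)
  have h1 : (1 : DirichletCharacter ℂ 1) (n : ZMod 1) = 1 := by
    have : (n : ZMod 1) = 1 := Subsingleton.elim _ _
    rw [this, map_one]
  rw [h1, mul_one]

private theorem Pc_supp {r : ℕ} (κ : Fin r → Fin 3) (j : Fin r → ℕ) (n : ℕ) (hn : cc (Pp κ j) n ≠ 0) :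
    ∏ i, 2 ^ j i ≤ n ∧ n ≤ 2 ^ r * ∏ i, 2 ^ j i := by
  have hsup : ∀ i n, tw (1 : DirichletCharacter ℂ 1) (pc (κ i) (j i)) n ≠ 0 →
      2 ^ j i ≤ n ∧ n < 2 * 2 ^ j i := by
    intro i n hn
    have h3 : pc (κ i) (j i) n ≠ 0 := by
      intro h0
      apply hn
      show (((pc (κ i) (j i)) n : ℝ) : ℂ) * (1 : DirichletCharacter ℂ 1) (n : ZMod 1) = 0
      rw [h0]; simp
    unfold pc seg at h3
    simp only [ArithmeticFunction.coe_mk] at h3
    split_ifs at h3 with h4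
    · refine ⟨h4.2.1, ?_⟩
      have := h4.2.2
      rw [pow_succ] at this
      omega
    · exact absurd rfl h3
  have e1 : tw (1 : DirichletCharacter ℂ 1) (Pp κ j) = ∏ i, tw (1 : DirichletCharacter ℂ 1) (pc (κ i) (j i)) := by
    unfold Pp
    exact tw_prod 1 univ _ (by omega)
  have e2 : ∏ i : Fin r, (2 * 2 ^ j i) = 2 ^ r * ∏ i, 2 ^ j i := by
    rw [prod_mul_distrib]; simp
  rw [cc_tw, e1] at hn
  have h1 := prod_supp (fun i => tw (1 : DirichletCharacter ℂ 1) (pc (κ i) (j i))) (fun i => 2 ^ j i)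
    hsup n hn
  rw [e2] at h1
  exact h1

private theorem Pc_S : ∃ X0 : ℕ, ∀ X : ℕ, X0 ≤ X → ∀ (r : ℕ) (κ : Fin r → Fin 3) (j : Fin r → ℕ),
    r ≤ 6 → (∀ i, (2 : ℝ) ^ j i ≤ (X : ℝ) ^ (11 / 24 : ℝ)) → ∏ i, 2 ^ j i ≤ 3 * X →
    ∑ n ∈ Icc 1 (200 * X), ‖cc (Pp κ j) n‖ ≤ X * Real.log X ^ 100 := by
  obtain ⟨X1, H1⟩ := Pool.Agent.H80.LV.log_ge (200 * 2 ^ 6 * 2 ^ 64)
  refine ⟨max X1 200, fun X hX r κ j hr hj1 hj2 => ?_⟩
  have hX1 : X1 ≤ X := (le_max_left _ _).trans hX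
  have hX2 : 200 ≤ X := (le_max_right _ _).trans hX
  have hL := H1 X hX1
  have hXr : (200 : ℝ) ≤ X := by exact_mod_cast hX2
  have hX0 : (0 : ℝ) < X := by linarith
  set L := Real.log X with hLd
  have hL1 : 1 ≤ L := le_trans (by norm_num) hL
  have hbox := BoxI_box X (by omega) (1 : DirichletCharacter ℂ 1) κ j hr hj1 hj2
  have e1 : tw (1 : DirichletCharacter ℂ 1) (Pp κ j) = ∏ i, tw (1 : DirichletCharacter ℂ 1) (pc (κ i) (j i)) := by
    unfold Pp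
    exact tw_prod 1 univ _ (by omega)
  have hpt : ∀ n ∈ Icc 1 (200 * X), ‖cc (Pp κ j) n‖ ≤ (2 * L) ^ 6 * tau n ^ 6 := by
    intro n hn
    rw [cc_tw, e1]
    refine (prod_bd _ (2 * L) (by linarith) hbox.bd n).trans ?_
    have ht : 1 ≤ tau n := by
      unfold tau
      have : 0 < n.divisors.card := card_pos.2 ⟨1, Nat.one_mem_divisors.2 (by
        have := (mem_Icc.1 hn).1; omega)⟩
      exact_mod_cast this
    exact mul_le_mul (pow_le_pow_right₀ (by linarith) hr) (pow_le_pow_right₀ ht hr)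
      (by positivity) (by positivity)
  have hlog : 1 + Real.log ((200 * X : ℕ) : ℝ) ≤ 2 * (2 * L) := by
    have h1 : Real.log ((200 * X : ℕ) : ℝ) ≤ Real.log ((X : ℝ) ^ 2) := by
      apply Real.log_le_log
      · push_cast; positivity
      · push_cast; nlinarith
    rw [Real.log_pow] at h1
    push_cast at h1 ⊢
    linarith
  calc ∑ n ∈ Icc 1 (200 * X), ‖cc (Pp κ j) n‖
      ≤ ∑ n ∈ Icc 1 (200 * X), (2 * L) ^ 6 * tau n ^ 6 := sum_le_sum hpt
    _ = (2 * L) ^ 6 * ∑ n ∈ Icc 1 (200 * X), tau n ^ 6 := by rw [mul_sum]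
    _ ≤ (2 * L) ^ 6 * (((200 * X : ℕ) : ℝ) * (1 + Real.log ((200 * X : ℕ) : ℝ)) ^ (2 ^ 6)) :=
        mul_le_mul_of_nonneg_left (tau_mom 6 _) (by positivity)
    _ ≤ (2 * L) ^ 6 * ((200 * X) * (2 * (2 * L)) ^ 64) := by
        apply mul_le_mul_of_nonneg_left _ (by positivity)
        push_cast
        apply mul_le_mul_of_nonneg_left _ (by positivity)
        push_cast at hlog
        have h0 : 0 ≤ Real.log (200 * (X : ℝ)) := Real.log_nonneg (by linarith)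
        exact pow_le_pow_left₀ (by linarith) hlog 64
    _ = X * (200 * 2 ^ 6 * 2 ^ 64 * 2 ^ 64 * L ^ 70) := by ring
    _ ≤ X * (L * L * L ^ 70) := by
        apply mul_le_mul_of_nonneg_left _ (by positivity)
        apply mul_le_mul_of_nonneg_right _ (by positivity)
        exact mul_le_mul hL (le_trans (by norm_num) hL) (by positivity) (by linarith)
    _ = X * L ^ 72 := by ring
    _ ≤ X * L ^ 100 := by
        apply mul_le_mul_of_nonneg_left _ (by positivity)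
        exact pow_le_pow_right₀ hL1 (by norm_num)

theorem pc58 {ψ : ℝ → ℝ} {g : ℝ → ℂ} (h : Bump ψ g) (e : ℝ) (he : 0 < e) (he' : e ≤ 1 / 100) (A : ℕ) :
    ∃ A0 : ℕ, ∀ A1 : ℕ, A0 ≤ A1 → ∃ X0 : ℕ, ∀ X : ℕ, X0 ≤ X →
    ∀ (r : ℕ) (κ : Fin r → Fin 3) (j : Fin r → ℕ) (x η : ℝ), r ≤ 6 →
    (∀ i, (2 : ℝ) ^ j i ≤ (X : ℝ) ^ (11 / 24 : ℝ)) → (X : ℝ) ≤ x → x ≤ 2 * X →
    (X : ℝ) ^ (-(3 / 8) + e) / 4 ≤ η → η ≤ 1 / Real.log X ^ A1 →
    ‖sw ψ (cc (Pp κ j)) (200 * X) x η - sw ψ (cc (Pp κ j)) (200 * X) x (1 / Real.log X ^ A1)‖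
      ≤ X / Real.log X ^ A := by
  obtain ⟨k, hk⟩ : ∃ k : ℕ, k = ⌈1 / e⌉₊ + 2 := ⟨_, rfl⟩
  obtain ⟨C, hC1, hC⟩ := dif h k (by omega)
  obtain ⟨K', X1, hB⟩ := box58 (e / 2) (by positivity) (by linarith) (A + 1)
  obtain ⟨X2, hS⟩ := Pc_S
  refine ⟨2 * K' + A + 104, fun A1 hA1 => ?_⟩
  obtain ⟨X3, H3⟩ := Pool.Agent.H80.LV.log_ge (3 * C + 10)
  obtain ⟨X4, H4⟩ := Pool.Agent.H80.LV.log_pow_le (1 / 4) 1 (by norm_num) (by norm_num) K'
  obtain ⟨X5, H5⟩ := Pool.Agent.H80.LV.log_pow_le (1 / 8) (4 ^ k) (by norm_num) (by positivity)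
    (A + 102)
  refine ⟨max (max X1 X2) (max (max X3 X4) (max X5 200)), fun X hX r κ j x η hr hj hx1 hx2 hη1 hη2 => ?_⟩
  simp only [max_le_iff] at hX
  obtain ⟨⟨hX1, hX2⟩, ⟨hX3, hX4⟩, hX5, hX6⟩ := hX
  have hXr : (200 : ℝ) ≤ X := by exact_mod_cast hX6
  have hX0 : (0 : ℝ) < X := by linarith
  have hx0 : 0 < x := by linarith
  have hL := H3 X hX3
  set L := Real.log X with hLd
  have hL1 : 1 ≤ L := by linarith
  have hL0 : 0 < L := by linarith
  have hη0 : 0 < η := lt_of_lt_of_le (by positivity) hη1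
  set η1 : ℝ := 1 / L ^ A1 with hη1d
  have hη1p : 0 < η1 := by positivity
  have hη1s : η1 ≤ 1 / 10 := by
    rw [hη1d]
    apply one_div_le_one_div_of_le (by norm_num)
    have : L ^ 1 ≤ L ^ A1 := pow_le_pow_right₀ hL1 (by omega)
    linarith
  have hexp : Real.exp (1 / 10) ≤ 3 / 2 := by
    have h1 := Real.exp_bound' (x := 1 / 10) (by norm_num) (by norm_num) (n := 2) (by norm_num)
    refine h1.trans ?_
    norm_num [Finset.sum_range_succ, Nat.factorial]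
  have hwin : ∀ η' : ℝ, η' ≤ η1 → x * Real.exp η' ≤ 3 * X := by
    intro η' hη'
    have h1 : Real.exp η' ≤ 3 / 2 := (Real.exp_le_exp.2 (hη'.trans hη1s)).trans hexp
    have h2 : x * Real.exp η' ≤ (2 * X) * (3 / 2) := mul_le_mul hx2 h1 (Real.exp_pos _).le (by positivity)
    linarith
  have hnn : 0 ≤ (X : ℝ) / L ^ A := by positivity
  by_cases c1 : ∏ i, 2 ^ j i ≤ 3 * X
  swap
  · have hz : ∀ η' : ℝ, 0 < η' → η' ≤ η1 → sw ψ (cc (Pp κ j)) (200 * X) x η' = 0 := by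
      intro η' h1 h2
      apply sw_zero h _ _ _ _ hx0 h1
      intro n h3 h4
      by_contra h5
      have h6 := (Pc_supp κ j n h5).1
      have h7 := hwin η' h2
      have h8 : (n : ℝ) < 3 * X := lt_of_lt_of_le h4 h7
      have h9 : n < 3 * X := by exact_mod_cast h8
      omega
    rw [hz η hη0 hη2, hz η1 hη1p le_rfl, sub_zero, norm_zero]
    exact hnn
  by_cases c2 : X ≤ 2 ^ r * ∏ i, 2 ^ j i
  swap
  · have hz : ∀ η' : ℝ, 0 < η' → sw ψ (cc (Pp κ j)) (200 * X) x η' = 0 := by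
      intro η' h1
      apply sw_zero h _ _ _ _ hx0 h1
      intro n h3 h4
      by_contra h5
      have h6 := (Pc_supp κ j n h5).2
      have h8 : (X : ℝ) < n := lt_of_le_of_lt hx1 h3
      have h9 : X < n := by exact_mod_cast h8
      omega
    rw [hz η hη0, hz η1 hη1p, sub_zero, norm_zero]
    exact hnn
  have hN : 2 ^ r * ∏ i, 2 ^ j i ≤ 200 * X := by
    have hr1 : 2 ^ r ≤ 2 ^ 6 := Nat.pow_le_pow_right (by norm_num) hr
    calc 2 ^ r * ∏ i, 2 ^ j i ≤ 2 ^ 6 * (3 * X) := Nat.mul_le_mul hr1 c1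
      _ ≤ 200 * X := by omega
  set T0 : ℝ := L ^ K' with hT0
  set T : ℝ := (X : ℝ) ^ (3 / 8 - e / 2) with hT
  have hT01 : 1 ≤ T0 := one_le_pow₀ hL1
  have hT0T : T0 ≤ T := by
    have h1 := H4 X hX4
    have h2 : (X : ℝ) ^ (1 / 4 : ℝ) ≤ T := Real.rpow_le_rpow_of_exponent_le (by linarith) (by linarith)
    linarith
  have hT1 : 1 ≤ T := hT01.trans hT0T
  have hD := hC (cc (Pp κ j)) (200 * X) x η η1 T0 T hη0 hη2 hT01 hT0T
  have hB' := hB X hX1 r (200 * X) κ j hr hj c1 c2 hN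
  rw [← cc_tw] at hB'
  have hS' := hS X hX2 r κ j hr hj c1
  set S := ∑ n ∈ Icc 1 (200 * X), ‖cc (Pp κ j) n‖ with hSd
  have hS0 : 0 ≤ S := sum_nonneg fun _ _ => norm_nonneg _
  -- first term
  have t1 : T0 ^ 2 * η1 * S ≤ X / L ^ (A + 1) := by
    have h1 : T0 ^ 2 * η1 * S ≤ T0 ^ 2 * η1 * (X * L ^ 100) :=
      mul_le_mul_of_nonneg_left hS' (by positivity)
    refine h1.trans ?_
    rw [hT0, hη1d, ← pow_mul, le_div_iff₀ (by positivity)]
    have h2 : L ^ (K' * 2) * L ^ 100 * L ^ (A + 1) ≤ L ^ A1 := by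
      rw [← pow_add, ← pow_add]
      exact pow_le_pow_right₀ hL1 (by omega)
    calc L ^ (K' * 2) * (1 / L ^ A1) * (X * L ^ 100) * L ^ (A + 1)
        = X * (L ^ (K' * 2) * L ^ 100 * L ^ (A + 1)) / L ^ A1 := by ring
      _ ≤ X * L ^ A1 / L ^ A1 := by
          apply div_le_div_of_nonneg_right _ (by positivity)
          exact mul_le_mul_of_nonneg_left h2 hX0.le
      _ = X := by field_simp
  -- third term
  have t3 : S * T / (η * T) ^ k ≤ X / L ^ (A + 1) := by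
    have h1 : (X : ℝ) ^ (e / 2) / 4 ≤ η * T := by
      have h2 : (X : ℝ) ^ (-(3 / 8) + e) / 4 * T ≤ η * T := mul_le_mul_of_nonneg_right hη1 (by positivity)
      have h3 : (X : ℝ) ^ (-(3 / 8) + e) * T = (X : ℝ) ^ (e / 2) := by
        rw [hT, ← Real.rpow_add hX0]
        congr 1
        ring
      calc (X : ℝ) ^ (e / 2) / 4 = (X : ℝ) ^ (-(3 / 8) + e) / 4 * T := by rw [← h3]; ring
        _ ≤ _ := h2
    have h2 : (X : ℝ) ^ (1 / 2 : ℝ) / 4 ^ k ≤ (η * T) ^ k := by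
      have h3 : ((X : ℝ) ^ (e / 2) / 4) ^ k ≤ (η * T) ^ k := pow_le_pow_left₀ (by positivity) h1 k
      refine le_trans ?_ h3
      rw [div_pow]
      apply div_le_div_of_nonneg_right _ (by positivity)
      rw [← Real.rpow_natCast, ← Real.rpow_mul hX0.le]
      apply Real.rpow_le_rpow_of_exponent_le (by linarith)
      have h4 : 1 / e ≤ (k : ℝ) := by
        rw [hk]
        push_cast
        have := Nat.le_ceil (1 / e)
        linarith
      rw [div_le_iff₀ he] at h4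
      nlinarith
    have h3 : S * T ≤ X * L ^ 100 * (X : ℝ) ^ (3 / 8 : ℝ) := by
      apply mul_le_mul hS' _ (by positivity) (by positivity)
      exact Real.rpow_le_rpow_of_exponent_le (by linarith) (by linarith)
    have h5 := H5 X hX5
    have h6 : (X : ℝ) ^ (1 / 2 : ℝ) = (X : ℝ) ^ (3 / 8 : ℝ) * (X : ℝ) ^ (1 / 8 : ℝ) := by
      rw [← Real.rpow_add hX0]
      norm_num
    have h7 : 0 < (η * T) ^ k := by positivity
    rw [div_le_div_iff₀ h7 (by positivity)]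
    calc S * T * L ^ (A + 1) ≤ X * L ^ 100 * (X : ℝ) ^ (3 / 8 : ℝ) * L ^ (A + 1) :=
          mul_le_mul_of_nonneg_right h3 (by positivity)
      _ = X * ((X : ℝ) ^ (3 / 8 : ℝ) * L ^ (A + 101)) := by
          rw [show A + 101 = 100 + (A + 1) by ring, pow_add L 100]
          ring
      _ ≤ X * ((X : ℝ) ^ (3 / 8 : ℝ) * ((X : ℝ) ^ (1 / 8 : ℝ) / 4 ^ k)) := by
          apply mul_le_mul_of_nonneg_left _ hX0.le
          apply mul_le_mul_of_nonneg_left _ (by positivity)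
          rw [le_div_iff₀ (by positivity)]
          have h8 : L ^ (A + 101) ≤ L ^ (A + 102) := pow_le_pow_right₀ hL1 (by omega)
          have h9 : (0 : ℝ) < 4 ^ k := by positivity
          nlinarith
      _ = X * ((X : ℝ) ^ (1 / 2 : ℝ) / 4 ^ k) := by rw [h6]; ring
      _ ≤ X * (η * T) ^ k := mul_le_mul_of_nonneg_left h2 hX0.le
  -- second term
  have t2 : ∫ t in {t : ℝ | T0 ≤ |t| ∧ |t| ≤ T}, ‖DP (cc (Pp κ j)) (200 * X) t‖ ≤ X / L ^ (A + 1) := hB'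
  refine hD.trans ?_
  have h8 : (X : ℝ) / L ^ A = L * (X / L ^ (A + 1)) := by
    rw [pow_succ]
    field_simp
  have h9 : 0 ≤ (X : ℝ) / L ^ (A + 1) := by positivity
  rw [h8]
  calc C * (T0 ^ 2 * η1 * S + (∫ t in {t : ℝ | T0 ≤ |t| ∧ |t| ≤ T}, ‖DP (cc (Pp κ j)) (200 * X) t‖)
        + S * T / (η * T) ^ k)
      ≤ C * (X / L ^ (A + 1) + X / L ^ (A + 1) + X / L ^ (A + 1)) :=
        mul_le_mul_of_nonneg_left (by linarith) (by linarith)
    _ = (3 * C) * (X / L ^ (A + 1)) := by ring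
    _ ≤ L * (X / L ^ (A + 1)) := mul_le_mul_of_nonneg_right (by linarith) h9

end Pool.Agent.H88.E58
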